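import Mathlib

namespace Pool.Agent.Helper31.Fan

open SimpleGraph

/-- The join of two graphs: the disjoint union plus all edges between the two sides. -/
def join {α β : Type*} (G : SimpleGraph α) (H : SimpleGraph β) : SimpleGraph (α ⊕ β) :=
  (G ⊕g H) ⊔ completeBipartiteGraph α β

/-- The fan `K_1 ∨ P_n`, a graph on `n + 1` vertices. -/
def fan (n : ℕ) : SimpleGraph (Fin 1 ⊕ Fin n) :=
  join (⊤ : SimpleGraph (Fin 1)) (pathGraph n)

/-- The graph `S^{1,l}_{n,k} = K_l ∨ ((K_{k-l} ∨ (n-k-1) K_1) ∪ K_1)`. -/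
def extGraph (n k l : ℕ) :
    SimpleGraph (Fin l ⊕ ((Fin (k - l) ⊕ Fin (n - k - 1)) ⊕ Fin 1)) :=
  join (⊤ : SimpleGraph (Fin l))
    (join (⊤ : SimpleGraph (Fin (k - l))) (⊥ : SimpleGraph (Fin (n - k - 1))) ⊕g
      (⊥ : SimpleGraph (Fin 1)))

open Classical in
/-- The spectral radius: the largest eigenvalue of the adjacency matrix. -/
noncomputable def specRad {V : Type*} [Fintype V] (G : SimpleGraph V) : ℝ :=
  sSup (spectrum ℝ (G.adjMatrix ℝ))

end Pool.Agent.Helper31.Fan
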