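import Mathlib
import Pool.Agent.Helper31.Fan.Defs

namespace Pool.Agent.Helper31.Fan

open Finset

/-- `j (k - j)` for the residue `j` -/
def fres (k j : ℕ) : ℕ := (j % k) * (k - j % k)

theorem fres_aux (k x y : ℕ) (ha : x < k) (hb : y < k) :
    ((x + y) % k) * (k - (x + y) % k) ≤ x * (k - x) + y * (k - y) ∧
      (x ≠ 0 → y ≠ 0 → ((x + y) % k) * (k - (x + y) % k) < x * (k - x) + y * (k - y)) := by
  rcases Nat.lt_or_ge (x + y) k with h | h
  · rw [Nat.mod_eq_of_lt h]
    obtain ⟨c, rfl⟩ := Nat.exists_eq_add_of_lt h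
    have e1 : x + y + c + 1 - (x + y) = c + 1 := by omega
    have e2 : x + y + c + 1 - x = y + c + 1 := by omega
    have e3 : x + y + c + 1 - y = x + c + 1 := by omega
    rw [e1, e2, e3]
    constructor
    · nlinarith
    · intro h1 h2
      have : 0 < x * y := Nat.mul_pos (by omega) (by omega)
      nlinarith
  · have h2 : (x + y) % k = x + y - k := by
      rw [Nat.mod_eq_sub_mod h, Nat.mod_eq_of_lt (by omega)]
    rw [h2]
    obtain ⟨p, hp⟩ : ∃ p, k = x + p := ⟨k - x, by omega⟩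
    obtain ⟨q, hq⟩ : ∃ q, k = y + q := ⟨k - y, by omega⟩
    obtain ⟨c, hc⟩ : ∃ c, x + y = k + c := ⟨x + y - k, by omega⟩
    have e1 : x + y - k = c := by omega
    have e2 : k - c = p + q := by omega
    have e3 : k - x = p := by omega
    have e4 : k - y = q := by omega
    rw [e1, e2, e3, e4]
    have e5 : x = c + q := by omega
    have e6 : y = c + p := by omega
    rw [e5, e6]
    have hp0 : 0 < p := by omega
    have hq0 : 0 < q := by omega
    have : 0 < p * q := Nat.mul_pos hp0 hq0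
    constructor
    · nlinarith
    · intro _ _
      nlinarith

theorem fres_add (k : ℕ) (hk : 1 ≤ k) (a b : ℕ) :
    fres k (a + b) ≤ fres k a + fres k b ∧
      (a % k ≠ 0 → b % k ≠ 0 → fres k (a + b) < fres k a + fres k b) := by
  have ha : a % k < k := Nat.mod_lt _ (by omega)
  have hb : b % k < k := Nat.mod_lt _ (by omega)
  have hab : (a + b) % k = (a % k + b % k) % k := Nat.add_mod a b k
  unfold fres
  rw [hab]
  exact fres_aux k (a % k) (b % k) ha hb

theorem fres_le (k : ℕ) (hk : 2 ≤ k) (E : ℕ) : fres k E ≤ E * (k - 1) := by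
  induction E with
  | zero => simp [fres]
  | succ E ih =>
    have h1 := (fres_add k (by omega) E 1).1
    have h2 : fres k 1 = k - 1 := by
      unfold fres
      rw [Nat.mod_eq_of_lt (by omega)]
      simp
    rw [Nat.succ_mul]
    omega

theorem fres_sum {ι : Type*} (k : ℕ) (hk : 1 ≤ k) (R : Finset ι) (d : ι → ℕ) :
    fres k (∑ r ∈ R, d r) ≤ ∑ r ∈ R, fres k (d r) := by
  classical
  induction R using Finset.induction_on with
  | empty => simp [fres]
  | insert a R ha ih =>
    rw [sum_insert ha, sum_insert ha]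
    have := (fres_add k hk (d a) (∑ r ∈ R, d r)).1
    omega

theorem fres_of_le {k j : ℕ} (h : j ≤ k) : fres k j = j * (k - j) := by
  unfold fres
  rcases Nat.lt_or_ge j k with h1 | h1
  · rw [Nat.mod_eq_of_lt h1]
  · have : j = k := by omega
    subst this
    simp

theorem comb {ι : Type*} [DecidableEq ι] (k l E : ℕ) (hk : 2 ≤ k) (hl1 : 1 ≤ l) (hl2 : l ≤ k - 1)
    (R : Finset ι) (d : ι → ℕ) (hd : ∀ r ∈ R, d r ≤ k)
    (h1 : k * E + ∑ r ∈ R, d r * (k - d r) ≤ l * (k - l))
    (h2 : (∑ r ∈ R, d r + E) ≡ l [MOD k]) :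
    E = 0 ∧ ∃ r₀ ∈ R, d r₀ = l ∧ ∀ r ∈ R, r ≠ r₀ → d r = 0 ∨ d r = k := by
  have hsum : ∑ r ∈ R, d r * (k - d r) = ∑ r ∈ R, fres k (d r) :=
    sum_congr rfl fun r hr => (fres_of_le (hd r hr)).symm
  have hlk : l < k := by omega
  have hfl : fres k l = l * (k - l) := fres_of_le hlk.le
  have hfeq : fres k (∑ r ∈ R, d r + E) = fres k l := by
    unfold fres
    rw [h2]
  have h3 := (fres_add k (by omega) (∑ r ∈ R, d r) E).1
  have h4 := fres_le k hk E
  have h5 := fres_sum k (by omega) R d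
  rw [hsum, ← hfl] at h1
  have hE : E = 0 := by
    by_contra hne
    have h6 : E * (k - 1) + E = k * E := by
      obtain ⟨j, rfl⟩ : ∃ j, k = j + 1 := ⟨k - 1, by omega⟩
      simp only [Nat.add_sub_cancel]
      ring
    omega
  refine ⟨hE, ?_⟩
  subst hE
  simp only [Nat.add_zero, Nat.mul_zero, Nat.zero_add] at *
  -- there is a non-zero residue
  have hex : ∃ r₀ ∈ R, d r₀ % k ≠ 0 := by
    by_contra hc
    push Not at hc
    have h6 : (∑ r ∈ R, d r) % k = 0 := by
      rw [Finset.sum_nat_mod, sum_congr rfl hc]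
      simp
    have h7 : l % k = 0 := by rw [← h2]; exact h6
    rw [Nat.mod_eq_of_lt hlk] at h7
    omega
  obtain ⟨r₀, hr₀, hr₀d⟩ := hex
  have hs1 : ∑ r ∈ R, d r = d r₀ + ∑ r ∈ R.erase r₀, d r := (add_sum_erase R d hr₀).symm
  have hs2 : ∑ r ∈ R, fres k (d r) = fres k (d r₀) + ∑ r ∈ R.erase r₀, fres k (d r) :=
    (add_sum_erase R (fun r => fres k (d r)) hr₀).symm
  have h8 := fres_sum k (by omega) (R.erase r₀) d
  have hD : (∑ r ∈ R.erase r₀, d r) % k = 0 := by
    by_contra hne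
    have h9 := (fres_add k (by omega) (d r₀) (∑ r ∈ R.erase r₀, d r)).2 hr₀d hne
    rw [← hs1] at h9
    omega
  have hdk : d r₀ < k := by
    rcases Nat.lt_or_ge (d r₀) k with h | h
    · exact h
    · have : d r₀ = k := le_antisymm (hd r₀ hr₀) h
      rw [this] at hr₀d
      simp at hr₀d
  have hdl : d r₀ = l := by
    have h9 : (d r₀ + ∑ r ∈ R.erase r₀, d r) % k = l % k := by rw [← hs1]; exact h2
    rw [Nat.add_mod, hD, Nat.add_zero, Nat.mod_mod, Nat.mod_eq_of_lt hdk,
      Nat.mod_eq_of_lt hlk] at h9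
    exact h9
  refine ⟨r₀, hr₀, hdl, ?_⟩
  intro r hr hne
  have h9 : ∑ r ∈ R.erase r₀, fres k (d r) = 0 := by
    rw [hs2, hdl] at h1
    omega
  have h10 : fres k (d r) = 0 := (sum_eq_zero_iff.1 h9) r (mem_erase.2 ⟨hne, hr⟩)
  rw [fres_of_le (hd r hr)] at h10
  rcases Nat.mul_eq_zero.1 h10 with h | h
  · left; exact h
  · right
    have := hd r hr
    omega

end Pool.Agent.Helper31.Fan
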