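import Mathlib

namespace Pool.Agent.Helper31.Fan

open Finset

/-- Core lemma: peeling off vertices of small degree. -/
theorem core {V : Type*} [DecidableEq V] (R : V → V → Prop) [DecidableRel R]
    (w : V → V → ℝ) (y : V → ℝ) (q : ℕ) (hq : 1 ≤ q)
    (hws : ∀ a b, w a b = w b a) (hw0 : ∀ a b, ¬ R a b → w a b = 0) (hirr : ∀ a, ¬ R a a)
    (hwy : ∀ a b, R a b → w a b ≤ y a) (hy : ∀ a, 0 ≤ y a) (N : Finset V) :
    ∃ K ⊆ N, (∀ v ∈ K, q ≤ (K.filter (fun b => R v b)).card) ∧
      ∑ a ∈ N, ∑ b ∈ N, w a b ≤
        ∑ a ∈ K, ∑ b ∈ K, w a b + 2 * (q - 1) * ∑ v ∈ N \ K, y v := by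
  induction N using Finset.strongInduction with
  | H N ih =>
    by_cases h : ∀ v ∈ N, q ≤ (N.filter (fun b => R v b)).card
    · exact ⟨N, Subset.refl _, h, by simp⟩
    · push Not at h
      obtain ⟨v, hv, hdeg⟩ := h
      obtain ⟨K, hKN, hK1, hK2⟩ := ih (N.erase v) (erase_ssubset hv)
      refine ⟨K, hKN.trans (erase_subset _ _), hK1, ?_⟩
      have hvK : v ∉ K := fun hvK => by
        have := hKN hvK
        simp at this
      have hN : N = insert v (N.erase v) := (insert_erase hv).symm
      have hvv : w v v = 0 := hw0 v v (hirr v)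
      have h1 : ∑ a ∈ N, ∑ b ∈ N, w a b =
          ∑ a ∈ N.erase v, ∑ b ∈ N.erase v, w a b + 2 * ∑ b ∈ N.erase v, w v b := by
        have hin : ∀ f : V → ℝ, ∑ a ∈ N, f a = f v + ∑ a ∈ N.erase v, f a := by
          intro f
          exact (add_sum_erase N f hv).symm
        rw [hin, hin]
        simp only [hin (fun b => w _ b), sum_add_distrib, hvv]
        have : ∑ a ∈ N.erase v, w a v = ∑ b ∈ N.erase v, w v b :=
          sum_congr rfl fun a _ => hws a v
        rw [this]
        ring
      have h2 : ∑ b ∈ N.erase v, w v b ≤ (q - 1) * y v := by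
        have h3 : ∑ b ∈ N.erase v, w v b = ∑ b ∈ (N.erase v).filter (fun b => R v b), w v b := by
          rw [sum_filter]
          refine sum_congr rfl fun b _ => ?_
          split_ifs with hb
          · rfl
          · exact hw0 v b hb
        rw [h3]
        have h4 : ∑ b ∈ (N.erase v).filter (fun b => R v b), w v b ≤
            ∑ b ∈ (N.erase v).filter (fun b => R v b), y v :=
          sum_le_sum fun b hb => hwy v b (mem_filter.1 hb).2
        refine h4.trans ?_
        rw [sum_const, nsmul_eq_mul]
        refine mul_le_mul_of_nonneg_right ?_ (hy v)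
        have h5 : ((N.erase v).filter (fun b => R v b)).card ≤ (N.filter (fun b => R v b)).card :=
          card_le_card (filter_subset_filter _ (erase_subset _ _))
        have h6 : ((N.erase v).filter (fun b => R v b)).card + 1 ≤ q := by omega
        have h7 : (((N.erase v).filter (fun b => R v b)).card : ℝ) + 1 ≤ q := by exact_mod_cast h6
        linarith
      have h8 : ∑ a ∈ N \ K, y a = y v + ∑ a ∈ (N.erase v) \ K, y a := by
        have : N \ K = insert v ((N.erase v) \ K) := by
          ext a
          simp only [mem_sdiff, mem_insert, mem_erase]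
          constructor
          · rintro ⟨h1, h2⟩
            by_cases hav : a = v
            · left; exact hav
            · right; exact ⟨⟨hav, h1⟩, h2⟩
          · rintro (rfl | ⟨⟨h1, h2⟩, h3⟩)
            · exact ⟨hv, hvK⟩
            · exact ⟨h2, h3⟩
        rw [this, sum_insert]
        simp
      rw [h1, h8]
      have hq' : (1 : ℝ) ≤ q := by exact_mod_cast hq
      nlinarith

end Pool.Agent.Helper31.Fan
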