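import Mathlib
import Pool.Agent.Helper31.Fan.Defs

namespace Pool.Agent.Helper31.Fan

open Finset

section

variable {V : Type*} [Fintype V] [DecidableEq V]

/-- bilinear form of a matrix -/
noncomputable def bil (A : V → V → ℝ) (y z : V → ℝ) : ℝ := ∑ v, ∑ w, A v w * (y v * z w)

theorem bil_add (A : V → V → ℝ) (hA : ∀ v w, A v w = A w v) (y z : V → ℝ) (t : ℝ) :
    bil A (fun v => y v + t * z v) (fun v => y v + t * z v) =
      bil A y y + 2 * t * bil A z y + t ^ 2 * bil A z z := by
  have h1 : bil A y z = bil A z y := by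
    unfold bil
    rw [sum_comm]
    refine sum_congr rfl fun v _ => sum_congr rfl fun w _ => ?_
    rw [hA w v]; ring
  have : bil A (fun v => y v + t * z v) (fun v => y v + t * z v) =
      bil A y y + t * bil A z y + t * bil A y z + t ^ 2 * bil A z z := by
    unfold bil
    simp only [mul_sum, ← sum_add_distrib]
    refine sum_congr rfl fun v _ => sum_congr rfl fun w _ => ?_
    ring
  rw [this, h1]
  ring

theorem exists_max (A : V → V → ℝ) [Nonempty V] :
    ∃ x : V → ℝ, ∑ v, x v ^ 2 = 1 ∧
      ∀ y : V → ℝ, bil A y y ≤ bil A x x * ∑ v, y v ^ 2 := by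
  obtain ⟨v0⟩ := ‹Nonempty V›
  let K : Set (V → ℝ) := {y | ∑ v, y v ^ 2 = 1}
  have hKc : IsCompact K := by
    have hsub : K ⊆ Set.Icc (fun _ => (-1 : ℝ)) (fun _ => (1 : ℝ)) := by
      intro y hy
      have hy' : ∑ v, y v ^ 2 = 1 := hy
      have h1 : ∀ v, y v ^ 2 ≤ 1 := by
        intro v
        rw [← hy']
        exact single_le_sum (f := fun v => y v ^ 2) (fun i _ => sq_nonneg _) (mem_univ v)
      constructor
      · intro v
        have := abs_le.1 ((sq_le_one_iff_abs_le_one (y v)).1 (h1 v))
        exact this.1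
      · intro v
        have := abs_le.1 ((sq_le_one_iff_abs_le_one (y v)).1 (h1 v))
        exact this.2
    refine IsCompact.of_isClosed_subset isCompact_Icc ?_ hsub
    exact isClosed_eq (by fun_prop) continuous_const
  have hKn : K.Nonempty := by
    refine ⟨Pi.single v0 1, ?_⟩
    show ∑ v, (Pi.single v0 (1:ℝ) : V → ℝ) v ^ 2 = 1
    rw [sum_eq_single v0]
    · simp
    · intro b _ hb
      simp [Pi.single_eq_of_ne hb]
    · simp
  have hcont : Continuous (fun y : V → ℝ => bil A y y) := by
    unfold bil
    fun_prop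
  obtain ⟨x, hx, hmax⟩ := hKc.exists_isMaxOn hKn hcont.continuousOn
  refine ⟨x, hx, ?_⟩
  intro y
  by_cases hy : ∑ v, y v ^ 2 = 0
  · have hy0 : ∀ v, y v = 0 := by
      intro v
      have := (sum_eq_zero_iff_of_nonneg (fun i _ => sq_nonneg (y i))).1 hy v (mem_univ v)
      exact pow_eq_zero_iff (two_ne_zero) |>.1 this
    have : bil A y y = 0 := by
      unfold bil
      simp [hy0]
    rw [this, hy]
    simp
  · have hpos : 0 < ∑ v, y v ^ 2 :=
      lt_of_le_of_ne (sum_nonneg fun i _ => sq_nonneg _) (Ne.symm hy)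
    set s := ∑ v, y v ^ 2 with hs
    have hsq : 0 < Real.sqrt s := Real.sqrt_pos.2 hpos
    have hmem : (fun v => y v / Real.sqrt s) ∈ K := by
      show ∑ v, (y v / Real.sqrt s) ^ 2 = 1
      simp only [div_pow, Real.sq_sqrt hpos.le, ← sum_div]
      exact div_self hpos.ne'
    have h2 := isMaxOn_iff.1 hmax _ hmem
    have h3 : bil A (fun v => y v / Real.sqrt s) (fun v => y v / Real.sqrt s) = bil A y y / s := by
      unfold bil
      rw [sum_div]
      refine sum_congr rfl fun v _ => ?_
      rw [sum_div]
      refine sum_congr rfl fun w _ => ?_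
      have : y v / Real.sqrt s * (y w / Real.sqrt s) = y v * y w / (Real.sqrt s * Real.sqrt s) := by
        rw [div_mul_div_comm]
      rw [this, Real.mul_self_sqrt hpos.le]
      ring
    rw [h3, div_le_iff₀ hpos] at h2
    exact h2

/-- the maximizer of the Rayleigh quotient can be taken non-negative and is an eigenvector -/
theorem exists_max_eigen (A : V → V → ℝ) (hA : ∀ v w, A v w = A w v) (hA0 : ∀ v w, 0 ≤ A v w)
    [Nonempty V] :
    ∃ (x : V → ℝ) (M : ℝ), ∑ v, x v ^ 2 = 1 ∧ (∀ v, 0 ≤ x v) ∧
      (∀ v, ∑ w, A v w * x w = M * x v) ∧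
      ∀ y : V → ℝ, bil A y y ≤ M * ∑ v, y v ^ 2 := by
  obtain ⟨x, hx, hmax⟩ := exists_max A
  refine ⟨fun v => |x v|, bil A x x, by simpa using hx, fun v => abs_nonneg _, ?_, hmax⟩
  have hz : bil A (fun v => |x v|) (fun v => |x v|) = bil A x x := by
    apply le_antisymm
    · have := hmax (fun v => |x v|)
      simpa [hx] using this
    · unfold bil
      refine sum_le_sum fun v _ => sum_le_sum fun w _ => ?_
      refine mul_le_mul_of_nonneg_left ?_ (hA0 v w)
      rw [← abs_mul]
      exact le_abs_self _
  set z : V → ℝ := fun v => |x v| with hzdef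
  have hz1 : ∑ v, z v ^ 2 = 1 := by simpa [hzdef] using hx
  intro v
  -- perturb in direction v
  set e : V → ℝ := Pi.single v 1 with he
  have hev : ∀ w, w ≠ v → e w = 0 := fun w hw => by simp [he, Pi.single_eq_of_ne hw]
  have hevv : e v = 1 := by simp [he]
  have hb1 : bil A e z = ∑ w, A v w * z w := by
    unfold bil
    rw [sum_eq_single v]
    · simp [hevv]
    · intro b _ hb
      simp [hev b hb]
    · simp
  have hb2 : bil A e e = A v v := by
    unfold bil
    rw [sum_eq_single v]
    · rw [sum_eq_single v]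
      · simp [hevv]
      · intro b _ hb
        simp [hev b hb]
      · simp
    · intro b _ hb
      simp [hev b hb]
    · simp
  have hn : ∀ t : ℝ, ∑ w, (z w + t * e w) ^ 2 = 1 + 2 * t * z v + t ^ 2 := by
    intro t
    have h1 : ∀ w, (z w + t * e w) ^ 2 = z w ^ 2 + (2 * t * z w * e w + t ^ 2 * (e w) ^ 2) := by
      intro w; ring
    simp only [h1, sum_add_distrib, hz1]
    have h2 : ∑ w, 2 * t * z w * e w = 2 * t * z v := by
      rw [sum_eq_single v]
      · simp [hevv]
      · intro b _ hb
        simp [hev b hb]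
      · simp
    have h3 : ∑ w, t ^ 2 * (e w) ^ 2 = t ^ 2 := by
      rw [sum_eq_single v]
      · simp [hevv]
      · intro b _ hb
        simp [hev b hb]
      · simp
    rw [h2, h3]
    ring
  have key : ∀ t : ℝ, 2 * t * ((∑ w, A v w * z w) - bil A x x * z v) +
      t ^ 2 * (A v v - bil A x x) ≤ 0 := by
    intro t
    have h1 := hmax (fun w => z w + t * e w)
    rw [bil_add A hA z e t, hn t, hz, hb1, hb2] at h1
    nlinarith
  set D := (∑ w, A v w * z w) - bil A x x * z v with hD
  set E := A v v - bil A x x with hE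
  have hD0 : D = 0 := by
    by_contra hne
    have hD2 : 0 < D ^ 2 := by positivity
    -- choose t = D / (|E| + 1)
    have hE1 : 0 < |E| + 1 := by positivity
    have h1 := key (D / (|E| + 1))
    have h2 : 2 * (D / (|E| + 1)) * D + (D / (|E| + 1)) ^ 2 * E
        = D ^ 2 / (|E| + 1) ^ 2 * (2 * (|E| + 1) + E) := by
      field_simp
    rw [h2] at h1
    have h3 : 0 < 2 * (|E| + 1) + E := by
      have := neg_abs_le E
      have := abs_nonneg E
      linarith
    have h4 : 0 < D ^ 2 / (|E| + 1) ^ 2 * (2 * (|E| + 1) + E) := by positivity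
    linarith
  linarith

end

section graph

variable {V : Type*} [Fintype V]

open Classical in
/-- real adjacency indicator -/
noncomputable def adj (G : SimpleGraph V) (v w : V) : ℝ := if G.Adj v w then 1 else 0

theorem specRad_spec (G : SimpleGraph V) [Nonempty V] :
    (∃ x : V → ℝ, (∀ v, 0 ≤ x v) ∧ (∀ v, x v ≤ 1) ∧ (∃ u, x u = 1) ∧
      ∀ v, ∑ w, adj G v w * x w = specRad G * x v) ∧
    (∀ y : V → ℝ, ∑ v, ∑ w, adj G v w * (y v * y w) ≤ specRad G * ∑ v, y v ^ 2) := by
  classical
  obtain ⟨x, M, hx1, hx0, heig, hmax⟩ := exists_max_eigen (adj G)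
    (fun v w => by unfold adj; simp [G.adj_comm]) (fun v w => by unfold adj; split_ifs <;> norm_num)
  -- M is the greatest eigenvalue
  have hM : specRad G = M := by
    unfold specRad
    apply IsGreatest.csSup_eq
    have hspec : ∀ μ : ℝ, μ ∈ spectrum ℝ (G.adjMatrix ℝ) ↔
        ∃ y : V → ℝ, y ≠ 0 ∧ ∀ v, ∑ w, adj G v w * y w = μ * y v := by
      intro μ
      have h0 : (G.adjMatrix ℝ) = (G.adjMatrix ℝ) := rfl
      rw [← Matrix.spectrum_toLin', ← Module.End.hasEigenvalue_iff_mem_spectrum]
      constructor
      · intro h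
        obtain ⟨y, hy⟩ := h.exists_hasEigenvector
        refine ⟨y, hy.2, ?_⟩
        intro v
        have h1 := hy.apply_eq_smul
        have h2 := congrFun h1 v
        rw [Matrix.toLin'_apply, Matrix.mulVec, dotProduct] at h2
        simp only [SimpleGraph.adjMatrix_apply, Pi.smul_apply, smul_eq_mul] at h2
        rw [← h2]
        refine sum_congr rfl fun w _ => ?_
        unfold adj
        congr 1
      · rintro ⟨y, hy0, hy⟩
        apply Module.End.hasEigenvalue_of_hasEigenvector (x := y)
        rw [Module.End.hasEigenvector_iff]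
        refine ⟨?_, hy0⟩
        rw [Module.End.mem_eigenspace_iff]
        funext v
        rw [Matrix.toLin'_apply, Matrix.mulVec, dotProduct]
        simp only [SimpleGraph.adjMatrix_apply, Pi.smul_apply, smul_eq_mul]
        rw [← hy v]
        refine sum_congr rfl fun w _ => ?_
        unfold adj
        congr 1
    constructor
    · rw [hspec]
      refine ⟨x, ?_, heig⟩
      rintro rfl
      simp at hx1
    · intro μ hμ
      rw [hspec] at hμ
      obtain ⟨y, hy0, hy⟩ := hμ
      have h1 := hmax y
      have h2 : bil (adj G) y y = μ * ∑ v, y v ^ 2 := by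
        unfold bil
        rw [mul_sum]
        refine sum_congr rfl fun v _ => ?_
        have : ∑ w, adj G v w * (y v * y w) = y v * ∑ w, adj G v w * y w := by
          rw [mul_sum]
          refine sum_congr rfl fun w _ => ?_
          ring
        rw [this, hy v]
        ring
      rw [h2] at h1
      have hpos : 0 < ∑ v, y v ^ 2 := by
        obtain ⟨v, hv⟩ := Function.ne_iff.1 hy0
        refine sum_pos' (fun i _ => sq_nonneg _) ⟨v, mem_univ v, ?_⟩
        have : y v ≠ 0 := hv
        positivity
      exact le_of_mul_le_mul_right h1 hpos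
  rw [hM]
  refine ⟨?_, ?_⟩
  · obtain ⟨u, -, hu⟩ := exists_max_image univ x ⟨Classical.arbitrary V, mem_univ _⟩
    have hupos : 0 < x u := by
      by_contra hc
      push Not at hc
      have : ∀ v, x v = 0 := fun v => le_antisymm ((hu v (mem_univ v)).trans hc) (hx0 v)
      simp [this] at hx1
    refine ⟨fun v => x v / x u, fun v => div_nonneg (hx0 v) hupos.le, fun v => ?_, ⟨u, ?_⟩, ?_⟩
    · rw [div_le_one hupos]
      exact hu v (mem_univ v)
    · exact div_self hupos.ne'
    · intro v
      have : ∑ w, adj G v w * (x w / x u) = (∑ w, adj G v w * x w) / x u := by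
        rw [sum_div]
        refine sum_congr rfl fun w _ => ?_
        ring
      rw [this, heig v]
      ring
  · intro y
    exact hmax y

end graph

end Pool.Agent.Helper31.Fan
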