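import Mathlib

namespace Pool.Agent.Helper31.Fan

open Finset

variable {V : Type*} [DecidableEq V]

/-- there is no path (as a list of distinct, consecutively related elements) with exactly `n`
vertices inside `K` -/
def NoPath (R : V → V → Prop) (K : Finset V) (n : ℕ) : Prop :=
  ∀ l : List V, l.Nodup → l.IsChain R → (∀ v ∈ l, v ∈ K) → l.length ≠ n

theorem NoPath.lt {R : V → V → Prop} {K : Finset V} {n : ℕ} (h : NoPath R K n)
    {l : List V} (h1 : l.Nodup) (h2 : l.IsChain R) (h3 : ∀ v ∈ l, v ∈ K) : l.length < n := by
  by_contra hc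
  push_neg at hc
  refine h (l.take n) ?_ ?_ ?_ ?_
  · exact h1.sublist (List.take_sublist n l)
  · exact h2.take n
  · intro v hv
    exact h3 v (List.mem_of_mem_take hv)
  · rw [List.length_take]
    omega

theorem NoPath.mono {R S : V → V → Prop} {K L : Finset V} {n : ℕ} (h : NoPath R K n)
    (hS : ∀ a b, S a b → R a b) (hL : L ⊆ K) : NoPath S L n := by
  intro l h1 h2 h3
  exact h l h1 (h2.imp (fun a b hab => hS a b hab)) (fun v hv => hL (h3 v hv))

/-- a longest path in a nonempty set -/
theorem exists_longest {R : V → V → Prop} {K : Finset V} {n : ℕ} (h : NoPath R K n)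
    (hK : K.Nonempty) :
    ∃ l : List V, l ≠ [] ∧ l.Nodup ∧ l.IsChain R ∧ (∀ v ∈ l, v ∈ K) ∧ l.length < n ∧
      ∀ l' : List V, l'.Nodup → l'.IsChain R → (∀ v ∈ l', v ∈ K) → l'.length ≤ l.length := by
  classical
  obtain ⟨a, ha⟩ := hK
  let P : ℕ → Prop := fun m => ∃ l : List V, l.Nodup ∧ l.IsChain R ∧ (∀ v ∈ l, v ∈ K) ∧ l.length = m
  have hP1 : P 1 := ⟨[a], by simp, by simp, by simpa using ha, by simp⟩
  have hn : 1 ≤ n := by
    have := h.lt (l := [a]) (by simp) (by simp) (by simpa using ha)
    simp at this
    omega
  have hsp := Nat.findGreatest_spec (P := P) (n := n) hn hP1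
  obtain ⟨l, hl1, hl2, hl3, hl4⟩ := hsp
  have hge : 1 ≤ Nat.findGreatest P n := Nat.le_findGreatest hn hP1
  refine ⟨l, ?_, hl1, hl2, hl3, h.lt hl1 hl2 hl3, ?_⟩
  · intro h0
    rw [h0] at hl4
    simp at hl4
    omega
  · intro l' h1 h2 h3
    rw [hl4]
    exact Nat.le_findGreatest (h.lt h1 h2 h3).le ⟨l', h1, h2, h3, rfl⟩

/-- rotation of a closed chain -/
theorem rot {R : V → V → Prop} {s t : List V} {q : V} (h : (s ++ q :: t).IsChain R)
    (hc : ∀ x ∈ (s ++ q :: t).getLast?, ∀ y ∈ (s ++ q :: t).head?, R x y) :
    ((q :: t) ++ s).IsChain R := by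
  rw [List.isChain_append] at h ⊢
  refine ⟨h.2.1, h.1, ?_⟩
  intro x hx y hy
  apply hc x ?_ y ?_
  · rw [List.getLast?_append]
    simp only [Option.mem_def] at hx ⊢
    rw [hx]
    rfl
  · cases s with
    | nil => simp at hy
    | cons a s' => simpa using hy

/-- if all vertices of `K` have at least `q` neighbours in `K` then there is a path on `q+1`
vertices -/
theorem greedy {R : V → V → Prop} [DecidableRel R] (hirr : ∀ a, ¬ R a a)
    (hsymm : ∀ a b, R a b → R b a) {K : Finset V} {q : ℕ} (hK : K.Nonempty)
    (hdeg : ∀ a ∈ K, q ≤ (K.filter (fun b => R a b)).card) : ¬ NoPath R K (q + 1) := by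
  intro h
  obtain ⟨l, hne, hnd, hch, hmem, hlt, hmax⟩ := exists_longest h hK
  obtain ⟨a, t, rfl⟩ := List.exists_cons_of_ne_nil hne
  have hsub : K.filter (fun b => R a b) ⊆ t.toFinset := by
    intro b hb
    rw [mem_filter] at hb
    by_contra hb2
    have hbt : b ∉ t := by simpa using hb2
    have hba : b ≠ a := by
      intro e
      rw [e] at hb
      exact hirr a hb.2
    have := hmax (b :: a :: t) (by
        rw [List.nodup_cons]
        refine ⟨?_, hnd⟩
        simp [hba, hbt]) (by
        rw [List.isChain_cons_cons]
        exact ⟨hsymm _ _ hb.2, hch⟩) (by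
        intro v hv
        rcases List.mem_cons.1 hv with rfl | hv
        · exact hb.1
        · exact hmem v hv)
    simp at this
  have h1 := hdeg a (hmem a (by simp))
  have h2 := card_le_card hsub
  have h3 := List.toFinset_card_le t
  simp at hlt
  omega

/-- Dirac type lemma: minimum degree at least `k` and no path on `2k+1` vertices gives a closed
nonempty set with at most `2k` vertices -/
theorem dirac {R : V → V → Prop} [DecidableRel R] (hirr : ∀ a, ¬ R a a)
    (hsymm : ∀ a b, R a b → R b a) {K : Finset V} {k : ℕ} (hK : K.Nonempty)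
    (hk : 1 ≤ k)
    (hdeg : ∀ a ∈ K, k ≤ (K.filter (fun b => R a b)).card) (h : NoPath R K (2 * k + 1)) :
    ∃ Q : Finset V, Q ⊆ K ∧ Q.Nonempty ∧ Q.card ≤ 2 * k ∧
      ∀ a ∈ Q, ∀ b ∈ K, R a b → b ∈ Q := by
  obtain ⟨l, hne, hnd, hch, hmem, hlt, hmax⟩ := exists_longest h hK
  set n := l.length with hn
  have hnpos : 0 < n := List.length_pos_of_ne_nil hne
  set a := l[0]'hnpos with ha
  set z := l[n-1]'(by omega) with hz
  -- neighbours of the ends lie on the path
  have hA : ∀ b ∈ K, R a b → b ∈ l := by
    intro b hb hab
    by_contra hbl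
    have := hmax (b :: l) (List.nodup_cons.2 ⟨hbl, hnd⟩) (by
      rw [List.isChain_cons]
      refine ⟨?_, hch⟩
      intro y hy
      rw [List.head?_eq_getElem?] at hy
      rw [List.getElem?_eq_getElem hnpos] at hy
      simp only [Option.mem_def, Option.some.injEq] at hy
      rw [← hy]
      exact hsymm _ _ hab) (by
        intro v hv
        rcases List.mem_cons.1 hv with rfl | hv
        · exact hb
        · exact hmem v hv)
    simp at this
    omega
  have hZ : ∀ b ∈ K, R z b → b ∈ l := by
    intro b hb hab
    by_contra hbl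
    have := hmax (l ++ [b]) (by
      rw [List.nodup_append]
      refine ⟨hnd, by simp, ?_⟩
      intro x hx y hy
      simp at hy
      rw [hy]
      rintro rfl
      exact hbl hx) (by
      rw [List.isChain_append]
      refine ⟨hch, by simp, ?_⟩
      intro x hx y hy
      rw [List.getLast?_eq_getElem?] at hx
      rw [List.getElem?_eq_getElem (by omega)] at hx
      simp only [Option.mem_def, Option.some.injEq] at hx
      simp only [List.head?_cons, Option.mem_def, Option.some.injEq] at hy
      rw [← hx, ← hy]
      exact hab) (by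
        intro v hv
        rcases List.mem_append.1 hv with hv | hv
        · exact hmem v hv
        · simp at hv
          rw [hv]
          exact hb)
    simp at this
    omega
  have hget : ∀ b, b ∈ l → ∃ h : l.idxOf b < l.length, l[l.idxOf b] = b := by
    intro b hb
    exact ⟨List.idxOf_lt_length_iff.2 hb, List.getElem_idxOf _⟩
  -- the two index sets
  let I1 := (range (n - 1)).filter (fun i => ∃ h : i + 1 < l.length, R a (l[i+1]))
  let I2 := (range (n - 1)).filter (fun i => ∃ h : i < l.length, R (l[i]) z)
  have hI1 : k ≤ I1.card := by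
    refine le_trans (hdeg a (hmem a (List.getElem_mem _))) ?_
    refine card_le_card_of_injOn (fun b => l.idxOf b - 1) ?_ ?_
    · intro b hb
      rw [mem_coe, mem_filter] at hb
      obtain ⟨hb1, hb2⟩ := hb
      have hbl := hA b hb1 hb2
      obtain ⟨h1, h2⟩ := hget b hbl
      have h0 : l.idxOf b ≠ 0 := by
        intro h0
        have : b = a := by
          rw [← h2, ha]
          congr 1
        rw [this] at hb2
        exact hirr a hb2
      have h3 : l.idxOf b - 1 + 1 = l.idxOf b := by omega
      simp only [I1, mem_coe, mem_filter, mem_range]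
      refine ⟨by omega, by omega, ?_⟩
      simp only [h3, h2]
      exact hb2
    · intro b hb c hc hbc
      rw [mem_coe, mem_filter] at hb hc
      have hbl := hA b hb.1 hb.2
      have hcl := hA c hc.1 hc.2
      obtain ⟨h1, h2⟩ := hget b hbl
      obtain ⟨h3, h4⟩ := hget c hcl
      have h0 : l.idxOf b ≠ 0 := by
        intro h0
        have : b = a := by
          rw [← h2, ha]
          congr 1
        rw [this] at hb
        exact hirr a hb.2
      have h0' : l.idxOf c ≠ 0 := by
        intro h0
        have : c = a := by
          rw [← h4, ha]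
          congr 1
        rw [this] at hc
        exact hirr a hc.2
      simp only at hbc
      have : l.idxOf b = l.idxOf c := by omega
      rw [← h2, ← h4]
      congr 1
  have hI2 : k ≤ I2.card := by
    refine le_trans (hdeg z (hmem z (List.getElem_mem _))) ?_
    refine card_le_card_of_injOn (fun b => l.idxOf b) ?_ ?_
    · intro b hb
      rw [mem_coe, mem_filter] at hb
      obtain ⟨hb1, hb2⟩ := hb
      have hbl := hZ b hb1 hb2
      obtain ⟨h1, h2⟩ := hget b hbl
      have h0 : l.idxOf b ≠ n - 1 := by
        intro h0
        have : b = z := by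
          rw [← h2, hz]
          congr 1
        rw [this] at hb2
        exact hirr z hb2
      simp only [I2, mem_coe, mem_filter, mem_range]
      refine ⟨by omega, by omega, ?_⟩
      simp only [h2]
      exact hsymm _ _ hb2
    · intro b hb c hc hbc
      rw [mem_coe, mem_filter] at hb hc
      have hbl := hZ b hb.1 hb.2
      have hcl := hZ c hc.1 hc.2
      obtain ⟨h1, h2⟩ := hget b hbl
      obtain ⟨h3, h4⟩ := hget c hcl
      simp only at hbc
      rw [← h2, ← h4]
      congr 1
  have hinter : (I1 ∩ I2).Nonempty := by
    rw [← card_pos]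
    have h1 := card_union_add_card_inter I1 I2
    have h2 : (I1 ∪ I2).card ≤ n - 1 := by
      have : I1 ∪ I2 ⊆ range (n - 1) := union_subset (filter_subset _ _) (filter_subset _ _)
      simpa using card_le_card this
    omega
  obtain ⟨i, hi⟩ := hinter
  simp only [I1, I2, mem_inter, mem_filter, mem_range] at hi
  obtain ⟨⟨hi1, hi2, hi3⟩, -, hi4, hi5⟩ := hi
  -- the cycle
  let c := l.take (i+1) ++ (l.drop (i+1)).reverse
  have hlsplit : l.take (i+1) ++ l.drop (i+1) = l := List.take_append_drop _ _
  have hcperm : c.Perm l := by
    have : c.Perm (l.take (i+1) ++ l.drop (i+1)) := List.Perm.append_left _ (List.reverse_perm _)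
    rwa [hlsplit] at this
  have hcnd : c.Nodup := hcperm.nodup_iff.2 hnd
  have hcmem : ∀ v, v ∈ c ↔ v ∈ l := fun v => hcperm.mem_iff
  have hclen : c.length = n := hcperm.length_eq
  have hcchain : c.IsChain R := by
    simp only [c]
    rw [List.isChain_append]
    refine ⟨hch.take _, ?_, ?_⟩
    · rw [List.isChain_reverse]
      exact (hch.drop _).imp (fun x y hxy => hsymm _ _ hxy)
    · intro x hx y hy
      have hx' : x = l[i] := by
        rw [List.getLast?_eq_getElem?] at hx
        have : (List.take (i+1) l).length = i + 1 := by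
          rw [List.length_take]; omega
        rw [this] at hx
        simp only [Nat.add_sub_cancel] at hx
        rw [List.getElem?_take_of_lt (by omega)] at hx
        rw [List.getElem?_eq_getElem hi4] at hx
        simpa using hx.symm
      have hy' : y = z := by
        rw [List.head?_reverse, List.getLast?_drop] at hy
        rw [if_neg (by omega)] at hy
        rw [List.getLast?_eq_getElem?] at hy
        rw [List.getElem?_eq_getElem (by omega)] at hy
        simpa using hy.symm
      rw [hx', hy']
      exact hi5
  have hcclosed : ∀ x ∈ c.getLast?, ∀ y ∈ c.head?, R x y := by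
    intro x hx y hy
    have hx' : x = l[i+1] := by
      simp only [c] at hx
      rw [List.getLast?_append, List.getLast?_reverse, List.head?_drop] at hx
      rw [List.getElem?_eq_getElem hi2] at hx
      simpa using hx.symm
    have hy' : y = a := by
      simp only [c] at hy
      rw [List.head?_append, List.head?_take] at hy
      rw [if_neg (by omega)] at hy
      rw [List.head?_eq_getElem?] at hy
      rw [List.getElem?_eq_getElem (by omega)] at hy
      simpa using hy.symm
    rw [hx', hy']
    exact hsymm _ _ hi3
  refine ⟨l.toFinset, ?_, ?_, ?_, ?_⟩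
  · intro v hv
    exact hmem v (by simpa using hv)
  · exact ⟨a, by simp [ha]⟩
  · refine le_trans (List.toFinset_card_le l) ?_
    omega
  · intro q hq b hb hqb
    by_contra hbl
    have hbl' : b ∉ l := by simpa using hbl
    have hql : q ∈ c := (hcmem q).2 (by simpa using hq)
    obtain ⟨s, t, hst⟩ := List.append_of_mem hql
    rw [hst] at hcchain hcclosed
    have hrot := rot hcchain hcclosed
    have hperm : (s ++ q :: t).Perm ((q :: t) ++ s) := List.perm_append_comm
    have hperm2 : ((q :: t) ++ s).Perm l := by
      refine hperm.symm.trans ?_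
      rw [← hst]
      exact hcperm
    have := hmax (b :: ((q :: t) ++ s)) (by
      rw [List.nodup_cons]
      exact ⟨fun h => hbl' (hperm2.mem_iff.1 h), hperm2.nodup_iff.2 hnd⟩) (by
      rw [List.cons_append, List.isChain_cons_cons]
      exact ⟨hsymm _ _ hqb, hrot⟩) (by
      intro v hv
      rcases List.mem_cons.1 hv with rfl | hv
      · exact hb
      · exact hmem v (hperm2.mem_iff.1 hv))
    rw [List.length_cons, hperm2.length_eq] at this
    omega

/-- an alternating path in a complete bipartite graph -/
theorem zigzag {R : V → V → Prop} (hsymm : ∀ a b, R a b → R b a) :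
    ∀ (as bs : List V), bs.length = as.length + 1 → as.Nodup → bs.Nodup →
      (∀ a ∈ as, ∀ b ∈ bs, R a b) → (∀ a ∈ as, a ∉ bs) →
      ∃ l : List V, l.Nodup ∧ l.IsChain R ∧ l.length = 2 * as.length + 1 ∧
        l.head? = bs.head? ∧ ∀ v ∈ l, v ∈ as ∨ v ∈ bs := by
  intro as
  induction as with
  | nil =>
    intro bs hlen _ hbs _ _
    refine ⟨bs, hbs, ?_, by simpa using hlen, rfl, fun v hv => Or.inr hv⟩
    obtain ⟨b, rfl⟩ := List.length_eq_one_iff.1 (by simpa using hlen)
    simp
  | cons a as ih =>
    intro bs hlen has hbs hR hdisj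
    obtain ⟨b, bs, rfl⟩ : ∃ b bs', bs = b :: bs' := by
      cases bs with
      | nil => simp at hlen
      | cons b bs => exact ⟨b, bs, rfl⟩
    have hbs' := List.nodup_cons.1 hbs
    have has' := List.nodup_cons.1 has
    obtain ⟨l, hl1, hl2, hl3, hl4, hl5⟩ := ih bs (by simp at hlen ⊢; omega) has'.2 hbs'.2
      (fun x hx y hy => hR x (by simp [hx]) y (by simp [hy]))
      (fun x hx hxb => hdisj x (by simp [hx]) (by simp [hxb]))
    refine ⟨b :: a :: l, ?_, ?_, ?_, by simp, ?_⟩
    · rw [List.nodup_cons, List.nodup_cons]
      refine ⟨?_, ?_, hl1⟩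
      · intro hb
        rcases List.mem_cons.1 hb with hb | hb
        · exact hdisj a (by simp) (by simp [hb])
        · rcases hl5 b hb with h | h
          · exact hdisj b (by simp [h]) (by simp)
          · exact hbs'.1 h
      · intro ha
        rcases hl5 a ha with h | h
        · exact has'.1 h
        · exact hdisj a (by simp) (by simp [h])
    · rw [List.isChain_cons_cons, List.isChain_cons]
      refine ⟨hsymm _ _ (hR a (by simp) b (by simp)), ?_, hl2⟩
      intro y hy
      rw [hl4] at hy
      exact hR a (by simp) y (by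
        have := List.mem_of_mem_head? hy
        simp [this])
    · simp [hl3]; ring
    · intro v hv
      simp only [List.mem_cons] at hv
      rcases hv with h | h | h
      · right; simp [h]
      · left; simp [h]
      · rcases hl5 v h with h | h
        · left; simp [h]
        · right; simp [h]

end Pool.Agent.Helper31.Fan
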