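import Mathlib
import Pool.Agent.Helper31.Fan.Defs
import Pool.Agent.Helper31.Fan.Paths
import Pool.Agent.Helper31.Fan.Core
import Pool.Agent.Helper31.Fan.Eigen

namespace Pool.Agent.Helper31.Fan

open Finset Filter
open scoped Classical

universe u

/-- the running context -/
structure Ctx (k : ℕ) (lam : ℝ) where
  V : Type u
  fV : Fintype V
  G : SimpleGraph V
  x : V → ℝ
  u : V
  m : ℝ
  x0 : ∀ v, 0 ≤ x v
  x1 : ∀ v, x v ≤ 1
  xu : x u = 1
  eig : ∀ v, ∑ w, adj G v w * x w = lam * x v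
  two_m : ∑ v, ∑ w, adj G v w = 2 * m
  big : m - k ^ 2 ≤ lam ^ 2 - (k - 1) * lam
  nopath : ∀ v (K : Finset V), (∀ a ∈ K, G.Adj v a) → NoPath G.Adj K (2 * k + 1)

attribute [instance] Ctx.fV

namespace Ctx

variable {k : ℕ} {lam : ℝ} (s : Ctx.{u} k lam)

/-- adjacency indicator -/
noncomputable def A (v w : s.V) : ℝ := adj s.G v w

theorem A_symm (v w : s.V) : s.A v w = s.A w v := by
  unfold A adj; simp [s.G.adj_comm]

theorem A_nonneg (v w : s.V) : 0 ≤ s.A v w := by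
  unfold A adj; split_ifs <;> norm_num

theorem A_le_one (v w : s.V) : s.A v w ≤ 1 := by
  unfold A adj; split_ifs <;> norm_num

theorem A_self (v : s.V) : s.A v v = 0 := by
  unfold A adj; simp

theorem A_one {v w : s.V} (h : s.G.Adj v w) : s.A v w = 1 := by
  unfold A adj; simp [h]

theorem A_zero {v w : s.V} (h : ¬ s.G.Adj v w) : s.A v w = 0 := by
  unfold A adj; simp [h]

/-- number of neighbours of `v` in `Y` -/
noncomputable def dg (Y : Finset s.V) (v : s.V) : ℝ := ∑ b ∈ Y, s.A v b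

/-- weight of the neighbours of `v` in `Y` -/
noncomputable def nx (Y : Finset s.V) (v : s.V) : ℝ := ∑ b ∈ Y, s.A v b * s.x b

/-- weight of `Y` -/
noncomputable def xs (Y : Finset s.V) : ℝ := ∑ b ∈ Y, s.x b

theorem dg_eq_card (Y : Finset s.V) (v : s.V) :
    s.dg Y v = ((Y.filter (fun b => s.G.Adj v b)).card : ℝ) := by
  unfold dg A adj
  rw [sum_boole]

theorem dg_nonneg (Y : Finset s.V) (v : s.V) : 0 ≤ s.dg Y v :=
  sum_nonneg fun b _ => s.A_nonneg v b

theorem nx_nonneg (Y : Finset s.V) (v : s.V) : 0 ≤ s.nx Y v :=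
  sum_nonneg fun b _ => mul_nonneg (s.A_nonneg v b) (s.x0 b)

theorem xs_nonneg (Y : Finset s.V) : 0 ≤ s.xs Y := sum_nonneg fun b _ => s.x0 b

theorem nx_le_dg (Y : Finset s.V) (v : s.V) : s.nx Y v ≤ s.dg Y v := by
  unfold nx dg
  refine sum_le_sum fun b _ => ?_
  have := s.A_nonneg v b
  have := s.x1 b
  nlinarith

theorem nx_le_xs (Y : Finset s.V) (v : s.V) : s.nx Y v ≤ s.xs Y := by
  unfold nx xs
  refine sum_le_sum fun b _ => ?_
  have := s.A_le_one v b
  have := s.x0 b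
  nlinarith

theorem xs_le_card (Y : Finset s.V) : s.xs Y ≤ Y.card := by
  unfold xs
  calc ∑ b ∈ Y, s.x b ≤ ∑ b ∈ Y, (1 : ℝ) := sum_le_sum fun b _ => s.x1 b
    _ = Y.card := by simp

theorem dg_le_card (Y : Finset s.V) (v : s.V) : s.dg Y v ≤ Y.card := by
  unfold dg
  calc ∑ b ∈ Y, s.A v b ≤ ∑ b ∈ Y, (1 : ℝ) := sum_le_sum fun b _ => s.A_le_one v b
    _ = Y.card := by simp

theorem dg_mono {Y Z : Finset s.V} (h : Y ⊆ Z) (v : s.V) : s.dg Y v ≤ s.dg Z v :=
  sum_le_sum_of_subset_of_nonneg h fun b _ _ => s.A_nonneg v b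

theorem nx_mono {Y Z : Finset s.V} (h : Y ⊆ Z) (v : s.V) : s.nx Y v ≤ s.nx Z v :=
  sum_le_sum_of_subset_of_nonneg h fun b _ _ => mul_nonneg (s.A_nonneg v b) (s.x0 b)

theorem xs_mono {Y Z : Finset s.V} (h : Y ⊆ Z) : s.xs Y ≤ s.xs Z :=
  sum_le_sum_of_subset_of_nonneg h fun b _ _ => s.x0 b

/-- double counting of edges -/
theorem sum_dg_comm (Y Z : Finset s.V) : ∑ v ∈ Y, s.dg Z v = ∑ v ∈ Z, s.dg Y v := by
  unfold dg
  rw [sum_comm]
  exact sum_congr rfl fun b _ => sum_congr rfl fun c _ => s.A_symm c b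

theorem sum_nx_comm (Y Z : Finset s.V) : ∑ v ∈ Y, s.nx Z v = ∑ v ∈ Z, s.dg Y v * s.x v := by
  unfold nx dg
  rw [sum_comm]
  refine sum_congr rfl fun b _ => ?_
  rw [sum_mul]
  exact sum_congr rfl fun c _ => by rw [s.A_symm c b]

theorem sum_mul_nx_comm (f : s.V → ℝ) (Y Z : Finset s.V) :
    ∑ v ∈ Y, f v * s.nx Z v = ∑ w ∈ Z, s.x w * ∑ v ∈ Y, s.A w v * f v := by
  unfold nx
  simp only [mul_sum]
  rw [sum_comm]
  refine sum_congr rfl fun b _ => sum_congr rfl fun c _ => ?_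
  rw [s.A_symm c b]
  ring

theorem eig' (v : s.V) : s.nx univ v = lam * s.x v := s.eig v

theorem dg_filter_add (Y : Finset s.V) (p : s.V → Prop) (v : s.V) :
    s.dg (Y.filter p) v + s.dg (Y.filter (fun a => ¬ p a)) v = s.dg Y v :=
  sum_filter_add_sum_filter_not Y p _

theorem nx_filter_add (Y : Finset s.V) (p : s.V → Prop) (v : s.V) :
    s.nx (Y.filter p) v + s.nx (Y.filter (fun a => ¬ p a)) v = s.nx Y v :=
  sum_filter_add_sum_filter_not Y p _

theorem xs_filter_add (Y : Finset s.V) (p : s.V → Prop) :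
    s.xs (Y.filter p) + s.xs (Y.filter (fun a => ¬ p a)) = s.xs Y :=
  sum_filter_add_sum_filter_not Y p _

/-- neighbourhood of `u` -/
noncomputable def N : Finset s.V := univ.filter (fun a => s.G.Adj s.u a)

/-- non-neighbours of `u` -/
noncomputable def W : Finset s.V := univ.filter (fun a => ¬ s.G.Adj s.u a ∧ a ≠ s.u)

theorem mem_N {a : s.V} : a ∈ s.N ↔ s.G.Adj s.u a := by simp [N]

theorem mem_W {a : s.V} : a ∈ s.W ↔ ¬ s.G.Adj s.u a ∧ a ≠ s.u := by simp [W]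

theorem sum_split (f : s.V → ℝ) : ∑ v, f v = f s.u + ∑ v ∈ s.N, f v + ∑ v ∈ s.W, f v := by
  have h1 : (univ : Finset s.V) = insert s.u (s.N ∪ s.W) := by
    ext a
    simp only [mem_univ, mem_insert, mem_union, mem_N, mem_W, true_iff]
    by_cases h : a = s.u
    · left; exact h
    · right
      by_cases h2 : s.G.Adj s.u a
      · left; exact h2
      · right; exact ⟨h2, h⟩
  rw [h1, sum_insert, sum_union]
  · ring
  · rw [disjoint_left]
    intro a ha hb
    exact (s.mem_W.1 hb).1 (s.mem_N.1 ha)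
  · simp [mem_N, mem_W]

theorem nx_univ (v : s.V) : s.nx univ v = s.A v s.u + s.nx s.N v + s.nx s.W v := by
  unfold nx
  rw [s.sum_split, s.xu]
  ring

theorem dg_univ (v : s.V) : s.dg univ v = s.A v s.u + s.dg s.N v + s.dg s.W v := by
  unfold dg
  rw [s.sum_split]

theorem eig_N {a : s.V} (ha : a ∈ s.N) : lam * s.x a = 1 + s.nx s.N a + s.nx s.W a := by
  rw [← s.eig', s.nx_univ, s.A_one (s.mem_N.1 ha).symm]

theorem eig_W {a : s.V} (ha : a ∈ s.W) : lam * s.x a = s.nx s.N a + s.nx s.W a := by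
  rw [← s.eig', s.nx_univ, s.A_zero (fun h => (s.mem_W.1 ha).1 h.symm)]
  ring

theorem xs_N : s.xs s.N = lam := by
  have h1 : s.nx univ s.u = lam := by rw [s.eig', s.xu, mul_one]
  refine Eq.trans ?_ h1
  unfold nx
  rw [s.sum_split]
  rw [s.A_self]
  have h2 : ∑ v ∈ s.N, s.A s.u v * s.x v = s.xs s.N := by
    unfold xs
    refine sum_congr rfl fun v hv => ?_
    rw [s.A_one (s.mem_N.1 hv)]; ring
  have h3 : ∑ v ∈ s.W, s.A s.u v * s.x v = 0 := by
    apply sum_eq_zero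
    intro v hv
    rw [s.A_zero (s.mem_W.1 hv).1]; ring
  rw [h2, h3]; ring

/-- the loss term -/
noncomputable def S : ℝ :=
  ∑ w ∈ s.W, s.dg s.N w * (1 - s.x w) + (1 / 2) * ∑ w ∈ s.W, s.dg s.W w

/-- positive part of the edge weights in the neighbourhood of `u` -/
noncomputable def Tp : ℝ :=
  (1 / 2) * ∑ a ∈ s.N, ∑ b ∈ s.N, s.A a b * max (s.x a + s.x b - 1) 0

/-- negative part -/
noncomputable def Tm : ℝ :=
  (1 / 2) * ∑ a ∈ s.N, ∑ b ∈ s.N, s.A a b * max (1 - s.x a - s.x b) 0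

theorem S_first_nonneg : 0 ≤ ∑ w ∈ s.W, s.dg s.N w * (1 - s.x w) :=
  sum_nonneg fun w _ => mul_nonneg (s.dg_nonneg _ _) (by have := s.x1 w; linarith)

theorem S_second_nonneg : 0 ≤ ∑ w ∈ s.W, s.dg s.W w :=
  sum_nonneg fun w _ => s.dg_nonneg _ _

theorem S_nonneg : 0 ≤ s.S := by
  unfold S
  have := s.S_first_nonneg
  have := s.S_second_nonneg
  linarith

theorem Tm_nonneg : 0 ≤ s.Tm := by
  unfold Tm
  have : 0 ≤ ∑ a ∈ s.N, ∑ b ∈ s.N, s.A a b * max (1 - s.x a - s.x b) 0 :=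
    sum_nonneg fun a _ => sum_nonneg fun b _ => mul_nonneg (s.A_nonneg _ _) (le_max_right _ _)
  linarith

theorem Tp_nonneg : 0 ≤ s.Tp := by
  unfold Tp
  have : 0 ≤ ∑ a ∈ s.N, ∑ b ∈ s.N, s.A a b * max (s.x a + s.x b - 1) 0 :=
    sum_nonneg fun a _ => sum_nonneg fun b _ => mul_nonneg (s.A_nonneg _ _) (le_max_right _ _)
  linarith

theorem T_eq : s.Tp - s.Tm = ∑ a ∈ s.N, s.dg s.N a * s.x a - (1 / 2) * ∑ a ∈ s.N, s.dg s.N a := by
  have h1 : s.Tp - s.Tm = (1 / 2) * ∑ a ∈ s.N, ∑ b ∈ s.N, s.A a b * (s.x a + s.x b - 1) := by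
    unfold Tp Tm
    rw [← mul_sub, ← sum_sub_distrib]
    congr 1
    refine sum_congr rfl fun a _ => ?_
    rw [← sum_sub_distrib]
    refine sum_congr rfl fun b _ => ?_
    rw [← mul_sub]
    congr 1
    rcases le_total (s.x a + s.x b - 1) 0 with h | h
    · rw [max_eq_right h, max_eq_left (by linarith)]; ring
    · rw [max_eq_left h, max_eq_right (by linarith)]; ring
  rw [h1]
  have h2 : ∑ a ∈ s.N, ∑ b ∈ s.N, s.A a b * (s.x a + s.x b - 1) =
      ∑ a ∈ s.N, s.dg s.N a * s.x a + ∑ a ∈ s.N, s.nx s.N a - ∑ a ∈ s.N, s.dg s.N a := by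
    rw [← sum_add_distrib, ← sum_sub_distrib]
    refine sum_congr rfl fun a _ => ?_
    unfold dg nx
    rw [sum_mul, ← sum_add_distrib, ← sum_sub_distrib]
    refine sum_congr rfl fun b _ => ?_
    ring
  rw [h2, s.sum_nx_comm]
  ring

/-- the basic identity -/
theorem identity : lam ^ 2 - s.m = s.Tp - s.Tm - s.S := by
  have h1 : lam ^ 2 = (s.N.card : ℝ) + ∑ a ∈ s.N, s.nx s.N a + ∑ a ∈ s.N, s.nx s.W a := by
    calc lam ^ 2 = lam * s.xs s.N := by rw [s.xs_N]; ring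
      _ = ∑ a ∈ s.N, lam * s.x a := by unfold xs; rw [mul_sum]
      _ = ∑ a ∈ s.N, (1 + s.nx s.N a + s.nx s.W a) := sum_congr rfl fun a ha => s.eig_N ha
      _ = _ := by
        rw [sum_add_distrib, sum_add_distrib]
        simp
  have h2 : 2 * s.m = 2 * (s.N.card : ℝ) + ∑ a ∈ s.N, s.dg s.N a + 2 * ∑ a ∈ s.W, s.dg s.N a +
      ∑ a ∈ s.W, s.dg s.W a := by
    rw [← s.two_m]
    have : ∑ v, ∑ w, adj s.G v w = ∑ v, s.dg univ v := rfl
    rw [this, s.sum_split]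
    have e1 : s.dg univ s.u = s.N.card := by
      rw [s.dg_eq_card]
      rfl
    have e2 : ∑ v ∈ s.N, s.dg univ v = s.N.card + ∑ a ∈ s.N, s.dg s.N a +
        ∑ a ∈ s.N, s.dg s.W a := by
      have : ∀ v ∈ s.N, s.dg univ v = 1 + s.dg s.N v + s.dg s.W v := by
        intro v hv
        rw [s.dg_univ, s.A_one (s.mem_N.1 hv).symm]
      rw [sum_congr rfl this, sum_add_distrib, sum_add_distrib]
      simp
    have e3 : ∑ v ∈ s.W, s.dg univ v = ∑ a ∈ s.W, s.dg s.N a + ∑ a ∈ s.W, s.dg s.W a := by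
      rw [← sum_add_distrib]
      refine sum_congr rfl fun v hv => ?_
      rw [s.dg_univ, s.A_zero (fun h => (s.mem_W.1 hv).1 h.symm)]
      ring
    rw [e1, e2, e3, s.sum_dg_comm s.N s.W]
    ring
  rw [s.T_eq]
  unfold S
  have h3 : ∑ w ∈ s.W, s.dg s.N w * (1 - s.x w) =
      ∑ w ∈ s.W, s.dg s.N w - ∑ w ∈ s.W, s.dg s.N w * s.x w := by
    rw [← sum_sub_distrib]
    refine sum_congr rfl fun w _ => ?_
    ring
  rw [h3, h1, s.sum_nx_comm s.N s.N, s.sum_nx_comm s.N s.W]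
  linarith

/-- consequence of the assumption on `lam` -/
theorem main_ineq : s.S + s.Tm + (k - 1) * lam - k ^ 2 ≤ s.Tp := by
  have h1 := s.identity
  have h2 := s.big
  linarith

/-- no complete bipartite graph `K_{k,k+1}` in a neighbourhood -/
theorem f1 (v : s.V) (A B : Finset s.V) (hA : A.card = k) (hB : k + 1 ≤ B.card)
    (hvA : ∀ a ∈ A, s.G.Adj v a) (hvB : ∀ b ∈ B, s.G.Adj v b)
    (hAB : ∀ a ∈ A, ∀ b ∈ B, s.G.Adj a b) : False := by
  obtain ⟨B', hB', hB'c⟩ := exists_subset_card_eq hB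
  obtain ⟨l, hl1, hl2, hl3, -, hl5⟩ := zigzag (R := s.G.Adj) (fun a b h => h.symm)
    A.toList B'.toList (by simp [hA, hB'c]) (nodup_toList _) (nodup_toList _)
    (fun a ha b hb => hAB a (mem_toList.1 ha) b (hB' (mem_toList.1 hb)))
    (fun a ha hb => by
      have := hAB a (mem_toList.1 ha) a (hB' (mem_toList.1 hb))
      exact s.G.loopless.irrefl a this)
  refine s.nopath v (A ∪ B) ?_ l hl1 hl2 ?_ ?_
  · intro a ha
    rcases mem_union.1 ha with h | h
    · exact hvA a h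
    · exact hvB a h
  · intro w hw
    rcases hl5 w hw with h | h
    · exact mem_union_left _ (mem_toList.1 h)
    · exact mem_union_right _ (hB' (mem_toList.1 h))
  · rw [hl3]
    simp [hA]

end Ctx

end Pool.Agent.Helper31.Fan
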