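import Mathlib
import Pool.Agent.Helper31.Fan.Defs
import Pool.Agent.Helper31.Fan.Paths
import Pool.Agent.Helper31.Fan.Eigen

namespace Pool.Agent.Helper31.Fan

open Finset SimpleGraph

universe u

section join

variable {α β : Type*} (G : SimpleGraph α) (H : SimpleGraph β)

@[simp] theorem join_inl_inl (a b : α) : (join G H).Adj (Sum.inl a) (Sum.inl b) ↔ G.Adj a b := by
  simp [join, completeBipartiteGraph]

@[simp] theorem join_inr_inr (a b : β) : (join G H).Adj (Sum.inr a) (Sum.inr b) ↔ H.Adj a b := by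
  simp [join, completeBipartiteGraph]

@[simp] theorem join_inl_inr (a : α) (b : β) : (join G H).Adj (Sum.inl a) (Sum.inr b) := by
  simp [join, completeBipartiteGraph]

@[simp] theorem join_inr_inl (a : α) (b : β) : (join G H).Adj (Sum.inr b) (Sum.inl a) := by
  simp [join, completeBipartiteGraph]

end join

theorem nopath_of_free {V : Type*} (G : SimpleGraph V) (n : ℕ) (h : (fan n).Free G)
    (v : V) (K : Finset V) (hK : ∀ a ∈ K, G.Adj v a) : NoPath G.Adj K n := by
  intro l hnd hch hmem hlen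
  apply h
  subst hlen
  let f : Fin 1 ⊕ Fin l.length → V := Sum.elim (fun _ => v) (fun i => l[i])
  have hvl : ∀ i : Fin l.length, G.Adj v (l[i]) := fun i => hK _ (hmem _ (List.getElem_mem _))
  have hchain := List.isChain_iff_getElem.1 hch
  refine ⟨⟨⟨f, ?_⟩, ?_⟩⟩
  · intro a b hab
    rcases a with a | a <;> rcases b with b | b
    · simp [fan] at hab
      exact absurd (Subsingleton.elim a b) hab
    · exact hvl b
    · exact (hvl a).symm
    · simp only [fan, join_inr_inr, pathGraph_adj] at hab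
      simp only [f, Sum.elim_inr]
      rcases hab with hab | hab
      · have := hchain a.val (by rw [hab]; exact b.isLt)
        simp only [Fin.getElem_fin]
        simpa only [hab] using this
      · have := hchain b.val (by rw [hab]; exact a.isLt)
        simp only [Fin.getElem_fin]
        have h2 : G.Adj l[b.val] l[a.val] := by simpa only [hab] using this
        exact h2.symm
  · intro a b hab
    rcases a with a | a <;> rcases b with b | b
    · congr 1
      exact Subsingleton.elim a b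
    · exfalso
      simp only [RelHom.coeFn_mk, f, Sum.elim_inl, Sum.elim_inr] at hab
      have := hvl b
      rw [← hab] at this
      exact G.loopless.irrefl _ this
    · exfalso
      simp only [RelHom.coeFn_mk, f, Sum.elim_inl, Sum.elim_inr] at hab
      have := hvl a
      rw [hab] at this
      exact G.loopless.irrefl _ this
    · simp only [RelHom.coeFn_mk, f, Sum.elim_inr, Fin.getElem_fin] at hab
      have := (List.Nodup.getElem_inj_iff hnd).1 hab
      congr 1
      exact Fin.ext this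

open Classical in
/-- recognising the extremal graph -/
theorem iso_of_struct {V : Type*} [Fintype V] (G : SimpleGraph V) (k l n : ℕ)
    (P : Finset V) (r₀ : V) (hPc : P.card = k) (hP : ∀ a ∈ P, ∀ b ∈ P, a ≠ b → G.Adj a b)
    (hr₀ : r₀ ∉ P) (hd : (P.filter (fun a => G.Adj r₀ a)).card = l)
    (hR : ∀ r, r ∉ P → r ≠ r₀ → ∀ a ∈ P, G.Adj r a)
    (hRR : ∀ r, r ∉ P → ∀ r', r' ∉ P → ¬ G.Adj r r') (hn : Fintype.card V = n) :
    Nonempty (G ≃g extGraph n k l) := by
  set P1 := P.filter (fun a => G.Adj r₀ a) with hP1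
  set P2 := P.filter (fun a => ¬ G.Adj r₀ a) with hP2
  set Q := (univ \ P).erase r₀ with hQ
  have hP2c : P2.card = k - l := by
    have : P1.card + P2.card = P.card :=
      card_filter_add_card_filter_not (s := P) (fun a => G.Adj r₀ a)
    omega
  have hQc : Q.card = n - k - 1 := by
    rw [hQ, card_erase_of_mem (Finset.mem_sdiff.2 ⟨mem_univ _, hr₀⟩), card_sdiff_of_subset (subset_univ _),
      card_univ, hn, hPc]
  let e1 : Fin l ≃ P1 := (P1.equivFinOfCardEq hd).symm
  let e2 : Fin (k - l) ≃ P2 := (P2.equivFinOfCardEq hP2c).symm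
  let e3 : Fin (n - k - 1) ≃ Q := (Q.equivFinOfCardEq hQc).symm
  let f : Fin l ⊕ ((Fin (k - l) ⊕ Fin (n - k - 1)) ⊕ Fin 1) → V :=
    Sum.elim (fun i => (e1 i : V))
      (Sum.elim (Sum.elim (fun i => (e2 i : V)) (fun i => (e3 i : V))) (fun _ => r₀))
  have m1 : ∀ i, (e1 i : V) ∈ P ∧ G.Adj r₀ (e1 i) := fun i => mem_filter.1 (e1 i).2
  have m2 : ∀ i, (e2 i : V) ∈ P ∧ ¬ G.Adj r₀ (e2 i) := fun i => mem_filter.1 (e2 i).2
  have m3 : ∀ i, (e3 i : V) ≠ r₀ ∧ (e3 i : V) ∉ P := fun i => by
    have := mem_erase.1 (e3 i).2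
    exact ⟨this.1, (Finset.mem_sdiff.1 this.2).2⟩
  have hinj : Function.Injective f := by
    intro a b hab
    rcases a with a | (a | a) | a <;> rcases b with b | (b | b) | b <;>
      simp only [f, Sum.elim_inl, Sum.elim_inr] at hab
    · rw [e1.injective (Subtype.ext hab)]
    · exact absurd (by rw [← hab]; exact (m1 a).2) (m2 b).2
    · exact absurd (by rw [← hab]; exact (m1 a).1) (m3 b).2
    · exact absurd (by rw [← hab]; exact (m1 a).1) hr₀
    · exact absurd (by rw [hab]; exact (m1 b).2) (m2 a).2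
    · rw [e2.injective (Subtype.ext hab)]
    · exact absurd (by rw [← hab]; exact (m2 a).1) (m3 b).2
    · exact absurd (by rw [← hab]; exact (m2 a).1) hr₀
    · exact absurd (by rw [hab]; exact (m1 b).1) (m3 a).2
    · exact absurd (by rw [hab]; exact (m2 b).1) (m3 a).2
    · rw [e3.injective (Subtype.ext hab)]
    · exact absurd hab (m3 a).1
    · exact absurd (by rw [hab]; exact (m1 b).1) hr₀
    · exact absurd (by rw [hab]; exact (m2 b).1) hr₀
    · exact absurd hab.symm (m3 b).1
    · rw [Subsingleton.elim a b]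
  have hsurj : Function.Surjective f := by
    intro v
    by_cases hv : v ∈ P
    · by_cases h2 : G.Adj r₀ v
      · obtain ⟨i, hi⟩ := e1.surjective ⟨v, mem_filter.2 ⟨hv, h2⟩⟩
        exact ⟨Sum.inl i, by simp [f, hi]⟩
      · obtain ⟨i, hi⟩ := e2.surjective ⟨v, mem_filter.2 ⟨hv, h2⟩⟩
        exact ⟨Sum.inr (Sum.inl (Sum.inl i)), by simp [f, hi]⟩
    · by_cases h2 : v = r₀
      · exact ⟨Sum.inr (Sum.inr 0), by simp [f, h2]⟩
      · obtain ⟨i, hi⟩ := e3.surjective ⟨v, mem_erase.2 ⟨h2, Finset.mem_sdiff.2 ⟨mem_univ _, hv⟩⟩⟩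
        exact ⟨Sum.inr (Sum.inl (Sum.inr i)), by simp [f, hi]⟩
  refine ⟨(SimpleGraph.Iso.symm ⟨Equiv.ofBijective f ⟨hinj, hsurj⟩, ?_⟩)⟩
  intro a b
  simp only [Equiv.ofBijective_apply]
  rcases a with a | (a | a) | a <;> rcases b with b | (b | b) | b
  · -- l l
    simp only [f, Sum.elim_inl, extGraph, join_inl_inl, top_adj]
    constructor
    · rintro h rfl
      exact G.loopless.irrefl _ h
    · intro h
      exact hP _ (m1 a).1 _ (m1 b).1 (fun h' => h (e1.injective (Subtype.ext h')))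
  · simp only [f, Sum.elim_inl, Sum.elim_inr, extGraph, join_inl_inr, iff_true]
    refine hP _ (m1 a).1 _ (m2 b).1 (fun h' => (m2 b).2 ?_)
    rw [← h']; exact (m1 a).2
  · simp only [f, Sum.elim_inl, Sum.elim_inr, extGraph, join_inl_inr, iff_true]
    exact (hR _ (m3 b).2 (m3 b).1 _ (m1 a).1).symm
  · simp only [f, Sum.elim_inl, Sum.elim_inr, extGraph, join_inl_inr, iff_true]
    exact (m1 a).2.symm
  · simp only [f, Sum.elim_inl, Sum.elim_inr, extGraph, join_inr_inl, iff_true]
    refine (hP _ (m1 b).1 _ (m2 a).1 (fun h' => (m2 a).2 ?_)).symm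
    rw [← h']; exact (m1 b).2
  · simp only [f, Sum.elim_inl, Sum.elim_inr, extGraph, join_inr_inr, sum_adj_inl, join_inl_inl,
      top_adj]
    constructor
    · rintro h rfl
      exact G.loopless.irrefl _ h
    · intro h
      exact hP _ (m2 a).1 _ (m2 b).1 (fun h' => h (e2.injective (Subtype.ext h')))
  · simp only [f, Sum.elim_inl, Sum.elim_inr, extGraph, join_inr_inr, sum_adj_inl, join_inl_inr,
      iff_true]
    exact (hR _ (m3 b).2 (m3 b).1 _ (m2 a).1).symm
  · simp only [f, Sum.elim_inl, Sum.elim_inr, extGraph, join_inr_inr]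
    constructor
    · intro h
      exact absurd h.symm (m2 a).2
    · intro h
      simp at h
  · simp only [f, Sum.elim_inl, Sum.elim_inr, extGraph, join_inr_inl, iff_true]
    exact (hR _ (m3 a).2 (m3 a).1 _ (m1 b).1)
  · simp only [f, Sum.elim_inl, Sum.elim_inr, extGraph, join_inr_inr, sum_adj_inl, join_inr_inl,
      iff_true]
    exact (hR _ (m3 a).2 (m3 a).1 _ (m2 b).1)
  · simp only [f, Sum.elim_inl, Sum.elim_inr, extGraph, join_inr_inr, sum_adj_inl, bot_adj,
      iff_false]
    exact hRR _ (m3 a).2 _ (m3 b).2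
  · simp only [f, Sum.elim_inl, Sum.elim_inr, extGraph, join_inr_inr]
    constructor
    · intro h
      exact absurd h (hRR _ (m3 a).2 _ hr₀)
    · intro h
      simp at h
  · simp only [f, Sum.elim_inl, Sum.elim_inr, extGraph, join_inr_inl, iff_true]
    exact (m1 b).2
  · simp only [f, Sum.elim_inl, Sum.elim_inr, extGraph, join_inr_inr]
    constructor
    · intro h
      exact absurd h (m2 b).2
    · intro h
      simp at h
  · simp only [f, Sum.elim_inl, Sum.elim_inr, extGraph, join_inr_inr]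
    constructor
    · intro h
      exact absurd h (hRR _ hr₀ _ (m3 b).2)
    · intro h
      simp at h
  · simp only [f, Sum.elim_inr, extGraph, join_inr_inr, sum_adj_inr, bot_adj, iff_false]
    exact G.loopless.irrefl _

theorem sum_ne_one {n : ℕ} (i : Fin n) : ∑ j : Fin n, (if i = j then (0 : ℝ) else 1) = n - 1 := by
  have h : ∀ j : Fin n, (if i = j then (0 : ℝ) else 1) = 1 - (if i = j then (1 : ℝ) else 0) := by
    intro j
    by_cases hij : i = j <;> simp [hij]
  simp only [h, sum_sub_distrib]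
  simp

theorem adj_pos {V : Type*} [Fintype V] {G : SimpleGraph V} {v w : V} (h : G.Adj v w) :
    adj G v w = 1 := by
  unfold adj; simp [h]

theorem adj_neg {V : Type*} [Fintype V] {G : SimpleGraph V} {v w : V} (h : ¬ G.Adj v w) :
    adj G v w = 0 := by
  unfold adj; simp [h]

section ext

variable (n k l : ℕ)

theorem a_11 (i j : Fin l) : adj (extGraph n k l) (Sum.inl i) (Sum.inl j) =
    if i = j then 0 else 1 := by
  by_cases h : i = j
  · rw [if_pos h, adj_neg (by simp [extGraph, h])]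
  · rw [if_neg h, adj_pos (by simp [extGraph, h])]

theorem a_1x (i : Fin l) (w) : adj (extGraph n k l) (Sum.inl i) (Sum.inr w) = 1 :=
  adj_pos (by simp [extGraph])

theorem a_x1 (i : Fin l) (w) : adj (extGraph n k l) (Sum.inr w) (Sum.inl i) = 1 :=
  adj_pos (by simp [extGraph])

theorem a_22 (i j : Fin (k - l)) :
    adj (extGraph n k l) (Sum.inr (Sum.inl (Sum.inl i))) (Sum.inr (Sum.inl (Sum.inl j))) =
    if i = j then 0 else 1 := by
  by_cases h : i = j
  · rw [if_pos h, adj_neg (by simp [extGraph, h])]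
  · rw [if_neg h, adj_pos (by simp [extGraph, h])]

theorem a_23 (i : Fin (k - l)) (j : Fin (n - k - 1)) :
    adj (extGraph n k l) (Sum.inr (Sum.inl (Sum.inl i))) (Sum.inr (Sum.inl (Sum.inr j))) = 1 :=
  adj_pos (by simp [extGraph])

theorem a_32 (i : Fin (k - l)) (j : Fin (n - k - 1)) :
    adj (extGraph n k l) (Sum.inr (Sum.inl (Sum.inr j))) (Sum.inr (Sum.inl (Sum.inl i))) = 1 :=
  adj_pos (by simp [extGraph])

theorem a_33 (i j : Fin (n - k - 1)) :
    adj (extGraph n k l) (Sum.inr (Sum.inl (Sum.inr i))) (Sum.inr (Sum.inl (Sum.inr j))) = 0 :=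
  adj_neg (by simp [extGraph])

theorem a_x4 (w) (i : Fin 1) :
    adj (extGraph n k l) (Sum.inr (Sum.inl w)) (Sum.inr (Sum.inr i)) = 0 :=
  adj_neg (by simp [extGraph])

theorem a_4x (w) (i : Fin 1) :
    adj (extGraph n k l) (Sum.inr (Sum.inr i)) (Sum.inr (Sum.inl w)) = 0 :=
  adj_neg (by simp [extGraph])

theorem a_44 (i j : Fin 1) :
    adj (extGraph n k l) (Sum.inr (Sum.inr i)) (Sum.inr (Sum.inr j)) = 0 :=
  adj_neg (by simp [extGraph])

end ext

/-- Rayleigh bound for the extremal graph -/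
theorem specRad_ext_ge (n k l : ℕ) (hk : 2 ≤ k) (hl1 : 1 ≤ l) (hl2 : l ≤ k - 1) (μ : ℝ)
    (hμ : 0 < μ)
    (hμ2 : μ ^ 2 - (k - 1) * μ = (((n - k - 1 : ℕ) : ℝ) * k ^ 2 + l ^ 2) / k) :
    μ ≤ specRad (extGraph n k l) := by
  have hk' : (2 : ℝ) ≤ k := by exact_mod_cast hk
  have hkl : ((k - l : ℕ) : ℝ) = k - l := by
    rw [Nat.cast_sub (by omega)]
  have : Nonempty (Fin l ⊕ ((Fin (k - l) ⊕ Fin (n - k - 1)) ⊕ Fin 1)) := ⟨Sum.inr (Sum.inr 0)⟩
  let y : Fin l ⊕ ((Fin (k - l) ⊕ Fin (n - k - 1)) ⊕ Fin 1) → ℝ :=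
    Sum.elim (fun _ => 1) (Sum.elim (Sum.elim (fun _ => 1) (fun _ => k / μ)) (fun _ => l / μ))
  have hR := (specRad_spec (extGraph n k l)).2 y
  set q : ℝ := ((n - k - 1 : ℕ) : ℝ) with hq
  have hq0 : 0 ≤ q := by rw [hq]; positivity
  have hsum : ∑ v, ∑ w, adj (extGraph n k l) v w * (y v * y w) =
      (l : ℝ) * (k - 1 + q * (k / μ) + l / μ) +
      ((k - l) * (k - 1 + q * (k / μ)) + q * (k / μ * k) + l / μ * l) := by
    have hadj : ∀ v w, adj (extGraph n k l) v w * (y v * y w) =
        y v * (adj (extGraph n k l) v w * y w) := fun v w => by ring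
    simp only [hadj, ← mul_sum]
    have r1 : ∀ i : Fin l, ∑ w, adj (extGraph n k l) (Sum.inl i) w * y w =
        (k - 1) + q * (k / μ) + l / μ := by
      intro i
      simp only [Fintype.sum_sum_type, a_11, a_1x, y, Sum.elim_inl, Sum.elim_inr, mul_one, one_mul,
        sum_ne_one, sum_const, card_univ, Fintype.card_fin, nsmul_eq_mul, hkl, Nat.cast_one]
      ring
    have r2 : ∀ i : Fin (k - l),
        ∑ w, adj (extGraph n k l) (Sum.inr (Sum.inl (Sum.inl i))) w * y w =
        (k - 1) + q * (k / μ) := by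
      intro i
      simp only [Fintype.sum_sum_type, a_x1, a_22, a_23, a_x4, y, Sum.elim_inl, Sum.elim_inr,
        mul_one, one_mul, zero_mul,
        sum_ne_one, sum_const, card_univ, Fintype.card_fin, nsmul_eq_mul, hkl, Nat.cast_one]
      ring
    have r3 : ∀ i : Fin (n - k - 1),
        ∑ w, adj (extGraph n k l) (Sum.inr (Sum.inl (Sum.inr i))) w * y w = k := by
      intro i
      simp only [Fintype.sum_sum_type, a_x1, a_32, a_33, a_x4, y, Sum.elim_inl, Sum.elim_inr,
        mul_one, one_mul, zero_mul,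
        sum_ne_one, sum_const, card_univ, Fintype.card_fin, nsmul_eq_mul, hkl, Nat.cast_one]
      simp
    have r4 : ∀ i : Fin 1, ∑ w, adj (extGraph n k l) (Sum.inr (Sum.inr i)) w * y w = l := by
      intro i
      simp only [Fintype.sum_sum_type, a_x1, a_4x, a_44, y, Sum.elim_inl, Sum.elim_inr,
        mul_one, one_mul, zero_mul,
        sum_ne_one, sum_const, card_univ, Fintype.card_fin, nsmul_eq_mul, hkl, Nat.cast_one]
      simp
    rw [Fintype.sum_sum_type, Fintype.sum_sum_type, Fintype.sum_sum_type]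
    simp only [r1, r2, r3, r4]
    simp only [y, Sum.elim_inl, Sum.elim_inr, one_mul, sum_const, card_univ, Fintype.card_fin,
      nsmul_eq_mul, Nat.cast_one, hkl]
    rw [← hq]
  have hsq : ∑ v, y v ^ 2 = (l : ℝ) + (k - l + q * (k / μ) ^ 2 + (l / μ) ^ 2) := by
    rw [Fintype.sum_sum_type, Fintype.sum_sum_type, Fintype.sum_sum_type]
    simp only [y, Sum.elim_inl, Sum.elim_inr, one_mul, sum_const, card_univ, Fintype.card_fin,
      nsmul_eq_mul, Nat.cast_one, hkl, one_pow, mul_one]
    rw [← hq]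
  rw [hsum, hsq] at hR
  have hpos : 0 < (l : ℝ) + (k - l + q * (k / μ) ^ 2 + (l / μ) ^ 2) := by
    have : 0 ≤ (q : ℝ) * (k / μ) ^ 2 + (l / μ) ^ 2 := by positivity
    linarith
  have hkey : (l : ℝ) * (k - 1 + q * (k / μ) + l / μ) +
      ((k - l) * (k - 1 + q * (k / μ)) + q * (k / μ * k) + l / μ * l) =
      μ * ((l : ℝ) + (k - l + q * (k / μ) ^ 2 + (l / μ) ^ 2)) := by
    have e1 : (q : ℝ) * k ^ 2 + l ^ 2 = k * (μ ^ 2 - (k - 1) * μ) := by
      rw [hμ2]
      field_simp
    have e2 : (l : ℝ) * (k - 1 + q * (k / μ) + l / μ) +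
      ((k - l) * (k - 1 + q * (k / μ)) + q * (k / μ * k) + l / μ * l) =
        k * (k - 1) + 2 * (q * k ^ 2 + l ^ 2) / μ := by
      field_simp
      ring
    have e3 : μ * ((l : ℝ) + (k - l + q * (k / μ) ^ 2 + (l / μ) ^ 2)) =
        k * μ + (q * k ^ 2 + l ^ 2) / μ := by
      field_simp
      ring
    rw [e2, e3, e1]
    field_simp
    ring
  rw [hkey] at hR
  exact le_of_mul_le_mul_right hR hpos

end Pool.Agent.Helper31.Fan
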