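import Mathlib
import Pool.Agent.Helper31.Fan.Ctx

namespace Pool.Agent.Helper31.Fan

open Finset Filter
open scoped Classical

universe u

namespace Ctx

variable {k : ℕ} {lam : ℝ} (s : Ctx.{u} k lam)

/-- positive edge weight -/
noncomputable def wt (a b : s.V) : ℝ := s.A a b * max (s.x a + s.x b - 1) 0

theorem wt_symm (a b : s.V) : s.wt a b = s.wt b a := by
  unfold wt; rw [s.A_symm, add_comm (s.x a)]

theorem wt_nonneg (a b : s.V) : 0 ≤ s.wt a b := mul_nonneg (s.A_nonneg _ _) (le_max_right _ _)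

theorem wt_zero {a b : s.V} (h : ¬ s.G.Adj a b) : s.wt a b = 0 := by
  unfold wt; rw [s.A_zero h]; ring

theorem wt_le_max (a b : s.V) : s.wt a b ≤ max (s.x a + s.x b - 1) 0 := by
  unfold wt
  have h1 := s.A_le_one a b
  have h2 := le_max_right (s.x a + s.x b - 1) 0
  nlinarith

theorem wt_le_left (a b : s.V) : s.wt a b ≤ s.x a :=
  (s.wt_le_max a b).trans (max_le (by have := s.x1 b; linarith) (s.x0 a))

theorem wt_le_right (a b : s.V) : s.wt a b ≤ s.x b := by
  rw [s.wt_symm]; exact s.wt_le_left b a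

theorem wt_le_one (a b : s.V) : s.wt a b ≤ 1 := (s.wt_le_left a b).trans (s.x1 a)

theorem wt_le_half {a b : s.V} (h : s.x b < 1 / 2) : s.wt a b ≤ 1 / 2 :=
  (s.wt_le_max a b).trans (max_le (by have := s.x1 a; linarith) (by norm_num))

theorem wt_zero_of_small {a b : s.V} (ha : s.x a < 1 / 2) (hb : s.x b < 1 / 2) :
    s.wt a b = 0 := by
  unfold wt
  rw [max_eq_right (by linarith)]
  ring

theorem Tp_eq : s.Tp = (1 / 2) * ∑ a ∈ s.N, ∑ b ∈ s.N, s.wt a b := rfl

theorem nopathN {K : Finset s.V} (h : K ⊆ s.N) : NoPath s.G.Adj K (2 * k + 1) :=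
  s.nopath s.u K fun _ ha => s.mem_N.1 (h ha)

theorem irr (a : s.V) : ¬ s.G.Adj a a := s.G.loopless.irrefl a

theorem Tp_le_crude (hk : 1 ≤ k) : s.Tp ≤ (2 * k - 1) * lam := by
  obtain ⟨K, hKN, hK1, hK2⟩ := core s.G.Adj s.wt s.x (2 * k) (by omega) s.wt_symm
    (fun a b h => s.wt_zero h) s.irr (fun a b _ => s.wt_le_left a b) s.x0 s.N
  have hK0 : K = ∅ := by
    by_contra hne
    have hne' : K.Nonempty := nonempty_iff_ne_empty.2 hne
    exact greedy s.irr (fun a b h => h.symm) hne' hK1 (s.nopathN hKN)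
  subst hK0
  simp only [sum_empty, zero_add, sdiff_empty] at hK2
  have h1 : ∑ v ∈ s.N, s.x v = lam := s.xs_N
  rw [h1] at hK2
  rw [s.Tp_eq]
  push_cast at hK2
  linarith

theorem S_Tm_crude (hk : 1 ≤ k) (hlam : (k : ℝ) ≤ lam) : s.S + s.Tm ≤ 2 * k * lam := by
  have h1 := s.main_ineq
  have h2 := s.Tp_le_crude hk
  have h3 : (0 : ℝ) ≤ k := by positivity
  nlinarith

/-- vertices of `N` with at least `k` neighbours in a given subset of `N` -/
theorem comm_bound {A₀ : Finset s.V} (hA₀ : A₀ ⊆ s.N) :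
    (s.N.filter (fun b => (k : ℝ) ≤ s.dg A₀ b)).card ≤ A₀.card.choose k * k := by
  have hsub : s.N.filter (fun b => (k : ℝ) ≤ s.dg A₀ b) ⊆
      (A₀.powersetCard k).biUnion (fun A => s.N.filter (fun b => ∀ a ∈ A, s.G.Adj a b)) := by
    intro b hb
    rw [mem_filter] at hb
    obtain ⟨hb1, hb2⟩ := hb
    rw [s.dg_eq_card] at hb2
    have hb3 : k ≤ (A₀.filter (fun a => s.G.Adj b a)).card := by exact_mod_cast hb2
    obtain ⟨A, hA1, hA2⟩ := exists_subset_card_eq hb3
    rw [mem_biUnion]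
    refine ⟨A, ?_, ?_⟩
    · rw [mem_powersetCard]
      exact ⟨hA1.trans (filter_subset _ _), hA2⟩
    · rw [mem_filter]
      exact ⟨hb1, fun a ha => ((mem_filter.1 (hA1 ha)).2).symm⟩
  refine (card_le_card hsub).trans ?_
  refine (card_biUnion_le_card_mul _ _ k ?_).trans (by rw [card_powersetCard])
  intro A hA
  rw [mem_powersetCard] at hA
  by_contra hc
  push Not at hc
  refine s.f1 s.u A (s.N.filter (fun b => ∀ a ∈ A, s.G.Adj a b)) hA.2 hc ?_ ?_ ?_
  · intro a ha
    exact s.mem_N.1 (hA₀ (hA.1 ha))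
  · intro b hb
    exact s.mem_N.1 (mem_filter.1 hb).1
  · intro a ha b hb
    exact (mem_filter.1 hb).2 a ha

/-- the dense vertices of the neighbourhood -/
noncomputable def L : Finset s.V := s.N.filter (fun a => lam / 16 ≤ s.nx s.N a)

end Ctx

theorem L_bound (k : ℕ) (hk : 1 ≤ k) :
    ∀ᶠ lam : ℝ in atTop, ∀ s : Ctx.{u} k lam, s.L.card < 16 * k := by
  set C : ℝ := (((16 * k).choose k * k : ℕ) : ℝ) with hC
  filter_upwards [eventually_gt_atTop 0, eventually_gt_atTop (16 * k * C)] with lam h0 h1 s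
  by_contra hc
  push Not at hc
  obtain ⟨A₀, hA₀L, hA₀c⟩ := exists_subset_card_eq hc
  have hA₀N : A₀ ⊆ s.N := hA₀L.trans (filter_subset _ _)
  have hcb := s.comm_bound hA₀N
  rw [hA₀c] at hcb
  set M := s.N.filter (fun b => (k : ℝ) ≤ s.dg A₀ b) with hM
  have hcbR : (M.card : ℝ) ≤ C := by rw [hC]; exact_mod_cast hcb
  have hk' : (1 : ℝ) ≤ k := by exact_mod_cast hk
  -- lower bound
  have h2 : (k : ℝ) * lam ≤ ∑ a ∈ A₀, s.nx s.N a := by
    have : ∑ a ∈ A₀, lam / 16 ≤ ∑ a ∈ A₀, s.nx s.N a :=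
      sum_le_sum fun a ha => (mem_filter.1 (hA₀L ha)).2
    rw [sum_const, hA₀c, nsmul_eq_mul] at this
    push_cast at this
    linarith
  rw [s.sum_nx_comm] at h2
  -- upper bound
  have h3 : ∀ b ∈ s.N, s.dg A₀ b * s.x b ≤ (k - 1) * s.x b + (if b ∈ M then (16 * k : ℝ) else 0) := by
    intro b hb
    split_ifs with hbM
    · have e1 : s.dg A₀ b ≤ 16 * k := by
        have := s.dg_le_card A₀ b
        rw [hA₀c] at this
        exact_mod_cast this
      have e2 := s.x0 b
      have e3 := s.x1 b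
      have e4 := s.dg_nonneg A₀ b
      nlinarith
    · have hlt : s.dg A₀ b < k := by
        by_contra hcc
        push Not at hcc
        exact hbM (mem_filter.2 ⟨hb, hcc⟩)
      have hle : s.dg A₀ b ≤ k - 1 := by
        rw [s.dg_eq_card] at hlt ⊢
        have : (A₀.filter (fun b_1 => s.G.Adj b b_1)).card < k := by exact_mod_cast hlt
        have : (A₀.filter (fun b_1 => s.G.Adj b b_1)).card + 1 ≤ k := this
        have h' : (((A₀.filter (fun b_1 => s.G.Adj b b_1)).card : ℝ)) + 1 ≤ k := by exact_mod_cast this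
        linarith
      have e2 := s.x0 b
      nlinarith
  have h4 := h2.trans (sum_le_sum h3)
  rw [sum_add_distrib, ← mul_sum] at h4
  have h5 : ∑ v ∈ s.N, s.x v = lam := s.xs_N
  have h6 : ∑ b ∈ s.N, (if b ∈ M then (16 * k : ℝ) else 0) ≤ 16 * k * C := by
    rw [← sum_filter]
    rw [sum_const, nsmul_eq_mul]
    have : (s.N.filter (fun b => b ∈ M)).card ≤ M.card :=
      card_le_card (fun b hb => (mem_filter.1 hb).2)
    have h7 : ((s.N.filter (fun b => b ∈ M)).card : ℝ) ≤ C := le_trans (by exact_mod_cast this) hcbR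
    nlinarith
  rw [h5] at h4
  linarith

end Pool.Agent.Helper31.Fan
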