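import Mathlib
import Pool.Agent.Helper31.Fan.Steps1

namespace Pool.Agent.Helper31.Fan

open Finset Filter
open scoped Classical

universe u

namespace Ctx

variable {k : ℕ} {lam : ℝ} (s : Ctx.{u} k lam)

/-- big vertices of the neighbourhood -/
noncomputable def X : Finset s.V := s.N.filter (fun a => 1 / 2 ≤ s.x a)

/-- big vertices outside -/
noncomputable def Wp : Finset s.V := s.W.filter (fun a => 1 / 2 ≤ s.x a)

/-- small vertices outside -/
noncomputable def Wm : Finset s.V := s.W.filter (fun a => ¬ 1 / 2 ≤ s.x a)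

theorem Wm_sub : s.Wm ⊆ s.W := filter_subset _ _

theorem Wp_sub : s.Wp ⊆ s.W := filter_subset _ _

theorem X_sub : s.X ⊆ s.N := filter_subset _ _

theorem L_sub : s.L ⊆ s.N := filter_subset _ _

theorem S_first_le : ∑ w ∈ s.W, s.dg s.N w * (1 - s.x w) ≤ s.S := by
  unfold S
  have := s.S_second_nonneg
  linarith

theorem S_second_le : ∑ w ∈ s.W, s.dg s.W w ≤ 2 * s.S := by
  unfold S
  have := s.S_first_nonneg
  linarith

theorem S_first_sub {Y : Finset s.V} (hY : Y ⊆ s.W) :
    ∑ w ∈ Y, s.dg s.N w * (1 - s.x w) ≤ s.S :=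
  (sum_le_sum_of_subset_of_nonneg hY fun w _ _ =>
    mul_nonneg (s.dg_nonneg _ _) (by have := s.x1 w; linarith)).trans s.S_first_le

theorem S_second_sub {Y : Finset s.V} (hY : Y ⊆ s.W) :
    ∑ w ∈ Y, s.dg s.W w ≤ 2 * s.S :=
  (sum_le_sum_of_subset_of_nonneg hY fun w _ _ => s.dg_nonneg _ _).trans s.S_second_le

theorem Wm_sum_x : ∑ w ∈ s.Wm, s.dg s.N w * s.x w ≤ s.S := by
  refine le_trans ?_ (s.S_first_sub s.Wm_sub)
  refine sum_le_sum fun w hw => ?_
  have h1 := (mem_filter.1 hw).2
  push Not at h1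
  exact mul_le_mul_of_nonneg_left (by linarith) (s.dg_nonneg _ _)

theorem Wm_sum : ∑ w ∈ s.Wm, s.dg s.N w ≤ 2 * s.S := by
  have h0 := s.S_first_sub s.Wm_sub
  have h2 : ∑ w ∈ s.Wm, s.dg s.N w ≤ 2 * ∑ w ∈ s.Wm, s.dg s.N w * (1 - s.x w) := by
    rw [mul_sum]
    refine sum_le_sum fun w hw => ?_
    have h1 := (mem_filter.1 hw).2
    push Not at h1
    have := s.dg_nonneg s.N w
    nlinarith
  linarith

/-- the weight of small outside neighbours -/
theorem nx_Wm_le {a : s.V} (ha : a ∈ s.N) : s.nx s.Wm a ≤ s.S := by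
  refine le_trans ?_ s.Wm_sum_x
  unfold nx
  refine sum_le_sum fun w _ => ?_
  refine mul_le_mul_of_nonneg_right ?_ (s.x0 w)
  rw [s.A_symm]
  unfold dg
  exact single_le_sum (f := fun b => s.A w b) (fun b _ => s.A_nonneg _ _) ha

theorem nx_W_split (a : s.V) : s.nx s.Wp a + s.nx s.Wm a = s.nx s.W a := s.nx_filter_add _ _ _

theorem mem_X {a : s.V} : a ∈ s.X ↔ a ∈ s.N ∧ 1 / 2 ≤ s.x a := by simp [X]

theorem not_mem_L {a : s.V} (ha : a ∈ s.N) (h : a ∉ s.L) : s.nx s.N a < lam / 16 := by
  by_contra hc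
  push Not at hc
  exact h (mem_filter.2 ⟨ha, hc⟩)

/-- a big vertex of `N` which is not dense has many neighbours outside -/
theorem nx_W_big {a : s.V} (ha : a ∈ s.X) (hL : a ∉ s.L) (hlam : 0 ≤ lam) :
    7 / 16 * lam - 1 ≤ s.nx s.W a := by
  have h1 := s.mem_X.1 ha
  have h2 := s.eig_N h1.1
  have h3 := s.not_mem_L h1.1 hL
  nlinarith [h1.2]

end Ctx

/-- exceptional set -/
theorem exists_E0 (k : ℕ) (hk : 1 ≤ k) :
    ∃ C : ℝ, 0 ≤ C ∧ ∀ᶠ lam : ℝ in atTop, ∀ s : Ctx.{u} k lam, ∃ E₀ ⊆ s.X, (E₀.card : ℝ) ≤ C ∧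
      ∀ A ⊆ s.X \ E₀, A.card = k + 1 →
        ∃ B : Finset s.V, k + 1 ≤ B.card ∧ ∀ a ∈ A, ∀ b ∈ B, s.G.Adj a b := by
  refine ⟨480 * k * (k + 1) + 32 * k, by positivity, ?_⟩
  filter_upwards [L_bound k hk, eventually_ge_atTop (k : ℝ), eventually_ge_atTop (1600 * k : ℝ),
    eventually_ge_atTop (20 * (k + 1) : ℝ), eventually_ge_atTop (100 : ℝ)] with lam hL h0 h1 h2 h3 s
  have hk' : (1 : ℝ) ≤ k := by exact_mod_cast hk
  have hSc : s.S ≤ 2 * k * lam := by
    have := s.S_Tm_crude hk h0
    have := s.Tm_nonneg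
    linarith
  have hLs := hL s
  have hlam : 0 < lam := by linarith
  by_cases hX : (s.X \ s.L).card < 16 * k
  · -- few big vertices
    refine ⟨s.X, Subset.refl _, ?_, ?_⟩
    · have h4 : s.X.card ≤ (s.X \ s.L).card + s.L.card := by
        rw [← card_sdiff_add_card_inter s.X s.L]
        have := card_le_card (inter_subset_right : s.X ∩ s.L ⊆ s.L)
        omega
      have h5 : s.X.card ≤ 32 * k := by omega
      have h6 : (s.X.card : ℝ) ≤ 32 * k := by exact_mod_cast h5
      have : 0 ≤ (480 : ℝ) * k * (k + 1) := by positivity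
      linarith
    · intro A hA hAc
      rw [sdiff_self] at hA
      rw [subset_empty.1 hA] at hAc
      simp at hAc
  · push Not at hX
    -- find a with large nx Wp
    have hsum : ∑ a ∈ s.X \ s.L, s.nx s.Wm a ≤ 2 * k * lam := by
      rw [s.sum_nx_comm]
      refine le_trans ?_ hSc
      refine le_trans ?_ s.Wm_sum_x
      refine sum_le_sum fun w _ => ?_
      refine mul_le_mul_of_nonneg_right ?_ (s.x0 w)
      exact s.dg_mono (sdiff_subset.trans (filter_subset _ _)) w
    have hne : (s.X \ s.L).Nonempty := by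
      rw [← card_pos]; omega
    obtain ⟨a, ha, ha2⟩ : ∃ a ∈ s.X \ s.L, s.nx s.Wm a ≤ lam / 8 := by
      by_contra hc
      push Not at hc
      have h4 : ∑ a ∈ s.X \ s.L, lam / 8 < ∑ a ∈ s.X \ s.L, s.nx s.Wm a :=
        sum_lt_sum_of_nonempty hne hc
      rw [sum_const, nsmul_eq_mul] at h4
      have h5 : (16 * k : ℝ) ≤ (s.X \ s.L).card := by exact_mod_cast hX
      nlinarith
    rw [Finset.mem_sdiff] at ha
    have hWp : lam / 5 ≤ (s.Wp.card : ℝ) := by
      have e1 := s.nx_W_big ha.1 ha.2 hlam.le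
      have e2 := s.nx_W_split a
      have e3 := (s.nx_le_xs s.Wp a).trans (s.xs_le_card s.Wp)
      linarith
    -- W++
    set Wpp := s.Wp.filter (fun w => s.dg s.W w ≤ 40 * k) with hWpp
    have hWppW : Wpp ⊆ s.W := (filter_subset _ _).trans (filter_subset _ _)
    have hM : lam / 10 ≤ (Wpp.card : ℝ) := by
      have e1 : ((s.Wp.filter (fun w => ¬ s.dg s.W w ≤ 40 * k)).card : ℝ) * (40 * k) ≤
          4 * k * lam := by
        have : ∑ w ∈ s.Wp.filter (fun w => ¬ s.dg s.W w ≤ 40 * k), (40 * k : ℝ) ≤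
            ∑ w ∈ s.Wp.filter (fun w => ¬ s.dg s.W w ≤ 40 * k), s.dg s.W w :=
          sum_le_sum fun w hw => by
            have := (mem_filter.1 hw).2
            push Not at this
            exact this.le
        have e2 : ∑ w ∈ s.Wp.filter (fun w => ¬ s.dg s.W w ≤ 40 * k), s.dg s.W w ≤ 2 * s.S :=
          s.S_second_sub ((filter_subset _ _).trans (filter_subset _ _))
        rw [sum_const, nsmul_eq_mul] at this
        linarith
      have e2 : ((s.Wp.filter (fun w => ¬ s.dg s.W w ≤ 40 * k)).card : ℝ) ≤ lam / 10 := by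
        by_contra hc
        replace hc := lt_of_not_ge hc
        have : lam / 10 * (40 * k) < ((s.Wp.filter (fun w => ¬ s.dg s.W w ≤ 40 * k)).card : ℝ) * (40 * k) :=
          mul_lt_mul_of_pos_right hc (by linarith)
        linarith
      have e3 : (Wpp.card : ℝ) + ((s.Wp.filter (fun w => ¬ s.dg s.W w ≤ 40 * k)).card : ℝ) =
          s.Wp.card := by
        have := card_filter_add_card_filter_not (s := s.Wp) (fun w => s.dg s.W w ≤ 40 * k)
        rw [← this, Nat.cast_add]
      linarith
    set M : ℝ := (Wpp.card : ℝ) with hMdef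
    have hMpos : 0 < M := by linarith
    -- degrees
    have hdg : ∀ w ∈ Wpp, lam / 4 ≤ s.dg s.N w ∧
        ∑ a ∈ s.N, s.x a * (1 - s.A w a) ≤ lam * (1 - s.x w) + 40 * k := by
      intro w hw
      rw [hWpp, mem_filter] at hw
      have e0 : w ∈ s.W ∧ 1 / 2 ≤ s.x w := mem_filter.1 hw.1
      have e1 := s.eig_W e0.1
      have e2 := s.nx_le_dg s.W w
      have e3 := s.nx_le_dg s.N w
      have e4 := hw.2
      constructor
      · have : 1 / 2 * lam ≤ lam * s.x w := by nlinarith [e0.2]
        linarith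
      · have e5 : ∑ a ∈ s.N, s.x a * (1 - s.A w a) = s.xs s.N - s.nx s.N w := by
          unfold Ctx.xs Ctx.nx
          rw [← sum_sub_distrib]
          refine sum_congr rfl fun a _ => by ring
        rw [e5, s.xs_N]
        linarith
    have hsum1 : ∑ w ∈ Wpp, (1 - s.x w) ≤ 8 * k := by
      have e1 : ∑ w ∈ Wpp, (lam / 4) * (1 - s.x w) ≤ ∑ w ∈ Wpp, s.dg s.N w * (1 - s.x w) :=
        sum_le_sum fun w hw => mul_le_mul_of_nonneg_right (hdg w hw).1 (by
          have := s.x1 w; linarith)
      have e2 := s.S_first_sub hWppW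
      rw [← mul_sum] at e1
      by_contra hc
      push Not at hc
      have : lam / 4 * (8 * k) < lam / 4 * ∑ w ∈ Wpp, (1 - s.x w) :=
        mul_lt_mul_of_pos_left hc (by linarith)
      linarith
    have hsum2 : ∑ w ∈ Wpp, ∑ a ∈ s.N, s.x a * (1 - s.A w a) ≤ 120 * k * M := by
      have e1 := sum_le_sum fun w hw => (hdg w hw).2
      refine e1.trans ?_
      rw [sum_add_distrib, ← mul_sum, sum_const, nsmul_eq_mul]
      have e2 : lam * ∑ w ∈ Wpp, (1 - s.x w) ≤ lam * (8 * k) :=
        mul_le_mul_of_nonneg_left hsum1 hlam.le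
      have e3 : lam * (8 * k) ≤ 10 * M * (8 * k) := mul_le_mul_of_nonneg_right (by linarith) (by linarith)
      linarith
    -- E1
    set E₁ := s.X.filter (fun a => M / (2 * (k + 1)) < ∑ w ∈ Wpp, (1 - s.A w a)) with hE₁
    refine ⟨E₁, filter_subset _ _, ?_, ?_⟩
    · have e1 : (E₁.card : ℝ) * (1 / 2 * (M / (2 * (k + 1)))) ≤ 120 * k * M := by
        refine le_trans ?_ hsum2
        rw [sum_comm]
        have e2 : ∑ a ∈ E₁, (1 / 2 * (M / (2 * (k + 1)))) ≤
            ∑ a ∈ E₁, ∑ w ∈ Wpp, s.x a * (1 - s.A w a) := by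
          refine sum_le_sum fun a ha => ?_
          rw [hE₁, mem_filter] at ha
          rw [← mul_sum]
          have e3 := (s.mem_X.1 ha.1).2
          have e4 := ha.2
          have e5 : 0 ≤ M / (2 * (k + 1)) := by positivity
          nlinarith
        rw [sum_const, nsmul_eq_mul] at e2
        refine e2.trans ?_
        refine sum_le_sum_of_subset_of_nonneg ((filter_subset _ _).trans (filter_subset _ _)) ?_
        intro a _ _
        refine sum_nonneg fun w _ => mul_nonneg (s.x0 a) ?_
        have := s.A_le_one w a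
        linarith
      have e2 : (E₁.card : ℝ) * (1 / 2 * (M / (2 * (k + 1)))) =
          ((E₁.card : ℝ) / (4 * (k + 1))) * M := by
        field_simp
        ring
      rw [e2] at e1
      have e3 := le_of_mul_le_mul_right e1 hMpos
      rw [div_le_iff₀ (by positivity)] at e3
      have e4 : 120 * (k : ℝ) * (4 * (k + 1)) = 480 * k * (k + 1) := by ring
      have e5 : (0 : ℝ) ≤ 32 * k := by positivity
      linarith
    · intro A hA hAc
      refine ⟨Wpp.filter (fun w => ∀ a ∈ A, s.G.Adj a w), ?_, ?_⟩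
      · -- count
        have e1 : M - (k + 1) * (M / (2 * (k + 1))) ≤
            ((Wpp.filter (fun w => ∀ a ∈ A, s.G.Adj a w)).card : ℝ) := by
          have e2 : ∀ w ∈ Wpp, 1 - ∑ a ∈ A, (1 - s.A w a) ≤
              if (∀ a ∈ A, s.G.Adj a w) then (1 : ℝ) else 0 := by
            intro w _
            split_ifs with hw
            · have : 0 ≤ ∑ a ∈ A, (1 - s.A w a) := sum_nonneg fun a _ => by
                have := s.A_le_one w a
                linarith
              linarith
            · push Not at hw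
              obtain ⟨a, ha, hna⟩ := hw
              have h5 : (1 : ℝ) - s.A w a ≤ ∑ a ∈ A, (1 - s.A w a) :=
                single_le_sum (f := fun a => 1 - s.A w a) (fun a _ => by
                  have := s.A_le_one w a
                  show (0:ℝ) ≤ 1 - s.A w a
                  linarith) ha
              rw [s.A_zero (fun h => hna h.symm)] at h5
              linarith
          have e3 := sum_le_sum e2
          rw [sum_boole, sum_sub_distrib, sum_const, nsmul_eq_mul, mul_one] at e3
          refine le_trans ?_ e3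
          have e4 : ∑ w ∈ Wpp, ∑ a ∈ A, (1 - s.A w a) ≤ (k + 1) * (M / (2 * (k + 1))) := by
            rw [sum_comm]
            have e5 : ∑ a ∈ A, ∑ w ∈ Wpp, (1 - s.A w a) ≤ ∑ a ∈ A, (M / (2 * (k + 1))) := by
              refine sum_le_sum fun a ha => ?_
              have h6 := hA ha
              rw [Finset.mem_sdiff] at h6
              by_contra hc
              push Not at hc
              exact h6.2 (mem_filter.2 ⟨h6.1, hc⟩)
            rw [sum_const, hAc, nsmul_eq_mul] at e5
            push_cast at e5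
            exact e5
          linarith
        have e2 : (k + 1) * (M / (2 * (k + 1))) = M / 2 := by
          field_simp
        have e3 : ((k + 1 : ℕ) : ℝ) ≤ ((Wpp.filter (fun w => ∀ a ∈ A, s.G.Adj a w)).card : ℝ) := by
          push_cast
          linarith
        exact_mod_cast e3
      · intro a ha b hb
        exact (mem_filter.1 hb).2 a ha

end Pool.Agent.Helper31.Fan
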