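import Mathlib
import Pool.Agent.Helper31.Fan.Steps2

namespace Pool.Agent.Helper31.Fan

open Finset Filter
open scoped Classical

universe u

theorem aux3a {p z k X Z : ℝ} (hp : 0 ≤ p) (hz : z ≤ k - 1) (hZ : 0 ≤ (k - 1) * Z)
    (h : X ≤ p * (z * (1 / 2))) : X ≤ (k - 1) * p / 2 + (k - 1) * Z := by
  have := mul_le_mul_of_nonneg_left hz hp
  linarith

theorem aux3c {lam xK xr k T TK Y C : ℝ} (h1 : lam = xK + xr)
    (hKb : TK ≤ 2 * (k - 1) * xK + 4 * k ^ 2 * Y) (hK2 : T ≤ TK + 2 * (k - 1) * xr)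
    (h3 : 4 * k ^ 2 * Y ≤ 4 * k ^ 2 * C) : 1 / 2 * T ≤ (k - 1) * lam + 2 * k ^ 2 * C := by
  rw [h1]
  linarith

theorem aux3b {k X Z : ℝ} (hk : 2 ≤ k) (hZ : 0 ≤ Z)
    (h : X ≤ k * (k * (1 / 4) + 1 / 2 * Z)) : X ≤ (k - 1) * k / 2 + (k - 1) * Z := by
  nlinarith

namespace Ctx

variable {k : ℕ} {lam : ℝ} (s : Ctx.{u} k lam)

/-- edges touching a big vertex -/
def RX (a b : s.V) : Prop := s.G.Adj a b ∧ (1 / 2 ≤ s.x a ∨ 1 / 2 ≤ s.x b)

theorem RX_symm (a b : s.V) (h : s.RX a b) : s.RX b a := ⟨h.1.symm, h.2.symm⟩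

theorem RX_irr (a : s.V) : ¬ s.RX a a := fun h => s.irr a h.1

theorem wt_zero_RX (a b : s.V) (h : ¬ s.RX a b) : s.wt a b = 0 := by
  by_cases hab : s.G.Adj a b
  · have : ¬ (1 / 2 ≤ s.x a ∨ 1 / 2 ≤ s.x b) := fun h' => h ⟨hab, h'⟩
    push Not at this
    exact s.wt_zero_of_small this.1 this.2
  · exact s.wt_zero hab

/-- bound inside one component -/
theorem Q_bound (hk : 2 ≤ k) (E₀ : Finset s.V)
    (hE : ∀ A ⊆ s.X \ E₀, A.card = k + 1 →
        ∃ B : Finset s.V, k + 1 ≤ B.card ∧ ∀ a ∈ A, ∀ b ∈ B, s.G.Adj a b)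
    (Q : Finset s.V) (hQN : Q ⊆ s.N) (hQE : ∀ a ∈ Q, a ∉ E₀) (hQc : Q.card ≤ 2 * k)
    (hdeg : ∀ z ∈ Q, k ≤ (Q.filter (fun b => s.RX z b)).card) :
    ∑ a ∈ Q, ∑ b ∈ Q, s.wt a b ≤ 2 * (k - 1) * s.xs Q := by
  have hk' : (2 : ℝ) ≤ k := by exact_mod_cast hk
  set P := Q.filter (fun a => 1 / 2 ≤ s.x a) with hP
  set Z := Q.filter (fun a => ¬ 1 / 2 ≤ s.x a) with hZ
  have hPX : P ⊆ s.X \ E₀ := by
    intro a ha
    rw [hP, mem_filter] at ha
    rw [Finset.mem_sdiff]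
    exact ⟨s.mem_X.2 ⟨hQN ha.1, ha.2⟩, hQE a ha.1⟩
  have hPx : ∀ a ∈ P, 1 / 2 ≤ s.x a := fun a ha => (mem_filter.1 ha).2
  have hZx : ∀ a ∈ Z, s.x a < 1 / 2 := fun a ha => lt_of_not_ge (mem_filter.1 ha).2
  have hsplit : ∀ f : s.V → ℝ, ∑ a ∈ Q, f a = ∑ a ∈ P, f a + ∑ a ∈ Z, f a := by
    intro f
    exact (sum_filter_add_sum_filter_not Q _ f).symm
  -- degree inside P
  have hdP : ∀ a ∈ P, s.dg P a ≤ k - 1 := by
    intro a ha
    by_contra hc
    rw [s.dg_eq_card] at hc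
    have hc1 : k ≤ (P.filter (fun b => s.G.Adj a b)).card := by
      by_contra hcc
      have : (P.filter (fun b => s.G.Adj a b)).card + 1 ≤ k := by omega
      have h' : ((P.filter (fun b => s.G.Adj a b)).card : ℝ) + 1 ≤ k := by exact_mod_cast this
      exact hc (by linarith)
    obtain ⟨A', hA'1, hA'2⟩ := exists_subset_card_eq hc1
    have haA' : a ∉ A' := fun h => s.irr a (mem_filter.1 (hA'1 h)).2
    obtain ⟨B, hB1, hB2⟩ := hE (insert a A') (by
      intro b hb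
      rcases mem_insert.1 hb with rfl | hb
      · exact hPX ha
      · exact hPX (mem_filter.1 (hA'1 hb)).1) (by rw [card_insert_of_notMem haA', hA'2])
    refine s.f1 a A' B hA'2 hB1 ?_ ?_ ?_
    · intro b hb
      exact (mem_filter.1 (hA'1 hb)).2
    · intro b hb
      exact hB2 a (mem_insert_self _ _) b hb
    · intro b hb c hc
      exact hB2 b (mem_insert_of_mem hb) c hc
  -- PP part
  have hPP : ∑ a ∈ P, ∑ b ∈ P, s.wt a b ≤ 2 * (k - 1) * ∑ a ∈ P, (s.x a - 1 / 2) := by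
    have e1 : ∑ a ∈ P, ∑ b ∈ P, s.wt a b =
        ∑ a ∈ P, ∑ b ∈ P, (s.A a b * (s.x a - 1 / 2) + s.A a b * (s.x b - 1 / 2)) := by
      refine sum_congr rfl fun a ha => sum_congr rfl fun b hb => ?_
      unfold wt
      rw [max_eq_left (by have := hPx a ha; have := hPx b hb; linarith)]
      ring
    have e2 : ∑ a ∈ P, ∑ b ∈ P, s.A a b * (s.x b - 1 / 2) =
        ∑ a ∈ P, ∑ b ∈ P, s.A a b * (s.x a - 1 / 2) := by
      rw [sum_comm]
      refine sum_congr rfl fun a _ => sum_congr rfl fun b _ => ?_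
      rw [s.A_symm]
    rw [e1]
    simp only [sum_add_distrib]
    rw [e2]
    have e3 : ∑ a ∈ P, ∑ b ∈ P, s.A a b * (s.x a - 1 / 2) ≤ (k - 1) * ∑ a ∈ P, (s.x a - 1 / 2) := by
      rw [mul_sum]
      refine sum_le_sum fun a ha => ?_
      rw [← sum_mul]
      exact mul_le_mul_of_nonneg_right (hdP a ha) (by have := hPx a ha; linarith)
    linarith
  -- the sum over Z Z vanishes
  have hZZ : ∑ a ∈ Z, ∑ b ∈ Z, s.wt a b = 0 := by
    refine sum_eq_zero fun a ha => sum_eq_zero fun b hb => ?_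
    exact s.wt_zero_of_small (hZx a ha) (hZx b hb)
  have hZP : ∑ a ∈ Z, ∑ b ∈ P, s.wt a b = ∑ a ∈ P, ∑ b ∈ Z, s.wt a b := by
    rw [sum_comm]
    exact sum_congr rfl fun a _ => sum_congr rfl fun b _ => s.wt_symm b a
  -- PZ part
  have hPZ : ∑ a ∈ P, ∑ b ∈ Z, s.wt a b ≤ (k - 1) * P.card / 2 + (k - 1) * ∑ b ∈ Z, s.x b := by
    have hZ0 : 0 ≤ ∑ b ∈ Z, s.x b := sum_nonneg fun b _ => s.x0 b
    by_cases hZc : Z.card ≤ k - 1
    · have e1 : ∑ a ∈ P, ∑ b ∈ Z, s.wt a b ≤ ∑ a ∈ P, ∑ b ∈ Z, (1 / 2 : ℝ) :=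
        sum_le_sum fun a _ => sum_le_sum fun b hb => s.wt_le_half (hZx b hb)
      have e2 : ∑ a ∈ P, ∑ b ∈ Z, (1 / 2 : ℝ) = P.card * (Z.card * (1 / 2)) := by
        simp [sum_const, nsmul_eq_mul]
      have e3 : (Z.card : ℝ) ≤ k - 1 := by
        have : Z.card + 1 ≤ k := by omega
        have : (Z.card : ℝ) + 1 ≤ k := by exact_mod_cast this
        linarith
      have e4 : (0 : ℝ) ≤ P.card := Nat.cast_nonneg _
      rw [e2] at e1
      exact aux3a e4 e3 (mul_nonneg (by linarith) hZ0) e1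
    · have hZk : k ≤ Z.card := by omega
      have hZne : Z.Nonempty := by rw [← card_pos]; omega
      obtain ⟨z, hz⟩ := hZne
      have hPk : k ≤ P.card := by
        refine (hdeg z (mem_filter.1 hz).1).trans (card_le_card ?_)
        intro b hb
        rw [mem_filter] at hb
        rw [hP, mem_filter]
        refine ⟨hb.1, ?_⟩
        rcases hb.2.2 with h | h
        · exact absurd h (mem_filter.1 hz).2
        · exact h
      have hsum : P.card + Z.card = Q.card := card_filter_add_card_filter_not _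
      have hP2 : P.card = k := by omega
      have hZ2 : Z.card = k := by omega
      have e1 : ∑ a ∈ P, ∑ b ∈ Z, s.wt a b ≤ ∑ a ∈ P, ∑ b ∈ Z, (1 / 4 + 1 / 2 * s.x b) := by
        refine sum_le_sum fun a _ => sum_le_sum fun b hb => ?_
        have h1 := s.wt_le_half (a := a) (hZx b hb)
        have h2 := s.wt_le_right a b
        linarith
      have e2 : ∑ a ∈ P, ∑ b ∈ Z, (1 / 4 + 1 / 2 * s.x b) =
          k * (k * (1 / 4) + 1 / 2 * ∑ b ∈ Z, s.x b) := by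
        simp only [sum_add_distrib, sum_const, nsmul_eq_mul, ← mul_sum, hP2, hZ2]
        ring
      rw [hP2]
      rw [e2] at e1
      exact aux3b hk' hZ0 e1
  have htot : ∑ a ∈ Q, ∑ b ∈ Q, s.wt a b =
      ∑ a ∈ P, ∑ b ∈ P, s.wt a b + 2 * ∑ a ∈ P, ∑ b ∈ Z, s.wt a b := by
    rw [hsplit]
    simp only [hsplit (fun b => s.wt _ b), sum_add_distrib]
    rw [hZP, hZZ]
    ring
  have hxs : s.xs Q = ∑ a ∈ P, s.x a + ∑ a ∈ Z, s.x a := hsplit _
  have e5 : ∑ a ∈ P, (s.x a - 1 / 2) = ∑ a ∈ P, s.x a - P.card / 2 := by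
    rw [sum_sub_distrib]
    simp [sum_const, nsmul_eq_mul]
    ring
  rw [htot, hxs]
  rw [e5] at hPP
  have hZ0 : 0 ≤ ∑ b ∈ Z, s.x b := sum_nonneg fun b _ => s.x0 b
  linarith

/-- summing over the components -/
theorem K_bound (hk : 2 ≤ k) (E₀ : Finset s.V)
    (hE : ∀ A ⊆ s.X \ E₀, A.card = k + 1 →
        ∃ B : Finset s.V, k + 1 ≤ B.card ∧ ∀ a ∈ A, ∀ b ∈ B, s.G.Adj a b)
    (K : Finset s.V) (hKN : K ⊆ s.N)
    (hdeg : ∀ z ∈ K, k ≤ (K.filter (fun b => s.RX z b)).card) :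
    ∑ a ∈ K, ∑ b ∈ K, s.wt a b ≤ 2 * (k - 1) * s.xs K + 4 * k ^ 2 * ((K ∩ E₀).card : ℝ) := by
  induction K using Finset.strongInduction with
  | H K ih =>
    have hk' : (2 : ℝ) ≤ k := by exact_mod_cast hk
    by_cases hKe : K.Nonempty
    · obtain ⟨Q, hQK, hQne, hQc, hQcl⟩ := dirac s.RX_irr s.RX_symm hKe (by omega) hdeg
        ((s.nopathN hKN).mono (fun a b h => h.1) (Subset.refl _))
      have hKQ : K \ Q ⊂ K := by
        refine ⟨sdiff_subset, fun h => ?_⟩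
        obtain ⟨q, hq⟩ := hQne
        exact (Finset.mem_sdiff.1 (h (hQK hq))).2 hq
      have hIH := ih (K \ Q) hKQ (sdiff_subset.trans hKN) (by
        intro z hz
        rw [Finset.mem_sdiff] at hz
        refine (hdeg z hz.1).trans (card_le_card ?_)
        intro b hb
        rw [mem_filter] at hb ⊢
        refine ⟨Finset.mem_sdiff.2 ⟨hb.1, fun hbQ => hz.2 ?_⟩, hb.2⟩
        exact hQcl b hbQ z hz.1 (s.RX_symm _ _ hb.2))
      have hQdeg : ∀ z ∈ Q, k ≤ (Q.filter (fun b => s.RX z b)).card := by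
        intro z hz
        refine (hdeg z (hQK hz)).trans (card_le_card ?_)
        intro b hb
        rw [mem_filter] at hb ⊢
        exact ⟨hQcl z hz b hb.1 hb.2, hb.2⟩
      have hsplit : ∀ f : s.V → ℝ, ∑ a ∈ K, f a = ∑ a ∈ K \ Q, f a + ∑ a ∈ Q, f a := by
        intro f
        exact (sum_sdiff hQK).symm
      have hcross : ∀ a ∈ K \ Q, ∀ b ∈ Q, s.wt a b = 0 := by
        intro a ha b hb
        apply s.wt_zero_RX
        intro h
        rw [Finset.mem_sdiff] at ha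
        exact ha.2 (hQcl b hb a ha.1 (s.RX_symm _ _ h))
      have htot : ∑ a ∈ K, ∑ b ∈ K, s.wt a b =
          ∑ a ∈ K \ Q, ∑ b ∈ K \ Q, s.wt a b + ∑ a ∈ Q, ∑ b ∈ Q, s.wt a b := by
        rw [hsplit]
        simp only [hsplit (fun b => s.wt _ b), sum_add_distrib]
        have e1 : ∑ a ∈ K \ Q, ∑ b ∈ Q, s.wt a b = 0 :=
          sum_eq_zero fun a ha => sum_eq_zero fun b hb => hcross a ha b hb
        have e2 : ∑ a ∈ Q, ∑ b ∈ K \ Q, s.wt a b = 0 :=
          sum_eq_zero fun a ha => sum_eq_zero fun b hb => by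
            rw [s.wt_symm]; exact hcross b hb a ha
        rw [e1, e2]
        ring
      have hxs : s.xs K = s.xs (K \ Q) + s.xs Q := hsplit _
      have hcard : ((K ∩ E₀).card : ℝ) = ((K \ Q) ∩ E₀).card + (Q ∩ E₀).card := by
        have : K ∩ E₀ = ((K \ Q) ∩ E₀) ∪ (Q ∩ E₀) := by
          ext a
          simp only [mem_inter, mem_union, Finset.mem_sdiff]
          constructor
          · rintro ⟨h1, h2⟩
            by_cases h3 : a ∈ Q
            · right; exact ⟨h3, h2⟩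
            · left; exact ⟨⟨h1, h3⟩, h2⟩
          · rintro (⟨⟨h1, h2⟩, h3⟩ | ⟨h1, h2⟩)
            · exact ⟨h1, h3⟩
            · exact ⟨hQK h1, h2⟩
        rw [this, card_union_of_disjoint]
        · push_cast; rfl
        · rw [disjoint_left]
          intro a ha hb
          exact (Finset.mem_sdiff.1 (mem_inter.1 ha).1).2 (mem_inter.1 hb).1
      have hQb : ∑ a ∈ Q, ∑ b ∈ Q, s.wt a b ≤
          2 * (k - 1) * s.xs Q + 4 * k ^ 2 * ((Q ∩ E₀).card : ℝ) := by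
        by_cases hQE : (Q ∩ E₀).Nonempty
        · have e1 : ∑ a ∈ Q, ∑ b ∈ Q, s.wt a b ≤ ∑ a ∈ Q, ∑ b ∈ Q, (1 : ℝ) :=
            sum_le_sum fun a _ => sum_le_sum fun b _ => s.wt_le_one a b
          have e2 : ∑ a ∈ Q, ∑ b ∈ Q, (1 : ℝ) = Q.card * Q.card := by simp
          have e3 : (Q.card : ℝ) ≤ 2 * k := by exact_mod_cast hQc
          have e4 : (1 : ℝ) ≤ (Q ∩ E₀).card := by exact_mod_cast card_pos.2 hQE
          have e5 := s.xs_nonneg Q
          have e6 : (0 : ℝ) ≤ Q.card := Nat.cast_nonneg _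
          have e7' : (Q.card : ℝ) * Q.card ≤ (2 * k) * (2 * k) :=
            mul_le_mul e3 e3 e6 (by linarith)
          have e7 : (Q.card : ℝ) * Q.card ≤ 4 * k ^ 2 := by
            refine e7'.trans (le_of_eq ?_)
            ring
          have e8 : (4 : ℝ) * k ^ 2 * 1 ≤ 4 * k ^ 2 * ((Q ∩ E₀).card : ℝ) :=
            mul_le_mul_of_nonneg_left e4 (by positivity)
          have e9 : 0 ≤ 2 * ((k : ℝ) - 1) * s.xs Q := by
            apply mul_nonneg _ e5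
            linarith
          linarith
        · have h0 : ∀ a ∈ Q, a ∉ E₀ := fun a ha hb => hQE ⟨a, mem_inter.2 ⟨ha, hb⟩⟩
          have h1 := s.Q_bound hk E₀ hE Q (hQK.trans hKN) h0 hQc hQdeg
          have h2 : (0 : ℝ) ≤ 4 * k ^ 2 * ((Q ∩ E₀).card : ℝ) :=
            mul_nonneg (by positivity) (Nat.cast_nonneg _)
          linarith
      rw [htot, hxs, hcard]
      linarith
    · rw [not_nonempty_iff_eq_empty.1 hKe]
      simp [xs]

end Ctx

theorem T_bound (k : ℕ) (hk : 2 ≤ k) :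
    ∃ C : ℝ, 0 ≤ C ∧ ∀ᶠ lam : ℝ in atTop, ∀ s : Ctx.{u} k lam, s.Tp ≤ (k - 1) * lam + C := by
  obtain ⟨C, hC, h⟩ := exists_E0.{u} k (by omega)
  refine ⟨2 * k ^ 2 * C, by positivity, ?_⟩
  filter_upwards [h] with lam hlam s
  obtain ⟨E₀, hE₀X, hE₀c, hE⟩ := hlam s
  have hk' : (2 : ℝ) ≤ k := by exact_mod_cast hk
  obtain ⟨K, hKN, hK1, hK2⟩ := core s.RX s.wt s.x k (by omega) s.wt_symm
    s.wt_zero_RX s.RX_irr (fun a b _ => s.wt_le_left a b) s.x0 s.N
  have hKb := s.K_bound hk E₀ hE K hKN hK1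
  have h1 : s.xs s.N = s.xs K + ∑ v ∈ s.N \ K, s.x v := by
    unfold Ctx.xs
    rw [add_comm]
    exact (sum_sdiff hKN).symm
  rw [s.xs_N] at h1
  have h2 : ((K ∩ E₀).card : ℝ) ≤ C := by
    have := card_le_card (inter_subset_right : K ∩ E₀ ⊆ E₀)
    exact le_trans (by exact_mod_cast this) hE₀c
  have h3 : (4 : ℝ) * k ^ 2 * ((K ∩ E₀).card : ℝ) ≤ 4 * k ^ 2 * C :=
    mul_le_mul_of_nonneg_left h2 (by positivity)
  rw [s.Tp_eq]
  exact aux3c h1 hKb hK2 h3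

/-- the loss terms are bounded -/
theorem S_Tm_bound (k : ℕ) (hk : 2 ≤ k) :
    ∃ C : ℝ, 0 ≤ C ∧ ∀ᶠ lam : ℝ in atTop, ∀ s : Ctx.{u} k lam, s.S + s.Tm ≤ C := by
  obtain ⟨C, hC, h⟩ := T_bound.{u} k hk
  refine ⟨C + k ^ 2, by positivity, ?_⟩
  filter_upwards [h] with lam hlam s
  have h1 := hlam s
  have h2 := s.main_ineq
  linarith

end Pool.Agent.Helper31.Fan
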