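import Mathlib
import Pool.Agent.Helper31.Fan.Steps3

namespace Pool.Agent.Helper31.Fan

open Finset Filter
open scoped Classical

universe u

namespace Ctx

variable {k : ℕ} {lam : ℝ} (s : Ctx.{u} k lam)

/-- defect of an outside vertex -/
noncomputable def df (w : s.V) : ℝ := ∑ a ∈ s.N, s.x a * (1 - s.A w a)

theorem df_eq (w : s.V) : s.df w = lam - s.nx s.N w := by
  have : s.df w = s.xs s.N - s.nx s.N w := by
    unfold df xs nx
    rw [← sum_sub_distrib]
    refine sum_congr rfl fun a _ => by ring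
  rw [this, s.xs_N]

theorem df_nonneg (w : s.V) : 0 ≤ s.df w :=
  sum_nonneg fun a _ => mul_nonneg (s.x0 a) (by have := s.A_le_one w a; linarith)

theorem dgW_le (w : s.V) (hw : w ∈ s.W) : s.dg s.W w ≤ 2 * s.S :=
  (single_le_sum (f := fun w => s.dg s.W w) (fun v _ => s.dg_nonneg _ _) hw).trans s.S_second_le

/-- few vertices of W are big: key contradiction -/
theorem D_false (hk : 2 ≤ k) (hlam : 4 * (k : ℝ) ^ 2 + 1 < lam) (D : Finset s.V) (hDW : D ⊆ s.W)
    (hDc : D.card = k) (hDd : ∀ w ∈ D, s.df w ≤ 1 / (16 * k ^ 2)) : False := by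
  have hk' : (2 : ℝ) ≤ k := by exact_mod_cast hk
  have hk0 : (0 : ℝ) < k := by linarith
  have hlam0 : 0 < lam := by nlinarith
  set Nt := s.N.filter (fun a => ¬ ∀ w ∈ D, s.G.Adj w a) with hNt
  set N' := s.N.filter (fun a => ∀ w ∈ D, s.G.Adj w a) with hN'
  set τ : ℝ := 1 / (16 * k) with hτ
  have hτ0 : 0 < τ := by rw [hτ]; positivity
  have hτ2 : τ < 1 / 2 := by
    rw [hτ]
    rw [div_lt_div_iff₀ (by positivity) (by norm_num)]
    linarith
  -- weight of Nt
  have hxNt : s.xs Nt ≤ τ := by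
    have e1 : s.xs Nt ≤ ∑ w ∈ D, s.df w := by
      unfold xs df
      rw [sum_comm]
      have e2 : ∑ b ∈ Nt, s.x b ≤ ∑ b ∈ Nt, ∑ w ∈ D, s.x b * (1 - s.A w b) := by
        refine sum_le_sum fun b hb => ?_
        have h1 := (mem_filter.1 hb).2
        push Not at h1
        obtain ⟨w, hw, hwb⟩ := h1
        have h2 := single_le_sum (f := fun w => s.x b * (1 - s.A w b)) (fun v _ => by
          have := s.A_le_one v b
          exact mul_nonneg (s.x0 b) (by linarith)) hw
        simp only [s.A_zero hwb, sub_zero, mul_one] at h2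
        exact h2
      refine e2.trans ?_
      refine sum_le_sum_of_subset_of_nonneg (filter_subset _ _) ?_
      intro b _ _
      refine sum_nonneg fun v _ => ?_
      have := s.A_le_one v b
      exact mul_nonneg (s.x0 b) (by linarith)
    have e2 : ∑ w ∈ D, s.df w ≤ ∑ w ∈ D, (1 / (16 * k ^ 2) : ℝ) := sum_le_sum hDd
    have e3 : ∑ w ∈ D, (1 / (16 * k ^ 2) : ℝ) = τ := by
      rw [sum_const, hDc, nsmul_eq_mul, hτ]
      field_simp
    linarith
  have hxNt1 : ∀ a ∈ Nt, s.x a ≤ τ := fun a ha =>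
    (single_le_sum (f := s.x) (fun b _ => s.x0 b) ha).trans hxNt
  -- degrees in N'
  have huD : s.u ∉ D := fun h => (s.mem_W.1 (hDW h)).2 rfl
  have hdN' : ∀ a ∈ N', s.dg N' a ≤ k - 1 := by
    intro a ha
    by_contra hc
    rw [s.dg_eq_card] at hc
    have hc1 : k ≤ (N'.filter (fun b => s.G.Adj a b)).card := by
      by_contra hcc
      have : (N'.filter (fun b => s.G.Adj a b)).card + 1 ≤ k := by omega
      have h' : ((N'.filter (fun b => s.G.Adj a b)).card : ℝ) + 1 ≤ k := by exact_mod_cast this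
      exact hc (by linarith)
    obtain ⟨A', hA'1, hA'2⟩ := exists_subset_card_eq hc1
    have hA'N : ∀ b ∈ A', b ∈ N' := fun b hb => (mem_filter.1 (hA'1 hb)).1
    refine s.f1 a A' (insert s.u D) hA'2 (by rw [card_insert_of_notMem huD, hDc]) ?_ ?_ ?_
    · intro b hb
      exact (mem_filter.1 (hA'1 hb)).2
    · intro b hb
      rcases mem_insert.1 hb with rfl | hb
      · exact (s.mem_N.1 (mem_filter.1 ha).1).symm
      · exact ((mem_filter.1 ha).2 b hb).symm
    · intro b hb c hc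
      rcases mem_insert.1 hc with rfl | hc
      · exact (s.mem_N.1 (mem_filter.1 (hA'N b hb)).1).symm
      · exact ((mem_filter.1 (hA'N b hb)).2 c hc).symm
  -- the main part
  have hmain : ∑ a ∈ N', ∑ b ∈ N', s.wt a b ≤ (k - 1) * lam := by
    have e1 : ∑ a ∈ N', ∑ b ∈ N', s.wt a b ≤
        ∑ a ∈ N', ∑ b ∈ N', (s.A a b * s.x a / 2 + s.A a b * s.x b / 2) := by
      refine sum_le_sum fun a _ => sum_le_sum fun b _ => ?_
      unfold wt
      have h1 : max (s.x a + s.x b - 1) 0 ≤ (s.x a + s.x b) / 2 := by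
        have := s.x0 a
        have := s.x0 b
        have := s.x1 a
        have := s.x1 b
        exact max_le (by linarith) (by linarith)
      have := mul_le_mul_of_nonneg_left h1 (s.A_nonneg a b)
      linarith
    have e2 : ∑ a ∈ N', ∑ b ∈ N', (s.A a b * s.x a / 2 + s.A a b * s.x b / 2) =
        ∑ a ∈ N', s.dg N' a * s.x a := by
      simp only [sum_add_distrib]
      have e3 : ∑ a ∈ N', ∑ b ∈ N', s.A a b * s.x b / 2 = ∑ a ∈ N', ∑ b ∈ N', s.A a b * s.x a / 2 := by
        rw [sum_comm]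
        refine sum_congr rfl fun a _ => sum_congr rfl fun b _ => ?_
        rw [s.A_symm]
      rw [e3, ← sum_add_distrib]
      refine sum_congr rfl fun a _ => ?_
      unfold dg
      rw [← sum_add_distrib, sum_mul]
      refine sum_congr rfl fun b _ => by ring
    rw [e2] at e1
    refine e1.trans ?_
    calc ∑ a ∈ N', s.dg N' a * s.x a ≤ ∑ a ∈ N', (k - 1) * s.x a :=
          sum_le_sum fun a ha => mul_le_mul_of_nonneg_right (hdN' a ha) (s.x0 a)
      _ = (k - 1) * s.xs N' := by unfold xs; rw [mul_sum]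
      _ ≤ (k - 1) * s.xs s.N := mul_le_mul_of_nonneg_left (s.xs_mono (filter_subset _ _)) (by linarith)
      _ = (k - 1) * lam := by rw [s.xs_N]
  -- the rest
  set w' : s.V → s.V → ℝ := fun a b => if a ∈ Nt ∨ b ∈ Nt then s.wt a b else 0 with hw'
  set y : s.V → ℝ := fun a => if a ∈ Nt then s.x a else (if 1 / 2 ≤ s.x a then τ else 0) with hy
  have hy0 : ∀ a, 0 ≤ y a := by
    intro a
    simp only [hy]
    split_ifs
    · exact s.x0 a
    · exact hτ0.le
    · exact le_refl _
  obtain ⟨K, hKN, hK1, hK2⟩ := core s.G.Adj w' y (2 * k) (by omega) (by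
      intro a b
      simp only [hw']
      rw [s.wt_symm]
      congr 1
      exact propext Or.comm)
    (by
      intro a b h
      simp only [hw', s.wt_zero h, ite_self]) s.irr (by
      intro a b _
      simp only [hw']
      split_ifs with h
      · by_cases ha : a ∈ Nt
        · simp only [hy, if_pos ha]
          exact s.wt_le_left a b
        · have hb : b ∈ Nt := by tauto
          have hxb := hxNt1 b hb
          simp only [hy, if_neg ha]
          split_ifs with h2
          · exact (s.wt_le_right a b).trans hxb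
          · rw [s.wt_zero_of_small (lt_of_not_ge h2) (by linarith)]
      · exact hy0 a) hy0 s.N
  have hK0 : K = ∅ := by
    by_contra hne
    have hne' : K.Nonempty := nonempty_iff_ne_empty.2 hne
    exact greedy s.irr (fun a b h => h.symm) hne' hK1 (s.nopathN hKN)
  subst hK0
  simp only [sum_empty, zero_add, sdiff_empty] at hK2
  have hX2 : (s.X.card : ℝ) ≤ 2 * lam := by
    have e1 : ∑ a ∈ s.X, (1 / 2 : ℝ) ≤ s.xs s.X :=
      sum_le_sum fun a ha => (s.mem_X.1 ha).2
    have e2 : s.xs s.X ≤ lam := by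
      have := s.xs_mono s.X_sub
      rwa [s.xs_N] at this
    rw [sum_const, nsmul_eq_mul] at e1
    linarith
  have hysum : ∑ v ∈ s.N, y v ≤ τ * (1 + 2 * lam) := by
    have e1 : ∀ v ∈ s.N, y v ≤ (if v ∈ Nt then s.x v else 0) + (if v ∈ s.X then τ else 0) := by
      intro v hv
      simp only [hy]
      by_cases h1 : v ∈ Nt
      · simp only [if_pos h1]
        split_ifs <;> linarith
      · simp only [if_neg h1]
        by_cases h2 : 1 / 2 ≤ s.x v
        · have h3 : v ∈ s.X := s.mem_X.2 ⟨hv, h2⟩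
          simp only [if_pos h2, if_pos h3, zero_add, le_refl]
        · simp only [if_neg h2]
          split_ifs <;> linarith
    have e2 := sum_le_sum e1
    rw [sum_add_distrib] at e2
    have e3 : ∑ v ∈ s.N, (if v ∈ Nt then s.x v else 0) = s.xs Nt := by
      rw [← sum_filter]
      unfold xs
      congr 1
      ext a
      simp only [mem_filter, hNt]
      tauto
    have e4 : ∑ v ∈ s.N, (if v ∈ s.X then τ else 0) = s.X.card * τ := by
      rw [← sum_filter, sum_const, nsmul_eq_mul]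
      congr 2
      congr 1
      ext a
      simp only [mem_filter, s.mem_X]
      tauto
    rw [e3, e4] at e2
    nlinarith
  -- splitting the total
  have htot : ∑ a ∈ s.N, ∑ b ∈ s.N, s.wt a b =
      ∑ a ∈ N', ∑ b ∈ N', s.wt a b + ∑ a ∈ s.N, ∑ b ∈ s.N, w' a b := by
    have e1 : ∑ a ∈ N', ∑ b ∈ N', s.wt a b =
        ∑ a ∈ s.N, ∑ b ∈ s.N, (if a ∈ N' ∧ b ∈ N' then s.wt a b else 0) := by
      rw [hN']
      rw [sum_filter]
      refine sum_congr rfl fun a ha => ?_
      split_ifs with h1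
      · rw [sum_filter]
        refine sum_congr rfl fun b hb => ?_
        by_cases h2 : ∀ w ∈ D, s.G.Adj w b
        · rw [if_pos h2, if_pos ⟨mem_filter.2 ⟨ha, h1⟩, mem_filter.2 ⟨hb, h2⟩⟩]
        · rw [if_neg h2, if_neg]
          rintro ⟨-, h4⟩
          exact h2 (mem_filter.1 h4).2
      · symm
        refine sum_eq_zero fun b _ => ?_
        rw [if_neg]
        rintro ⟨h4, -⟩
        exact h1 (mem_filter.1 h4).2
    rw [e1, ← sum_add_distrib]
    refine sum_congr rfl fun a ha => ?_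
    rw [← sum_add_distrib]
    refine sum_congr rfl fun b hb => ?_
    have h1 : a ∈ N' ↔ ¬ a ∈ Nt := by
      simp only [hN', hNt, mem_filter]; tauto
    have h2 : b ∈ N' ↔ ¬ b ∈ Nt := by
      simp only [hN', hNt, mem_filter]; tauto
    simp only [hw']
    by_cases h3 : a ∈ Nt
    · have : ¬ (a ∈ N' ∧ b ∈ N') := by rw [h1]; tauto
      simp [h3, this]
    · by_cases h4 : b ∈ Nt
      · have : ¬ (a ∈ N' ∧ b ∈ N') := by rw [h2]; tauto
        simp [h4, this]
      · have : (a ∈ N' ∧ b ∈ N') := by rw [h1, h2]; tauto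
        simp [h3, h4, this]
  have h1 := s.main_ineq
  have h2 := s.S_nonneg
  have h3 := s.Tm_nonneg
  have h4 := s.Tp_eq
  rw [htot] at h4
  have h5 : 2 * (((2 * k : ℕ) : ℝ) - 1) * ∑ v ∈ s.N, y v ≤ (1 + 2 * lam) / 4 := by
    push_cast
    have e1 : 2 * (2 * (k : ℝ) - 1) * ∑ v ∈ s.N, y v ≤ 2 * (2 * (k : ℝ) - 1) * (τ * (1 + 2 * lam)) :=
      mul_le_mul_of_nonneg_left hysum (by linarith)
    have e2 : 2 * (2 * (k : ℝ) - 1) * (τ * (1 + 2 * lam)) ≤ 4 * k * (τ * (1 + 2 * lam)) :=
      mul_le_mul_of_nonneg_right (by linarith) (by positivity)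
    have e3 : 4 * k * (τ * (1 + 2 * lam)) = (1 + 2 * lam) / 4 := by
      rw [hτ]; field_simp; ring
    linarith
  have h6 : lam ≤ (k - 1) * lam := by nlinarith
  linarith

end Ctx

theorem Wp_bound (k : ℕ) (hk : 2 ≤ k) :
    ∃ C : ℝ, 0 ≤ C ∧ ∀ᶠ lam : ℝ in atTop, ∀ s : Ctx.{u} k lam, (s.Wp.card : ℝ) ≤ C := by
  obtain ⟨C, hC, h⟩ := S_Tm_bound.{u} k hk
  have hk' : (2 : ℝ) ≤ k := by exact_mod_cast hk
  refine ⟨96 * k ^ 2 * C + k, by positivity, ?_⟩
  filter_upwards [h, eventually_gt_atTop (4 * (k : ℝ) ^ 2 + 1), eventually_gt_atTop (8 * C)]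
    with lam hlam h1 h2 s
  have hlam0 : 0 < lam := by nlinarith
  have hSC : s.S ≤ C := by
    have := hlam s
    have := s.Tm_nonneg
    linarith
  by_contra hc
  push Not at hc
  have hW : ∀ w ∈ s.Wp, w ∈ s.W ∧ 1 / 2 ≤ s.x w := fun w hw => mem_filter.1 hw
  have hdg : ∀ w ∈ s.Wp, lam / 4 ≤ s.dg s.N w := by
    intro w hw
    have e1 := s.eig_W (hW w hw).1
    have e2 := s.nx_le_dg s.W w
    have e3 := s.nx_le_dg s.N w
    have e4 := s.dgW_le w (hW w hw).1
    have e5 : 1 / 2 * lam ≤ lam * s.x w := by nlinarith [(hW w hw).2]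
    linarith
  have hsum1 : lam * ∑ w ∈ s.Wp, (1 - s.x w) ≤ 4 * C := by
    have e1 : ∑ w ∈ s.Wp, (lam / 4) * (1 - s.x w) ≤ ∑ w ∈ s.Wp, s.dg s.N w * (1 - s.x w) :=
      sum_le_sum fun w hw => mul_le_mul_of_nonneg_right (hdg w hw) (by
        have := s.x1 w; linarith)
    have e2 := s.S_first_sub s.Wp_sub
    rw [← mul_sum] at e1
    linarith
  have hsum2 : ∑ w ∈ s.Wp, s.df w ≤ 6 * C := by
    have e1 : ∑ w ∈ s.Wp, s.df w ≤ ∑ w ∈ s.Wp, (lam * (1 - s.x w) + s.dg s.W w) := by
      refine sum_le_sum fun w hw => ?_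
      rw [s.df_eq]
      have e1 := s.eig_W (hW w hw).1
      have e2 := s.nx_le_dg s.W w
      linarith
    rw [sum_add_distrib, ← mul_sum] at e1
    have e2 := s.S_second_sub s.Wp_sub
    linarith
  set Good := s.Wp.filter (fun w => s.df w ≤ 1 / (16 * k ^ 2)) with hGood
  have hBad : ((s.Wp.filter (fun w => ¬ s.df w ≤ 1 / (16 * k ^ 2))).card : ℝ) ≤ 96 * k ^ 2 * C := by
    have e1 : ∑ w ∈ s.Wp.filter (fun w => ¬ s.df w ≤ 1 / (16 * k ^ 2)), (1 / (16 * k ^ 2) : ℝ) ≤
        ∑ w ∈ s.Wp.filter (fun w => ¬ s.df w ≤ 1 / (16 * k ^ 2)), s.df w :=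
      sum_le_sum fun w hw => (lt_of_not_ge (mem_filter.1 hw).2).le
    have e2 : ∑ w ∈ s.Wp.filter (fun w => ¬ s.df w ≤ 1 / (16 * k ^ 2)), s.df w ≤
        ∑ w ∈ s.Wp, s.df w :=
      sum_le_sum_of_subset_of_nonneg (filter_subset _ _) fun w _ _ => s.df_nonneg w
    rw [sum_const, nsmul_eq_mul] at e1
    have e3 : ((s.Wp.filter (fun w => ¬ s.df w ≤ 1 / (16 * k ^ 2))).card : ℝ) * (1 / (16 * k ^ 2)) ≤
        6 * C := by linarith
    rw [mul_one_div, div_le_iff₀ (by positivity)] at e3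
    linarith
  have hGoodc : k ≤ Good.card := by
    have e1 : (Good.card : ℝ) + ((s.Wp.filter (fun w => ¬ s.df w ≤ 1 / (16 * k ^ 2))).card : ℝ) =
        s.Wp.card := by
      have := card_filter_add_card_filter_not (s := s.Wp) (fun w => s.df w ≤ 1 / (16 * k ^ 2))
      rw [← this, Nat.cast_add]
    have e2 : (k : ℝ) < Good.card := by linarith
    have e3 : k < Good.card := by exact_mod_cast e2
    omega
  obtain ⟨D, hD1, hD2⟩ := exists_subset_card_eq hGoodc
  exact s.D_false hk h1 D (fun w hw => (hW w (mem_filter.1 (hD1 hw)).1).1) hD2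
    (fun w hw => (mem_filter.1 (hD1 hw)).2)

end Pool.Agent.Helper31.Fan
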