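import Mathlib
import Pool.Agent.Helper31.Fan.Steps4

namespace Pool.Agent.Helper31.Fan

open Finset Filter
open scoped Classical

universe u

theorem aux_mul_le {a b c : ℝ} (ha0 : 0 ≤ a) (ha : a ≤ c) (hb : b ≤ 1) : a * b ≤ c := by
  nlinarith

theorem aux_mul_le2 {a b c d : ℝ} (ha0 : 0 ≤ a) (ha : a ≤ d) (hb : b ≤ 1) (hc : 0 ≤ c) :
    a * b ≤ c + d := by
  nlinarith

theorem aux_half {lam x : ℝ} (hlam : 0 ≤ lam) (hx : 1 / 2 ≤ x) : 1 / 2 * lam ≤ lam * x := by
  nlinarith

theorem aux_eighth {lam x : ℝ} (hlam : 0 ≤ lam) (hx : 1 / 8 ≤ x) : 1 / 8 * lam ≤ lam * x := by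
  nlinarith

theorem aux_c1 {C8 C C10 CP : ℝ} (h1 : 1 ≤ C8) (h2 : 1 ≤ C) (h3 : 0 ≤ C10) (h4 : 1 ≤ CP) :
    1 ≤ 8 * C8 * (C + C10 + CP) + C8 := by
  have : 0 ≤ 8 * C8 * (C + C10 + CP) := by
    apply mul_nonneg <;> linarith
  linarith

theorem aux_c2 {lam d C8 : ℝ} (h : lam / 4 * lam ≤ d * C8) : lam ^ 2 ≤ d * (4 * C8) := by
  nlinarith

theorem aux_c3 {lam C C8 : ℝ} (h1 : 16 * C8 * C < lam) (h2 : 1 < lam) :
    4 * C * (4 * C8) ≤ lam ^ 2 := by
  nlinarith

namespace Ctx

variable {k : ℕ} {lam : ℝ} (s : Ctx.{u} k lam)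

/-- all big vertices -/
noncomputable def P : Finset s.V := univ.filter (fun a => 1 / 2 ≤ s.x a)

/-- all small vertices -/
noncomputable def R : Finset s.V := univ.filter (fun a => ¬ 1 / 2 ≤ s.x a)

/-- small vertices of the neighbourhood -/
noncomputable def Z : Finset s.V := s.N.filter (fun a => ¬ 1 / 2 ≤ s.x a)

theorem mem_P {a : s.V} : a ∈ s.P ↔ 1 / 2 ≤ s.x a := by simp [P]

theorem mem_R {a : s.V} : a ∈ s.R ↔ s.x a < 1 / 2 := by simp [R]

theorem mem_Z {a : s.V} : a ∈ s.Z ↔ a ∈ s.N ∧ s.x a < 1 / 2 := by simp [Z]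

theorem Z_sub : s.Z ⊆ s.N := filter_subset _ _

theorem P_eq : s.P = insert s.u (s.X ∪ s.Wp) := by
  ext a
  simp only [mem_P, mem_insert, mem_union, mem_X, Wp, mem_filter, mem_N, mem_W]
  constructor
  · intro h
    by_cases h1 : a = s.u
    · left; exact h1
    · right
      by_cases h2 : s.G.Adj s.u a
      · left; exact ⟨h2, h⟩
      · right; exact ⟨⟨h2, h1⟩, h⟩
  · rintro (rfl | ⟨_, h⟩ | ⟨_, h⟩)
    · rw [s.xu]; norm_num
    · exact h
    · exact h

theorem R_eq : s.R = s.Z ∪ s.Wm := by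
  ext a
  simp only [mem_R, mem_union, mem_Z, Wm, mem_filter, mem_N, mem_W]
  constructor
  · intro h
    have h1 : a ≠ s.u := by
      rintro rfl
      rw [s.xu] at h
      norm_num at h
    by_cases h2 : s.G.Adj s.u a
    · left; exact ⟨h2, h⟩
    · right; exact ⟨⟨h2, h1⟩, not_le.2 h⟩
  · rintro (⟨_, h⟩ | ⟨_, h⟩)
    · exact h
    · exact not_le.1 h

theorem ZWm_disj : Disjoint s.Z s.Wm := by
  rw [disjoint_left]
  intro a ha hb
  exact (s.mem_W.1 (s.Wm_sub hb)).1 (s.mem_N.1 (s.Z_sub ha))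

theorem sum_N_split (f : s.V → ℝ) : ∑ a ∈ s.N, f a = ∑ a ∈ s.X, f a + ∑ a ∈ s.Z, f a :=
  (sum_filter_add_sum_filter_not s.N _ f).symm

theorem sum_R_split (f : s.V → ℝ) : ∑ a ∈ s.R, f a = ∑ a ∈ s.Z, f a + ∑ a ∈ s.Wm, f a := by
  rw [s.R_eq, sum_union s.ZWm_disj]

theorem sum_PR_split (f : s.V → ℝ) : ∑ a, f a = ∑ a ∈ s.P, f a + ∑ a ∈ s.R, f a :=
  (sum_filter_add_sum_filter_not univ _ f).symm

theorem eig_PR (v : s.V) : lam * s.x v = s.nx s.P v + s.nx s.R v := by
  rw [← s.eig']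
  unfold nx
  exact s.sum_PR_split _

theorem nx_W_le {a : s.V} (ha : a ∈ s.N) : s.nx s.W a ≤ s.Wp.card + s.S := by
  rw [← s.nx_W_split]
  have h1 := s.nx_Wm_le ha
  have h2 := (s.nx_le_xs s.Wp a).trans (s.xs_le_card s.Wp)
  linarith

/-- lower bound of Tm by a row -/
theorem Tm_row {a : s.V} (ha : a ∈ s.N) (Y : Finset s.V) (hY : Y ⊆ s.N) (c : ℝ)
    (hc : ∀ b ∈ Y, c ≤ 1 - s.x a - s.x b) : c * s.dg Y a ≤ 2 * s.Tm := by
  have h1 : 2 * s.Tm = ∑ a ∈ s.N, ∑ b ∈ s.N, s.A a b * max (1 - s.x a - s.x b) 0 := by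
    unfold Tm; ring
  rw [h1]
  have h2 : ∑ b ∈ s.N, s.A a b * max (1 - s.x a - s.x b) 0 ≤
      ∑ a ∈ s.N, ∑ b ∈ s.N, s.A a b * max (1 - s.x a - s.x b) 0 :=
    single_le_sum (f := fun a => ∑ b ∈ s.N, s.A a b * max (1 - s.x a - s.x b) 0)
      (fun a _ => sum_nonneg fun b _ => mul_nonneg (s.A_nonneg _ _) (le_max_right _ _)) ha
  refine le_trans ?_ h2
  have h3 : ∑ b ∈ Y, s.A a b * max (1 - s.x a - s.x b) 0 ≤
      ∑ b ∈ s.N, s.A a b * max (1 - s.x a - s.x b) 0 :=
    sum_le_sum_of_subset_of_nonneg hY fun b _ _ => mul_nonneg (s.A_nonneg _ _) (le_max_right _ _)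
  refine le_trans ?_ h3
  unfold dg
  rw [mul_sum]
  refine sum_le_sum fun b hb => ?_
  rw [mul_comm]
  exact mul_le_mul_of_nonneg_left ((hc b hb).trans (le_max_left _ _)) (s.A_nonneg _ _)

/-- lower bound of Tm by a block -/
theorem Tm_block (Y : Finset s.V) (hY : Y ⊆ s.N) (c : ℝ)
    (hc : ∀ a ∈ Y, ∀ b ∈ Y, c ≤ 1 - s.x a - s.x b) : c * ∑ a ∈ Y, s.dg Y a ≤ 2 * s.Tm := by
  have h1 : 2 * s.Tm = ∑ a ∈ s.N, ∑ b ∈ s.N, s.A a b * max (1 - s.x a - s.x b) 0 := by
    unfold Tm; ring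
  rw [h1, mul_sum]
  have h2 : ∑ a ∈ Y, ∑ b ∈ s.N, s.A a b * max (1 - s.x a - s.x b) 0 ≤
      ∑ a ∈ s.N, ∑ b ∈ s.N, s.A a b * max (1 - s.x a - s.x b) 0 :=
    sum_le_sum_of_subset_of_nonneg hY
      (fun a _ _ => sum_nonneg fun b _ => mul_nonneg (s.A_nonneg _ _) (le_max_right _ _))
  refine le_trans ?_ h2
  refine sum_le_sum fun a ha => ?_
  have h3 : ∑ b ∈ Y, s.A a b * max (1 - s.x a - s.x b) 0 ≤
      ∑ b ∈ s.N, s.A a b * max (1 - s.x a - s.x b) 0 :=
    sum_le_sum_of_subset_of_nonneg hY fun b _ _ => mul_nonneg (s.A_nonneg _ _) (le_max_right _ _)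
  refine le_trans ?_ h3
  unfold dg
  rw [mul_sum]
  refine sum_le_sum fun b hb => ?_
  rw [mul_comm]
  exact mul_le_mul_of_nonneg_left ((hc a ha b hb).trans (le_max_left _ _)) (s.A_nonneg _ _)

end Ctx

/-- first structural bounds -/
theorem phase1 (k : ℕ) (hk : 2 ≤ k) :
    ∃ C : ℝ, 1 ≤ C ∧ ∀ᶠ lam : ℝ in atTop, ∀ s : Ctx.{u} k lam,
      s.S + s.Tm ≤ C ∧ (s.X.card ≤ 16 * k) ∧ (s.Wp.card : ℝ) ≤ C ∧ (∀ r ∈ s.Z, s.x r < 1 / 8) := by
  obtain ⟨C1, hC1, h1⟩ := S_Tm_bound.{u} k hk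
  obtain ⟨C2, hC2, h2⟩ := Wp_bound.{u} k hk
  refine ⟨C1 + C2 + 1, by linarith, ?_⟩
  filter_upwards [h1, h2, L_bound.{u} k (by omega), eventually_gt_atTop (16 * (1 + C1 + C2) : ℝ),
    eventually_gt_atTop (16 * (1 + C1 + C2 + 16 * k) : ℝ), eventually_gt_atTop (256 * C1 : ℝ),
    eventually_gt_atTop (0 : ℝ)]
    with lam h1 h2 hL h3 h4 h5 h6 s
  have hk' : (2 : ℝ) ≤ k := by exact_mod_cast hk
  have hST := h1 s
  have hWp := h2 s
  have hLc := hL s
  have hS0 := s.S_nonneg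
  have hT0 := s.Tm_nonneg
  -- every vertex of N with x ≥ 1/8 is in L
  have hbig : ∀ a ∈ s.N, 1 / 8 ≤ s.x a → a ∈ s.L := by
    intro a ha hxa
    have e1 := s.eig_N ha
    have e2 := s.nx_W_le ha
    refine mem_filter.2 ⟨ha, ?_⟩
    have e3 : 1 / 8 * lam ≤ lam * s.x a := aux_eighth h6.le hxa
    linarith
  have hXL : s.X ⊆ s.L := by
    intro a ha
    have := s.mem_X.1 ha
    exact hbig a this.1 (by linarith [this.2])
  refine ⟨by linarith, ?_, by linarith, ?_⟩
  · have := card_le_card hXL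
    omega
  · intro r hr
    by_contra hc
    push Not at hc
    have hrN := (s.mem_Z.1 hr).1
    have hr2 := (s.mem_Z.1 hr).2
    -- set F
    set F := s.N.filter (fun b => 1 / 8 ≤ s.x b) with hF
    have hFL : F ⊆ s.L := fun a ha => hbig a (mem_filter.1 ha).1 (mem_filter.1 ha).2
    have hFc : (F.card : ℝ) ≤ 16 * k := by
      have := card_le_card hFL
      have h' : F.card ≤ 16 * k := by omega
      exact_mod_cast h'
    have e1 := s.eig_N hrN
    have e2 := s.nx_W_le hrN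
    have e3 : 1 / 8 * lam ≤ lam * s.x r := aux_eighth h6.le hc
    have e4 := s.nx_filter_add s.N (fun b => 1 / 8 ≤ s.x b) r
    rw [← hF] at e4
    have e5 := (s.nx_le_xs F r).trans (s.xs_le_card F)
    have e6 : lam / 16 ≤ s.dg (s.N.filter (fun b => ¬ 1 / 8 ≤ s.x b)) r := by
      refine le_trans ?_ (s.nx_le_dg _ r)
      linarith
    have e7 := s.Tm_row hrN (s.N.filter (fun b => ¬ 1 / 8 ≤ s.x b)) (filter_subset _ _) (3 / 8) (by
      intro b hb
      have := lt_of_not_ge (mem_filter.1 hb).2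
      linarith)
    linarith

theorem phase2 (k : ℕ) (hk : 2 ≤ k) :
    ∃ C : ℝ, 1 ≤ C ∧ ∀ᶠ lam : ℝ in atTop, ∀ s : Ctx.{u} k lam,
      (s.P.card : ℝ) ≤ C ∧ (∑ r ∈ s.R, s.dg s.R r ≤ C) ∧ (∀ r ∈ s.R, s.x r ≤ C / lam) ∧
      (∀ v ∈ s.P, 1 - s.x v ≤ C / lam ^ 2) := by
  obtain ⟨C, hC, h⟩ := phase1.{u} k hk
  -- constants
  set CP : ℝ := 1 + 16 * k + C with hCP
  set C8 : ℝ := CP + 9 * C with hC8
  set C10 : ℝ := (16 * k) ^ 2 + (16 * k) * ((((16 * k).choose k * k : ℕ)) : ℝ) + k ^ 2 with hC10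
  have hk' : (2 : ℝ) ≤ k := by exact_mod_cast hk
  have hCP1 : 1 ≤ CP := by rw [hCP]; linarith
  have hC81 : 1 ≤ C8 := by rw [hC8]; linarith
  have hC100 : 0 ≤ C10 := by rw [hC10]; positivity
  refine ⟨8 * C8 * (C + C10 + CP) + C8, aux_c1 hC81 hC hC100 hCP1, ?_⟩
  filter_upwards [h, eventually_gt_atTop (4 * CP), eventually_gt_atTop (16 * C8 * C),
    eventually_gt_atTop (1 : ℝ)] with lam hlam h1 h2 h3 s
  obtain ⟨hST, hXc, hWp, hZ⟩ := hlam s
  have hlam0 : 0 < lam := by linarith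
  have hS0 := s.S_nonneg
  have hT0 := s.Tm_nonneg
  have hSC : s.S ≤ C := by linarith
  have hTC : s.Tm ≤ C := by linarith
  have hXc' : (s.X.card : ℝ) ≤ 16 * k := by exact_mod_cast hXc
  have hbig1 : 0 ≤ 8 * C8 * (C + C10 + CP) := by
    apply mul_nonneg <;> linarith
  have hPc : (s.P.card : ℝ) ≤ CP := by
    have e1 : s.P.card ≤ 1 + (s.X.card + s.Wp.card) := by
      rw [s.P_eq]
      refine (card_insert_le _ _).trans ?_
      have := card_union_le s.X s.Wp
      omega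
    have e2 : (s.P.card : ℝ) ≤ 1 + (s.X.card + s.Wp.card) := by exact_mod_cast e1
    linarith
  -- edges inside R
  have hWmN : ∑ w ∈ s.Wm, s.dg s.N w ≤ 2 * C := by
    have := s.Wm_sum; linarith
  have hRR : ∑ r ∈ s.R, s.dg s.R r ≤ 9 * C := by
    have e1 : ∑ r ∈ s.R, s.dg s.R r =
        ∑ a ∈ s.Z, s.dg s.Z a + 2 * ∑ w ∈ s.Wm, s.dg s.Z w + ∑ w ∈ s.Wm, s.dg s.Wm w := by
      have e2 : ∀ r, s.dg s.R r = s.dg s.Z r + s.dg s.Wm r := fun r => s.sum_R_split _
      rw [s.sum_R_split]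
      simp only [e2, sum_add_distrib]
      rw [s.sum_dg_comm s.Z s.Wm]
      ring
    have e2 : 3 / 4 * ∑ a ∈ s.Z, s.dg s.Z a ≤ 2 * s.Tm := by
      apply s.Tm_block s.Z s.Z_sub
      intro a ha b hb
      have := hZ a ha
      have := hZ b hb
      linarith
    have e3 : ∑ w ∈ s.Wm, s.dg s.Z w ≤ 2 * C := by
      refine le_trans (sum_le_sum fun w _ => s.dg_mono s.Z_sub w) hWmN
    have e4 : ∑ w ∈ s.Wm, s.dg s.Wm w ≤ 2 * C := by
      refine le_trans (sum_le_sum fun w _ => s.dg_mono s.Wm_sub w) ?_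
      have := s.S_second_sub s.Wm_sub
      linarith
    rw [e1]
    linarith
  -- small entries
  have hxR : ∀ r ∈ s.R, s.x r ≤ C8 / lam := by
    intro r hr
    rw [le_div_iff₀ hlam0]
    have e1 := s.eig_PR r
    have e2 := (s.nx_le_xs s.P r).trans (s.xs_le_card s.P)
    have e3 := s.nx_le_dg s.R r
    have e4 : s.dg s.R r ≤ ∑ r ∈ s.R, s.dg s.R r :=
      single_le_sum (f := fun r => s.dg s.R r) (fun v _ => s.dg_nonneg _ _) hr
    rw [hC8]
    linarith
  -- degrees of the big vertices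
  have hdR : ∀ v ∈ s.P, lam ^ 2 / (4 * C8) ≤ s.dg s.R v := by
    intro v hv
    have e1 := s.eig_PR v
    have e2 := (s.nx_le_xs s.P v).trans (s.xs_le_card s.P)
    have e3 : s.nx s.R v ≤ s.dg s.R v * (C8 / lam) := by
      unfold Ctx.nx Ctx.dg
      rw [sum_mul]
      exact sum_le_sum fun r hr => mul_le_mul_of_nonneg_left (hxR r hr) (s.A_nonneg _ _)
    have e4 : 1 / 2 * lam ≤ lam * s.x v := aux_half hlam0.le (s.mem_P.1 hv)
    have e5 : lam / 4 ≤ s.dg s.R v * (C8 / lam) := by linarith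
    rw [mul_div_assoc', le_div_iff₀ hlam0] at e5
    rw [div_le_iff₀ (by linarith)]
    exact aux_c2 e5
  have hC8lam : 4 * C ≤ lam ^ 2 / (4 * C8) := by
    rw [le_div_iff₀ (by linarith)]
    exact aux_c3 h2 h3
  refine ⟨by linarith, by linarith, ?_, ?_⟩
  · intro r hr
    refine (hxR r hr).trans ?_
    rw [div_le_div_iff_of_pos_right hlam0]
    linarith
  · intro v hv
    have hlam2 : 0 < lam ^ 2 := by positivity
    rw [le_div_iff₀ hlam2]
    have hxv1 := s.x1 v
    have hdv := hdR v hv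
    -- it suffices to bound (1 - x v) * (lam^2 / (8 C8)) by C + C10 + CP
    suffices hsuff : (1 - s.x v) * (lam ^ 2 / (8 * C8)) ≤ C + C10 + CP by
      have e1 : (1 - s.x v) * lam ^ 2 = (1 - s.x v) * (lam ^ 2 / (8 * C8)) * (8 * C8) := by
        field_simp
      rw [e1]
      have e2 : (1 - s.x v) * (lam ^ 2 / (8 * C8)) * (8 * C8) ≤ (C + C10 + CP) * (8 * C8) :=
        mul_le_mul_of_nonneg_right hsuff (by linarith)
      linarith
    have hhalf : lam ^ 2 / (8 * C8) = lam ^ 2 / (4 * C8) / 2 := by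
      rw [div_div]; congr 1; ring
    have hvR : s.dg s.R v = s.dg s.Z v + s.dg s.Wm v := s.sum_R_split _
    have hv' := hv
    rw [s.P_eq] at hv'
    rcases mem_insert.1 hv' with rfl | hv'
    · rw [s.xu]
      simp
      linarith
    · rcases mem_union.1 hv' with hvX | hvW
      · -- v ∈ X
        have hvN := s.X_sub hvX
        have e1 : s.dg s.Wm v ≤ 2 * C := by
          refine le_trans ?_ hWmN
          unfold Ctx.dg
          refine sum_le_sum fun w _ => ?_
          rw [s.A_symm]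
          exact single_le_sum (f := fun b => s.A w b) (fun b _ => s.A_nonneg _ _) hvN
        have e2 : lam ^ 2 / (8 * C8) ≤ s.dg s.Z v := by
          rw [hhalf]
          linarith
        have e3 : (1 - s.x v) * (lam ^ 2 / (8 * C8)) ≤ (1 - s.x v) * s.dg s.Z v :=
          mul_le_mul_of_nonneg_left e2 (by linarith)
        have e4 : (1 - s.x v) * s.dg s.Z v ≤ ∑ a ∈ s.X, (1 - s.x a) * s.dg s.Z a :=
          single_le_sum (f := fun a => (1 - s.x a) * s.dg s.Z a)
            (fun a _ => mul_nonneg (by have := s.x1 a; linarith) (s.dg_nonneg _ _)) hvX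
        -- the T identity
        have hT := s.T_eq
        have e5 : s.Tp - s.Tm = ∑ a ∈ s.X, s.dg s.X a * s.x a - 1 / 2 * ∑ a ∈ s.X, s.dg s.X a +
            (∑ b ∈ s.Z, s.dg s.X b * s.x b - ∑ a ∈ s.X, (1 - s.x a) * s.dg s.Z a) +
            ∑ a ∈ s.Z, s.dg s.Z a * (s.x a - 1 / 2) := by
          rw [hT]
          have f1 : ∀ r, s.dg s.N r = s.dg s.X r + s.dg s.Z r := fun r => s.sum_N_split _
          rw [s.sum_N_split, s.sum_N_split]
          simp only [f1, add_mul, sum_add_distrib]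
          have f2 : ∑ a ∈ s.X, (1 - s.x a) * s.dg s.Z a =
              ∑ a ∈ s.X, s.dg s.Z a - ∑ a ∈ s.X, s.dg s.Z a * s.x a := by
            rw [← sum_sub_distrib]
            refine sum_congr rfl fun a _ => by ring
          have f3 : ∑ a ∈ s.Z, s.dg s.Z a * (s.x a - 1 / 2) =
              ∑ a ∈ s.Z, s.dg s.Z a * s.x a - 1 / 2 * ∑ a ∈ s.Z, s.dg s.Z a := by
            rw [mul_sum, ← sum_sub_distrib]
            refine sum_congr rfl fun a _ => by ring
          rw [f2, f3, s.sum_dg_comm s.X s.Z]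
          ring
        have e6 : ∑ a ∈ s.Z, s.dg s.Z a * (s.x a - 1 / 2) ≤ 0 := by
          refine sum_nonpos fun a ha => ?_
          have := hZ a ha
          exact mul_nonpos_of_nonneg_of_nonpos (s.dg_nonneg s.Z a) (by linarith)
        have e7 : ∑ a ∈ s.X, s.dg s.X a * s.x a - 1 / 2 * ∑ a ∈ s.X, s.dg s.X a ≤ (16 * k) ^ 2 := by
          have f1 : ∑ a ∈ s.X, s.dg s.X a * s.x a ≤ ∑ a ∈ s.X, (16 * k : ℝ) := by
            refine sum_le_sum fun a _ => ?_
            exact aux_mul_le (s.dg_nonneg s.X a) ((s.dg_le_card s.X a).trans hXc') (s.x1 a)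
          have f2 : 0 ≤ ∑ a ∈ s.X, s.dg s.X a := sum_nonneg fun a _ => s.dg_nonneg _ _
          rw [sum_const, nsmul_eq_mul] at f1
          have f3 : (s.X.card : ℝ) * (16 * k) ≤ (16 * k) * (16 * k) :=
            mul_le_mul_of_nonneg_right hXc' (by positivity)
          have f4 : (16 * (k : ℝ)) * (16 * k) = (16 * k) ^ 2 := by ring
          linarith
        have e8 : ∑ b ∈ s.Z, s.dg s.X b * s.x b ≤
            (k - 1) * lam + (16 * k) * ((((16 * k).choose k * k : ℕ)) : ℝ) := by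
          set M := s.N.filter (fun b => (k : ℝ) ≤ s.dg s.X b) with hM
          have hMc : (M.card : ℝ) ≤ ((((16 * k).choose k * k : ℕ)) : ℝ) := by
            have f1 := s.comm_bound s.X_sub
            have f2 : s.X.card.choose k ≤ (16 * k).choose k := Nat.choose_le_choose k hXc
            have f3 : s.X.card.choose k * k ≤ (16 * k).choose k * k := Nat.mul_le_mul_right k f2
            exact_mod_cast f1.trans f3
          have f1 : ∀ b ∈ s.Z, s.dg s.X b * s.x b ≤
              (k - 1) * s.x b + (if b ∈ M then (16 * k : ℝ) else 0) := by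
            intro b hb
            have hbN := s.Z_sub hb
            have g1 := s.dg_le_card s.X b
            have g2 := s.x0 b
            have g3 := s.x1 b
            have g4 := s.dg_nonneg s.X b
            split_ifs with hbM
            · exact aux_mul_le2 g4 (g1.trans hXc') g3 (mul_nonneg (by linarith) g2)
            · have hlt : s.dg s.X b < k := by
                by_contra hcc
                push Not at hcc
                exact hbM (mem_filter.2 ⟨hbN, hcc⟩)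
              have hle : s.dg s.X b ≤ k - 1 := by
                rw [s.dg_eq_card] at hlt ⊢
                have : (s.X.filter (fun b_1 => s.G.Adj b b_1)).card < k := by exact_mod_cast hlt
                have : (s.X.filter (fun b_1 => s.G.Adj b b_1)).card + 1 ≤ k := this
                have h' : (((s.X.filter (fun b_1 => s.G.Adj b b_1)).card : ℝ)) + 1 ≤ k := by
                  exact_mod_cast this
                linarith
              have := mul_le_mul_of_nonneg_right hle g2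
              linarith
          have f2 := sum_le_sum f1
          rw [sum_add_distrib, ← mul_sum] at f2
          have f3 : ∑ b ∈ s.Z, s.x b ≤ lam := by
            have := s.xs_mono s.Z_sub
            rw [s.xs_N] at this
            exact this
          have f4 : ∑ b ∈ s.Z, (if b ∈ M then (16 * k : ℝ) else 0) ≤
              (16 * k) * ((((16 * k).choose k * k : ℕ)) : ℝ) := by
            rw [← sum_filter, sum_const, nsmul_eq_mul]
            have g1 : (s.Z.filter (fun b => b ∈ M)).card ≤ M.card :=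
              card_le_card (fun b hb => (mem_filter.1 hb).2)
            have g2 : ((s.Z.filter (fun b => b ∈ M)).card : ℝ) ≤
                ((((16 * k).choose k * k : ℕ)) : ℝ) := le_trans (by exact_mod_cast g1) hMc
            rw [mul_comm]
            exact mul_le_mul_of_nonneg_left g2 (by positivity)
          have f5 : ((k : ℝ) - 1) * ∑ b ∈ s.Z, s.x b ≤ (k - 1) * lam :=
            mul_le_mul_of_nonneg_left f3 (by linarith)
          linarith
        have e9 := s.main_ineq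
        rw [hC10]
        rw [hC10] at hC100
        linarith
      · -- v ∈ Wp
        have hvW' := s.Wp_sub hvW
        have e1 : s.dg s.R v ≤ s.dg s.N v + s.dg s.W v := by
          rw [hvR]
          have := s.dg_mono s.Z_sub v
          have := s.dg_mono s.Wm_sub v
          linarith
        have e2 := s.dgW_le v hvW'
        have e3 : lam ^ 2 / (8 * C8) ≤ s.dg s.N v := by
          rw [hhalf]
          linarith
        have e4 : s.dg s.N v * (1 - s.x v) ≤ ∑ w ∈ s.W, s.dg s.N w * (1 - s.x w) :=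
          single_le_sum (f := fun w => s.dg s.N w * (1 - s.x w))
            (fun a _ => mul_nonneg (s.dg_nonneg _ _) (by have := s.x1 a; linarith)) hvW'
        have e5 := s.S_first_le
        have e6 : (1 - s.x v) * (lam ^ 2 / (8 * C8)) ≤ (1 - s.x v) * s.dg s.N v :=
          mul_le_mul_of_nonneg_left e3 (by linarith)
        linarith

end Pool.Agent.Helper31.Fan
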