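import Mathlib
import Pool.Agent.Helper31.Fan.Steps5

namespace Pool.Agent.Helper31.Fan

open Finset Filter
open scoped Classical

universe u

namespace Ctx

variable {k : ℕ} {lam : ℝ} (s : Ctx.{u} k lam)

theorem m_PR : 2 * s.m = ∑ v ∈ s.P, s.dg s.P v + 2 * ∑ v ∈ s.P, s.dg s.R v +
    ∑ r ∈ s.R, s.dg s.R r := by
  rw [← s.two_m]
  have : ∑ v, ∑ w, adj s.G v w = ∑ v, s.dg univ v := rfl
  rw [this, s.sum_PR_split]
  have e : ∀ v, s.dg univ v = s.dg s.P v + s.dg s.R v := fun v => s.sum_PR_split _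
  simp only [e, sum_add_distrib]
  rw [s.sum_dg_comm s.R s.P]
  ring

/-- the total weight of the small vertices -/
theorem lam_xsR {C : ℝ} (hlam : 0 < lam) (hC : 1 ≤ C) (h1 : ∑ r ∈ s.R, s.dg s.R r ≤ C)
    (h2 : ∀ r ∈ s.R, s.x r ≤ C / lam) :
    lam * s.xs s.R ≤ s.m - 1 / 2 * ∑ v ∈ s.P, s.dg s.P v - 1 / 2 * ∑ r ∈ s.R, s.dg s.R r +
      C ^ 2 / lam := by
  have e1 : lam * s.xs s.R = ∑ r ∈ s.R, s.nx s.P r + ∑ r ∈ s.R, s.nx s.R r := by
    unfold xs
    rw [mul_sum, ← sum_add_distrib]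
    exact sum_congr rfl fun r _ => s.eig_PR r
  have e2 : ∑ r ∈ s.R, s.nx s.P r ≤ ∑ v ∈ s.P, s.dg s.R v := by
    rw [s.sum_nx_comm]
    refine sum_le_sum fun v _ => ?_
    have := s.x1 v
    have := s.dg_nonneg s.R v
    nlinarith
  have e3 : ∑ r ∈ s.R, s.nx s.R r ≤ C ^ 2 / lam := by
    rw [s.sum_nx_comm]
    have e4 : ∑ r ∈ s.R, s.dg s.R r * s.x r ≤ ∑ r ∈ s.R, s.dg s.R r * (C / lam) :=
      sum_le_sum fun r hr => mul_le_mul_of_nonneg_left (h2 r hr) (s.dg_nonneg _ _)
    rw [← sum_mul] at e4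
    have e5 : 0 ≤ C / lam := by positivity
    have e6 : (∑ r ∈ s.R, s.dg s.R r) * (C / lam) ≤ C * (C / lam) :=
      mul_le_mul_of_nonneg_right h1 e5
    have e7 : C * (C / lam) = C ^ 2 / lam := by ring
    linarith
  have e4 := s.m_PR
  linarith

theorem dg_int {Y : Finset s.V} {v : s.V} {j : ℕ} (h : (j : ℝ) - 1 < s.dg Y v) :
    (j : ℝ) ≤ s.dg Y v := by
  rw [s.dg_eq_card] at h ⊢
  have : (j : ℝ) < (Y.filter (fun b => s.G.Adj v b)).card + 1 := by linarith
  have : j < (Y.filter (fun b => s.G.Adj v b)).card + 1 := by exact_mod_cast this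
  exact_mod_cast Nat.lt_succ_iff.1 this

end Ctx

theorem phase3 (k : ℕ) (hk : 2 ≤ k) :
    ∃ C : ℝ, 1 ≤ C ∧ ∀ᶠ lam : ℝ in atTop, ∀ s : Ctx.{u} k lam, ∀ l : ℕ, 1 ≤ l → l ≤ k - 1 →
      s.m - k * (k - 1) / 2 - l * (k - l) / k ≤ lam ^ 2 - (k - 1) * lam →
      (∑ r ∈ s.R, s.dg s.R r ≤ C) ∧ (∀ r ∈ s.R, s.x r ≤ C / lam) ∧
      (∀ v ∈ s.P, 1 - s.x v ≤ C / lam ^ 2) ∧ s.P.card = k ∧ (∀ v ∈ s.P, s.dg s.P v = k - 1) ∧
      lam ^ 2 - (k - 1) * lam ≤ s.m - k * (k - 1) / 2 - 1 / 2 * ∑ r ∈ s.R, s.dg s.R r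
        + C ^ 2 / lam := by
  obtain ⟨C, hC, h⟩ := phase2.{u} k hk
  have hk' : (2 : ℝ) ≤ k := by exact_mod_cast hk
  refine ⟨C, hC, ?_⟩
  filter_upwards [h, eventually_gt_atTop (1 : ℝ), eventually_gt_atTop (k ^ 2 + C ^ 2 + C : ℝ),
    eventually_gt_atTop (C + (k + 1) * (C + 2) + (k + 1) : ℝ), eventually_gt_atTop (12 * C ^ 2 : ℝ)]
    with lam hlam h1 h2 h3 h4 s l hl1 hl2 hB
  obtain ⟨hPc, hRR, hxR, hxP⟩ := hlam s
  have hlam0 : 0 < lam := by linarith
  have hlR : (l : ℝ) + 1 ≤ k := by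
    have : l + 1 ≤ k := by omega
    exact_mod_cast this
  have hl1R : (1 : ℝ) ≤ l := by exact_mod_cast hl1
  have hxs := s.lam_xsR hlam0 hC hRR hxR
  have hPP0 : 0 ≤ ∑ v ∈ s.P, s.dg s.P v := sum_nonneg fun v _ => s.dg_nonneg _ _
  have hRR0 : 0 ≤ ∑ v ∈ s.R, s.dg s.R v := sum_nonneg fun v _ => s.dg_nonneg _ _
  have hClam : C ^ 2 / lam ≤ C ^ 2 := div_le_self (by positivity) h1.le
  have hClam4 : C ^ 2 / lam < 1 / 12 := by
    rw [div_lt_div_iff₀ hlam0 (by norm_num)]
    linarith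
  -- upper bound for xs R
  have hxsR : s.xs s.R ≤ lam - (k - 1) + (k ^ 2 + C ^ 2) / lam := by
    have e1 := s.big
    have e2 : lam * s.xs s.R ≤ lam ^ 2 - (k - 1) * lam + (k ^ 2 + C ^ 2) := by linarith
    have e3 : lam - (k - 1) + (k ^ 2 + C ^ 2) / lam =
        (lam ^ 2 - (k - 1) * lam + (k ^ 2 + C ^ 2)) / lam := by
      field_simp
    rw [e3, le_div_iff₀ hlam0]
    linarith
  have hsmall : (k ^ 2 + C ^ 2 + C) / lam < 1 := by
    rw [div_lt_one hlam0]; linarith
  have hsplitdiv : (k ^ 2 + C ^ 2 + C) / lam = (k ^ 2 + C ^ 2) / lam + C / lam := by ring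
  have hdPle : ∀ v, s.dg s.P v ≤ C := fun v => (s.dg_le_card _ _).trans hPc
  -- weights of the neighbourhoods
  have hlx : ∀ v ∈ s.P, lam - C / lam ≤ lam * s.x v := by
    intro v hv
    have e1 := hxP v hv
    have e2 : lam * (1 - s.x v) ≤ lam * (C / lam ^ 2) := mul_le_mul_of_nonneg_left e1 hlam0.le
    have e3 : lam * (C / lam ^ 2) = C / lam := by field_simp
    linarith
  have hnxR : ∀ v ∈ s.P, lam - C / lam - s.dg s.P v ≤ s.nx s.R v := by
    intro v hv
    have e1 := s.eig_PR v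
    have e2 := s.nx_le_dg s.P v
    have := hlx v hv
    linarith
  -- lower bound on the degree
  have hdlow : ∀ v ∈ s.P, ((k - 1 : ℕ) : ℝ) ≤ s.dg s.P v := by
    intro v hv
    apply s.dg_int
    have e1 := hnxR v hv
    have e2 := s.nx_le_xs s.R v
    have e3 : ((k - 1 : ℕ) : ℝ) = k - 1 := by
      rw [Nat.cast_sub (by omega)]; simp
    rw [e3]
    linarith
  -- upper bound on the degree
  have huP : s.u ∈ s.P := s.mem_P.2 (by rw [s.xu]; norm_num)
  have hdef : ∀ v ∈ s.P, s.xs s.R - s.nx s.R v ≤ C + 2 := by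
    intro v hv
    have e1 := hnxR v hv
    have e2 := hdPle v
    have e3 : 0 ≤ C / lam := by positivity
    have e4 : 0 ≤ (k ^ 2 + C ^ 2) / lam := by positivity
    linarith
  have hxsRlow : lam - C ≤ s.xs s.R := by
    have e1 := s.eig_PR s.u
    rw [s.xu] at e1
    have e2 := (s.nx_le_dg s.P s.u).trans (hdPle s.u)
    have e3 := s.nx_le_xs s.R s.u
    linarith
  have hdup : ∀ v ∈ s.P, s.dg s.P v ≤ k - 1 := by
    intro v hv
    by_contra hc
    rw [s.dg_eq_card] at hc
    have hc1 : k ≤ (s.P.filter (fun b => s.G.Adj v b)).card := by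
      by_contra hcc
      have : (s.P.filter (fun b => s.G.Adj v b)).card + 1 ≤ k := by omega
      have h' : ((s.P.filter (fun b => s.G.Adj v b)).card : ℝ) + 1 ≤ k := by exact_mod_cast this
      exact hc (by linarith)
    obtain ⟨A', hA'1, hA'2⟩ := exists_subset_card_eq hc1
    have hvA' : v ∉ A' := fun h => s.irr v (mem_filter.1 (hA'1 h)).2
    set A := insert v A' with hA
    have hAc : A.card = k + 1 := by rw [hA, card_insert_of_notMem hvA', hA'2]
    have hAP : ∀ a ∈ A, a ∈ s.P := by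
      intro a ha
      rcases mem_insert.1 ha with rfl | ha
      · exact hv
      · exact (mem_filter.1 (hA'1 ha)).1
    set B := s.R.filter (fun r => ∀ a ∈ A, s.G.Adj a r) with hBdef
    have hBx : s.xs s.R - (k + 1) * (C + 2) ≤ s.xs B := by
      have e1 : ∀ r ∈ s.R, s.x r - ∑ a ∈ A, s.x r * (1 - s.A a r) ≤
          if (∀ a ∈ A, s.G.Adj a r) then s.x r else 0 := by
        intro r _
        have hnn : ∀ a ∈ A, 0 ≤ s.x r * (1 - s.A a r) := fun a _ => by
          have := s.A_le_one a r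
          exact mul_nonneg (s.x0 r) (by linarith)
        split_ifs with hr
        · have := sum_nonneg hnn
          linarith
        · push Not at hr
          obtain ⟨a, ha, hna⟩ := hr
          have h5 := single_le_sum hnn ha
          rw [s.A_zero hna] at h5
          linarith
      have e2 := sum_le_sum e1
      rw [sum_sub_distrib, ← sum_filter] at e2
      have e3 : ∑ r ∈ s.R, ∑ a ∈ A, s.x r * (1 - s.A a r) ≤ (k + 1) * (C + 2) := by
        rw [sum_comm]
        have e4 : ∀ a ∈ A, ∑ r ∈ s.R, s.x r * (1 - s.A a r) ≤ C + 2 := by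
          intro a ha
          have e5 : ∑ r ∈ s.R, s.x r * (1 - s.A a r) = s.xs s.R - s.nx s.R a := by
            unfold Ctx.xs Ctx.nx
            rw [← sum_sub_distrib]
            exact sum_congr rfl fun r _ => by ring
          rw [e5]
          exact hdef a (hAP a ha)
        have e6 := sum_le_sum e4
        rw [sum_const, hAc, nsmul_eq_mul] at e6
        push_cast at e6
        exact e6
      have e7 : s.xs s.R = ∑ r ∈ s.R, s.x r := rfl
      have e8 : s.xs B = ∑ r ∈ s.R.filter (fun r => ∀ a ∈ A, s.G.Adj a r), s.x r := rfl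
      linarith
    have hBc : k + 1 ≤ B.card := by
      have e1 := s.xs_le_card B
      have e2 : ((k + 1 : ℕ) : ℝ) ≤ B.card := by
        push_cast
        linarith
      exact_mod_cast e2
    refine s.f1 v A' B hA'2 hBc ?_ ?_ ?_
    · intro b hb
      exact (mem_filter.1 (hA'1 hb)).2
    · intro b hb
      exact (mem_filter.1 hb).2 v (mem_insert_self _ _)
    · intro b hb c hc
      exact (mem_filter.1 hc).2 b (mem_insert_of_mem hb)
  have hdeq : ∀ v ∈ s.P, s.dg s.P v = k - 1 := by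
    intro v hv
    have e3 : ((k - 1 : ℕ) : ℝ) = k - 1 := by
      rw [Nat.cast_sub (by omega)]; simp
    have := hdlow v hv
    rw [e3] at this
    exact le_antisymm (hdup v hv) this
  have hPsum : ∑ v ∈ s.P, s.dg s.P v = s.P.card * (k - 1) := by
    rw [sum_congr rfl hdeq, sum_const, nsmul_eq_mul]
  -- lower bound for xs R
  have hxsRlow2 : lam - (k - 1) ≤ s.xs s.R := by
    have e1 := s.eig_PR s.u
    rw [s.xu] at e1
    have e2 := s.nx_le_dg s.P s.u
    rw [hdeq s.u huP] at e2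
    have e3 := s.nx_le_xs s.R s.u
    linarith
  have hmain : lam ^ 2 - (k - 1) * lam ≤ s.m - 1 / 2 * (s.P.card * (k - 1)) -
      1 / 2 * ∑ r ∈ s.R, s.dg s.R r + C ^ 2 / lam := by
    rw [hPsum] at hxs
    have : lam * (lam - (k - 1)) ≤ lam * s.xs s.R := mul_le_mul_of_nonneg_left hxsRlow2 hlam0.le
    linarith
  -- |P| ≥ k
  have hPk : k ≤ s.P.card := by
    have e1 := hdeq s.u huP
    have e2 : s.dg s.P s.u = s.dg (s.P.erase s.u) s.u := by
      unfold Ctx.dg
      rw [← add_sum_erase s.P _ huP, s.A_self, zero_add]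
    have e3 := s.dg_le_card (s.P.erase s.u) s.u
    rw [← e2, e1] at e3
    have e4 : (s.P.erase s.u).card + 1 = s.P.card := card_erase_add_one huP
    have e5 : ((s.P.erase s.u).card : ℝ) + 1 = s.P.card := by exact_mod_cast e4
    have e6 : (k : ℝ) ≤ s.P.card := by linarith
    exact_mod_cast e6
  have hlk : (l : ℝ) * (k - l) / k ≤ k / 4 := by
    rw [div_le_div_iff₀ (by linarith) (by norm_num)]
    nlinarith [sq_nonneg ((k : ℝ) - 2 * l)]
  have hPeq : s.P.card = k := by
    by_contra hne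
    have hgt : k + 1 ≤ s.P.card := by omega
    have hgtR : (k : ℝ) + 1 ≤ s.P.card := by exact_mod_cast hgt
    have hkey : 1 / 2 * ((s.P.card : ℝ) - k) * (k - 1) ≤ k / 4 + 1 / 12 := by
      nlinarith
    rcases Nat.lt_or_ge 2 k with hk3 | hk2
    · have hk3' : (3 : ℝ) ≤ k := by exact_mod_cast hk3
      nlinarith
    · have hk2' : k = 2 := by omega
      subst hk2'
      have hc4 : s.P.card < 4 := by
        by_contra hcc
        push Not at hcc
        have : (4 : ℝ) ≤ s.P.card := by exact_mod_cast hcc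
        push_cast at hkey
        linarith
      have hc3 : s.P.card = 3 := by omega
      obtain ⟨a, b, c, hab, hac, hbc, hPabc⟩ := card_eq_three.1 hc3
      have hda := hdeq a (by rw [hPabc]; simp)
      have hdb := hdeq b (by rw [hPabc]; simp)
      have hdc := hdeq c (by rw [hPabc]; simp)
      have hexp : ∀ v, s.dg s.P v = s.A v a + s.A v b + s.A v c := by
        intro v
        unfold Ctx.dg
        rw [hPabc, sum_insert (by simp [hab, hac]), sum_insert (by simp [hbc]), sum_singleton]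
        ring
      rw [hexp] at hda hdb hdc
      rw [s.A_self] at hda hdb hdc
      rw [s.A_symm b a] at hdb
      rw [s.A_symm c a, s.A_symm c b] at hdc
      push_cast at hda hdb hdc
      have hA01 : ∀ v w, s.A v w = 0 ∨ s.A v w = 1 := by
        intro v w
        by_cases hvw : s.G.Adj v w
        · right; exact s.A_one hvw
        · left; exact s.A_zero hvw
      rcases hA01 a b with h | h <;> rcases hA01 a c with h' | h' <;>
        rcases hA01 b c with h'' | h'' <;> linarith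
  refine ⟨hRR, hxR, hxP, hPeq, hdeq, ?_⟩
  rw [hPeq] at hmain
  linarith

end Pool.Agent.Helper31.Fan
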