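import Mathlib
import Pool.Agent.Helper31.Fan.Steps6

namespace Pool.Agent.Helper31.Fan

open Finset Filter
open scoped Classical

universe u

namespace Ctx

variable {k : ℕ} {lam : ℝ} (s : Ctx.{u} k lam)

/-- weighted degree -/
noncomputable def D (i : s.V) : ℝ := ∑ r ∈ s.R, s.A i r * s.dg s.P r

theorem D_nonneg (i : s.V) : 0 ≤ s.D i :=
  sum_nonneg fun r _ => mul_nonneg (s.A_nonneg _ _) (s.dg_nonneg _ _)

theorem sum_D : ∑ i ∈ s.P, s.D i = ∑ r ∈ s.R, s.dg s.P r ^ 2 := by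
  unfold D
  rw [sum_comm]
  refine sum_congr rfl fun r _ => ?_
  rw [← sum_mul, pow_two]
  congr 1
  unfold dg
  exact sum_congr rfl fun i _ => s.A_symm _ _

/-- the key identity -/
theorem kB_eq (hPc : s.P.card = k) (hP : ∀ v ∈ s.P, s.dg s.P v = k - 1) :
    (k : ℝ) * (lam ^ 2 - (k - 1) * lam) = ∑ r ∈ s.R, s.dg s.P r ^ 2 +
      ∑ i ∈ s.P, (1 - s.x i) * ((lam ^ 2 - (k - 1) * lam) - s.D i) +
      ∑ r ∈ s.R, s.dg s.P r * s.nx s.R r := by
  set B := lam ^ 2 - (k - 1) * lam with hB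
  have h1 : lam * (lam * ∑ j ∈ s.P, s.x j) = lam * ((k - 1) * ∑ j ∈ s.P, s.x j) +
      (∑ r ∈ s.R, s.dg s.P r * s.nx s.P r + ∑ r ∈ s.R, s.dg s.P r * s.nx s.R r) := by
    have e1 : lam * ∑ j ∈ s.P, s.x j = ∑ j ∈ s.P, s.nx s.P j + ∑ j ∈ s.P, s.nx s.R j := by
      rw [mul_sum, ← sum_add_distrib]
      exact sum_congr rfl fun j _ => s.eig_PR j
    have e2 : ∑ j ∈ s.P, s.nx s.P j = (k - 1) * ∑ j ∈ s.P, s.x j := by
      rw [s.sum_nx_comm, mul_sum]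
      exact sum_congr rfl fun j hj => by rw [hP j hj]
    have e3 : lam * ∑ j ∈ s.P, s.nx s.R j =
        ∑ r ∈ s.R, s.dg s.P r * s.nx s.P r + ∑ r ∈ s.R, s.dg s.P r * s.nx s.R r := by
      rw [s.sum_nx_comm, mul_sum, ← sum_add_distrib]
      refine sum_congr rfl fun r _ => ?_
      have := s.eig_PR r
      calc lam * (s.dg s.P r * s.x r) = s.dg s.P r * (lam * s.x r) := by ring
        _ = s.dg s.P r * (s.nx s.P r + s.nx s.R r) := by rw [this]
        _ = _ := by ring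
    rw [e1, e2, mul_add, e3]
  have h2 : ∑ r ∈ s.R, s.dg s.P r * s.nx s.P r = ∑ i ∈ s.P, s.x i * s.D i :=
    s.sum_mul_nx_comm _ _ _
  have h3 : ∑ i ∈ s.P, (1 - s.x i) * (B - s.D i) =
      k * B - B * ∑ i ∈ s.P, s.x i - ∑ i ∈ s.P, s.D i + ∑ i ∈ s.P, s.x i * s.D i := by
    have e1 : ∑ i ∈ s.P, (1 - s.x i) * (B - s.D i) =
        ∑ i ∈ s.P, (B - B * s.x i - s.D i + s.x i * s.D i) :=
      sum_congr rfl fun i _ => by ring
    rw [e1, sum_add_distrib, sum_sub_distrib, sum_sub_distrib, sum_const, hPc, nsmul_eq_mul,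
      ← mul_sum]
  rw [h3, s.sum_D]
  have h4 : B * ∑ i ∈ s.P, s.x i = ∑ i ∈ s.P, s.x i * s.D i +
      ∑ r ∈ s.R, s.dg s.P r * s.nx s.R r := by
    rw [hB]
    rw [h2] at h1
    linarith
  rw [h4]
  ring

theorem eps_le {C : ℝ} (hlam : 0 < lam) (hC : 1 ≤ C) (hPc : s.P.card = k)
    (h1 : ∑ r ∈ s.R, s.dg s.R r ≤ C)
    (h2 : ∀ r ∈ s.R, s.x r ≤ C / lam) :
    ∑ r ∈ s.R, s.dg s.P r * s.nx s.R r ≤ k * C ^ 2 / lam := by
  have e0 : 0 ≤ C / lam := by positivity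
  have e1 : ∀ r ∈ s.R, s.dg s.P r * s.nx s.R r ≤ k * (s.dg s.R r * (C / lam)) := by
    intro r _
    have f1 : s.nx s.R r ≤ s.dg s.R r * (C / lam) := by
      unfold nx dg
      rw [sum_mul]
      exact sum_le_sum fun r hr => mul_le_mul_of_nonneg_left (h2 r hr) (s.A_nonneg _ _)
    have f2 : s.dg s.P r ≤ k := by
      have := s.dg_le_card s.P r
      rwa [hPc] at this
    have f3 := s.dg_nonneg s.P r
    have f4 := s.nx_nonneg s.R r
    have f5 : 0 ≤ s.dg s.R r * (C / lam) := mul_nonneg (s.dg_nonneg _ _) e0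
    exact mul_le_mul f2 f1 f4 (by positivity)
  have e2 := sum_le_sum e1
  rw [← mul_sum, ← sum_mul] at e2
  refine e2.trans ?_
  have e3 : (∑ r ∈ s.R, s.dg s.R r) * (C / lam) ≤ C * (C / lam) :=
    mul_le_mul_of_nonneg_right h1 e0
  have e4 : (k : ℝ) * C ^ 2 / lam = k * (C * (C / lam)) := by ring
  rw [e4]
  exact mul_le_mul_of_nonneg_left e3 (by positivity)

theorem m_eq (hPc : s.P.card = k) (hP : ∀ v ∈ s.P, s.dg s.P v = k - 1) :
    s.m = k * (k - 1) / 2 + ∑ r ∈ s.R, s.dg s.P r + 1 / 2 * ∑ r ∈ s.R, s.dg s.R r := by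
  have h1 := s.m_PR
  have h2 : ∑ v ∈ s.P, s.dg s.P v = k * (k - 1) := by
    rw [sum_congr rfl hP, sum_const, hPc, nsmul_eq_mul]
  rw [h2, s.sum_dg_comm s.P s.R] at h1
  linarith

/-- one improvement step -/
theorem step {C U l : ℝ} (hlam : 0 < lam) (hC : 1 ≤ C) (hU : 0 ≤ U)
    (hk : 2 ≤ k)
    (hPc : s.P.card = k) (hP : ∀ v ∈ s.P, s.dg s.P v = k - 1)
    (h1 : ∑ r ∈ s.R, s.dg s.R r ≤ C)
    (h2 : ∀ r ∈ s.R, s.x r ≤ C / lam)
    (h3 : ∀ v ∈ s.P, 1 - s.x v ≤ C / lam ^ 2)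
    (hB : s.m - k * (k - 1) / 2 - l * (k - l) / k ≤ lam ^ 2 - (k - 1) * lam)
    (hU2 : ∀ i ∈ s.P, (lam ^ 2 - (k - 1) * lam) - s.D i ≤ U) :
    k * ∑ r ∈ s.R, s.dg s.P r - ∑ r ∈ s.R, s.dg s.P r ^ 2 + k / 2 * ∑ r ∈ s.R, s.dg s.R r ≤
      l * (k - l) + k * (C / lam ^ 2 * U) + k * C ^ 2 / lam := by
  have hk0 : (0 : ℝ) < k := by
    have : 0 < k := by omega
    exact_mod_cast this
  have e1 := s.kB_eq hPc hP
  have e2 := s.eps_le hlam hC hPc h1 h2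
  have e3 : ∑ i ∈ s.P, (1 - s.x i) * ((lam ^ 2 - (k - 1) * lam) - s.D i) ≤
      k * (C / lam ^ 2 * U) := by
    have f1 : ∀ i ∈ s.P, (1 - s.x i) * ((lam ^ 2 - (k - 1) * lam) - s.D i) ≤ C / lam ^ 2 * U := by
      intro i hi
      have g1 := s.x1 i
      calc (1 - s.x i) * ((lam ^ 2 - (k - 1) * lam) - s.D i) ≤ (1 - s.x i) * U :=
            mul_le_mul_of_nonneg_left (hU2 i hi) (by linarith)
        _ ≤ C / lam ^ 2 * U := mul_le_mul_of_nonneg_right (h3 i hi) hU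
    have f2 := sum_le_sum f1
    rw [sum_const, hPc, nsmul_eq_mul] at f2
    exact f2
  have e4 := s.m_eq hPc hP
  have e5 : (k : ℝ) * (s.m - k * (k - 1) / 2 - l * (k - l) / k) ≤
      k * (lam ^ 2 - (k - 1) * lam) := mul_le_mul_of_nonneg_left hB hk0.le
  have e6 : (k : ℝ) * (s.m - k * (k - 1) / 2 - l * (k - l) / k) =
      k * ∑ r ∈ s.R, s.dg s.P r + k / 2 * ∑ r ∈ s.R, s.dg s.R r - l * (k - l) := by
    rw [e4]
    field_simp
    ring
  linarith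

end Ctx

theorem phase4 (k : ℕ) (hk : 2 ≤ k) :
    ∀ᶠ lam : ℝ in atTop, ∀ s : Ctx.{u} k lam, ∀ l : ℕ, 1 ≤ l → l ≤ k - 1 →
      s.m - k * (k - 1) / 2 - l * (k - l) / k ≤ lam ^ 2 - (k - 1) * lam →
      s.P.card = k ∧ (∀ v ∈ s.P, s.dg s.P v = k - 1) ∧
      2 * (k * ∑ r ∈ s.R, s.dg s.P r - ∑ r ∈ s.R, s.dg s.P r ^ 2) +
        k * ∑ r ∈ s.R, s.dg s.R r < 2 * (l * (k - l)) + 1 := by
  obtain ⟨C, hC, h⟩ := phase3.{u} k hk
  have hk' : (2 : ℝ) ≤ k := by exact_mod_cast hk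
  set U₂ : ℝ := k * C + k * C ^ 2 + k ^ 2 + C ^ 2 with hU₂
  have hU₂0 : 0 ≤ U₂ := by rw [hU₂]; positivity
  filter_upwards [h, eventually_gt_atTop (1 : ℝ),
    eventually_gt_atTop (4 * (k * C * U₂ + k * C ^ 2) : ℝ)] with lam hlam h1 h2 s l hl1 hl2 hB
  obtain ⟨hRR, hxR, hxP, hPc, hP, hBup⟩ := hlam s l hl1 hl2 hB
  have hlam0 : 0 < lam := by linarith
  have hlR : (l : ℝ) + 1 ≤ k := by
    have : l + 1 ≤ k := by omega
    exact_mod_cast this
  have hl1R : (1 : ℝ) ≤ l := by exact_mod_cast hl1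
  have hRR0 : 0 ≤ ∑ v ∈ s.R, s.dg s.R v := sum_nonneg fun v _ => s.dg_nonneg _ _
  refine ⟨hPc, hP, ?_⟩
  have hm := s.m_eq hPc hP
  have hClam : C ^ 2 / lam ≤ C ^ 2 := div_le_self (by positivity) h1.le
  have hllk : (l : ℝ) * (k - l) ≤ k ^ 2 := by nlinarith
  -- first pass
  have hpass1 : k * ∑ r ∈ s.R, s.dg s.P r - ∑ r ∈ s.R, s.dg s.P r ^ 2 ≤
      k * C + k * C ^ 2 + k ^ 2 := by
    have e1 := s.step (C := C) (U := lam ^ 2) (l := l) hlam0 hC (by positivity) hk hPc hP hRR hxR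
      hxP hB (by
        intro i _
        have := s.D_nonneg i
        nlinarith)
    have e2 : (k : ℝ) * (C / lam ^ 2 * lam ^ 2) = k * C := by
      field_simp
    rw [e2] at e1
    have e3 : (k : ℝ) * C ^ 2 / lam ≤ k * C ^ 2 := div_le_self (by positivity) h1.le
    have e4 : 0 ≤ (k : ℝ) / 2 * ∑ r ∈ s.R, s.dg s.R r := by positivity
    linarith
  -- second pass
  have hdk : ∀ r, s.dg s.P r ≤ k := by
    intro r
    have := s.dg_le_card s.P r
    rwa [hPc] at this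
  have hU2 : ∀ i ∈ s.P, (lam ^ 2 - (k - 1) * lam) - s.D i ≤ U₂ := by
    intro i hi
    have e1 : ∑ r ∈ s.R, s.dg s.P r - s.D i ≤
        k * ∑ r ∈ s.R, s.dg s.P r - ∑ r ∈ s.R, s.dg s.P r ^ 2 := by
      unfold Ctx.D
      rw [mul_sum, ← sum_sub_distrib, ← sum_sub_distrib]
      refine sum_le_sum fun r _ => ?_
      have f1 := hdk r
      have f2 := s.dg_nonneg s.P r
      by_cases hir : s.G.Adj i r
      · rw [s.A_one hir]
        nlinarith
      · have f3 : s.dg s.P r ≤ k - 1 := by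
          have g1 : s.dg s.P r = s.dg (s.P.erase i) r := by
            unfold Ctx.dg
            rw [← add_sum_erase s.P _ hi, s.A_zero (fun h => hir h.symm), zero_add]
          have g2 := s.dg_le_card (s.P.erase i) r
          have g3 : (s.P.erase i).card + 1 = s.P.card := card_erase_add_one hi
          rw [hPc] at g3
          have g4 : ((s.P.erase i).card : ℝ) + 1 = k := by exact_mod_cast g3
          rw [g1]
          linarith
        rw [s.A_zero hir]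
        nlinarith
    rw [hU₂]
    linarith
  have e1 := s.step (C := C) (U := U₂) (l := l) hlam0 hC hU₂0 hk hPc hP hRR hxR hxP hB hU2
  have e2 : (k : ℝ) * (C / lam ^ 2 * U₂) ≤ k * C * U₂ / lam := by
    have : (k : ℝ) * (C / lam ^ 2 * U₂) = k * C * U₂ / lam ^ 2 := by ring
    rw [this]
    apply div_le_div_of_nonneg_left (by positivity) hlam0
    nlinarith
  have e3 : (k * C * U₂ + k * C ^ 2) / lam < 1 / 4 := by
    rw [div_lt_div_iff₀ hlam0 (by norm_num)]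
    linarith
  have e4 : (k * C * U₂ + k * C ^ 2) / lam = k * C * U₂ / lam + k * C ^ 2 / lam := by ring
  linarith

end Pool.Agent.Helper31.Fan
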