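import Mathlib
import Pool.Agent.Helper31.Fan.Steps7
import Pool.Agent.Helper31.Fan.Comb
import Pool.Agent.Helper31.Fan.Graphs

namespace Pool.Agent.Helper31.Fan

open Finset Filter
open scoped Classical

universe u

theorem auxm1 {t j : ℕ} (h : (j + 1) * j = 2 * t) : (j + 1) * (j + 1 + 1) = 2 * (t + (j + 1)) := by
  nlinarith

theorem auxm2 {l p q j : ℕ} (h : 2 * (j + 1) * (j + 1 + 1 + q) = 2 * p + (j + 1) * (j + 1 + 3)) :
    2 * (l + p) = 2 * l + 2 * (j + 1) * q + (j + 1) * j := by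
  nlinarith

theorem auxm3 {l k : ℝ} (hk : 2 ≤ k) : l * (k - l) / k ≤ k / 4 := by
  rw [div_le_div_iff₀ (by linarith) (by norm_num)]
  nlinarith [sq_nonneg (k - 2 * l)]

theorem auxm4 {L m k y : ℝ} (hk : 2 ≤ k) (hy : y ≤ k / 4) (hm : L ^ 2 + 2 * k ^ 2 + k ≤ m) :
    L ^ 2 ≤ m - k * (k - 1) / 2 - y := by
  nlinarith

theorem auxm5 {k s β : ℝ} (h : s ^ 2 = (k - 1) ^ 2 + 4 * β) :
    (((k - 1) + s) / 2) ^ 2 - (k - 1) * (((k - 1) + s) / 2) = β := by
  nlinarith

theorem auxm6 {k μ β L : ℝ} (hk : 2 ≤ k) (hμ0 : 0 < μ) (h : μ ^ 2 - (k - 1) * μ = β)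
    (hL : k ≤ L) (hβ : L ^ 2 ≤ β) : L ≤ μ := by
  by_contra hc
  have hc' : μ < L := lt_of_not_ge hc
  have h1 : μ ^ 2 < L ^ 2 := by nlinarith
  nlinarith

theorem auxm7 {k μ x : ℝ} (hk : 2 ≤ k) (hμ : k ≤ μ) (h : μ ≤ x) :
    μ ^ 2 - (k - 1) * μ ≤ x ^ 2 - (k - 1) * x := by
  nlinarith

theorem auxm8 {k : ℝ} (hk : 2 ≤ k) : k * (k - 1) / 2 + k / 4 ≤ k ^ 2 := by nlinarith

theorem main_struct (k : ℕ) (hk : 2 ≤ k) :
    ∀ᶠ lam : ℝ in atTop, ∀ s : Ctx.{u} k lam, ∀ l : ℕ, 1 ≤ l → l ≤ k - 1 → ∀ m n : ℕ,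
      s.m = m → (m + k * (k + 1) / 2) ≡ l [MOD k] →
      s.m - k * (k - 1) / 2 - l * (k - l) / k ≤ lam ^ 2 - (k - 1) * lam →
      k + 1 ≤ n → 2 * m = 2 * l + 2 * k * (n - k - 1) + k * (k - 1) →
      (∀ v, ∃ w, s.G.Adj v w) → Nonempty (s.G ≃g extGraph n k l) := by
  filter_upwards [phase4.{u} k hk] with lam hlam s l hl1 hl2 m n hm hmod hB hn hmn hiso
  obtain ⟨hPc, hP, hineq⟩ := hlam s l hl1 hl2 hB
  have hmeq := s.m_eq hPc hP
  set dN : s.V → ℕ := fun r => (s.P.filter (fun a => s.G.Adj r a)).card with hdN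
  set eN : ℕ := ∑ r ∈ s.R, (s.R.filter (fun a => s.G.Adj r a)).card with heN
  have hdg : ∀ r, s.dg s.P r = dN r := fun r => s.dg_eq_card _ _
  have heg : ∑ r ∈ s.R, s.dg s.R r = eN := by
    rw [heN, Nat.cast_sum]
    exact sum_congr rfl fun r _ => s.dg_eq_card _ _
  have hdk : ∀ r, dN r ≤ k := by
    intro r
    rw [hdN]
    exact (card_le_card (filter_subset _ _)).trans hPc.le
  -- conversion to natural numbers
  obtain ⟨t, ht⟩ : ∃ t, k * (k - 1) = 2 * t := by
    obtain ⟨t, ht⟩ := Nat.even_mul_pred_self k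
    exact ⟨t, by omega⟩
  have htR : (k : ℝ) * (k - 1) = 2 * t := by
    have : ((k * (k - 1) : ℕ) : ℝ) = ((2 * t : ℕ) : ℝ) := by rw [ht]
    rw [Nat.cast_mul, Nat.cast_sub (by omega)] at this
    push_cast at this
    exact this
  have hm2 : 2 * m = 2 * t + 2 * ∑ r ∈ s.R, dN r + eN := by
    have e1 : (m : ℝ) = t + ∑ r ∈ s.R, (dN r : ℝ) + 1 / 2 * eN := by
      rw [← hm, hmeq, heg, htR]
      simp only [hdg]
      ring
    have e2 : (2 * m : ℝ) = 2 * t + 2 * ∑ r ∈ s.R, (dN r : ℝ) + eN := by linarith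
    have e3 : ((2 * m : ℕ) : ℝ) = ((2 * t + 2 * ∑ r ∈ s.R, dN r + eN : ℕ) : ℝ) := by
      push_cast
      exact e2
    exact_mod_cast e3
  obtain ⟨E, hE⟩ : ∃ E, eN = 2 * E := ⟨m - t - ∑ r ∈ s.R, dN r, by omega⟩
  have hineqN : k * E + ∑ r ∈ s.R, dN r * (k - dN r) ≤ l * (k - l) := by
    have e1 : ((∑ r ∈ s.R, dN r * (k - dN r) : ℕ) : ℝ) =
        k * ∑ r ∈ s.R, s.dg s.P r - ∑ r ∈ s.R, s.dg s.P r ^ 2 := by
      rw [Nat.cast_sum, mul_sum, ← sum_sub_distrib]
      refine sum_congr rfl fun r _ => ?_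
      rw [Nat.cast_mul, Nat.cast_sub (hdk r), hdg]
      ring
    have e2 : ((l * (k - l) : ℕ) : ℝ) = l * (k - l) := by
      rw [Nat.cast_mul, Nat.cast_sub (by omega)]
    rw [← e1, heg, ← e2, hE] at hineq
    have e3 : 2 * (∑ r ∈ s.R, dN r * (k - dN r)) + k * (2 * E) < 2 * (l * (k - l)) + 1 := by
      exact_mod_cast hineq
    have e4 : k * (2 * E) = 2 * (k * E) := by ring
    omega
  have hkk : k * (k + 1) / 2 = t + k := by
    have : k * (k + 1) = 2 * (t + k) := by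
      obtain ⟨j, rfl⟩ : ∃ j, k = j + 1 := ⟨k - 1, by omega⟩
      simp only [Nat.add_sub_cancel] at ht
      exact auxm1 ht
    rw [this]
    omega
  have hmod2 : (∑ r ∈ s.R, dN r + E) ≡ l [MOD k] := by
    have e1 : m + k * (k + 1) / 2 = (∑ r ∈ s.R, dN r + E) + k * k := by
      rw [hkk]
      have : k * k = 2 * t + k := by
        rw [← ht]
        obtain ⟨j, rfl⟩ : ∃ j, k = j + 1 := ⟨k - 1, by omega⟩
        simp only [Nat.add_sub_cancel]
        ring
      omega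
    rw [e1] at hmod
    have e2 : (∑ r ∈ s.R, dN r + E) + k * k ≡ (∑ r ∈ s.R, dN r + E) [MOD k] := by
      unfold Nat.ModEq
      simp
    exact e2.symm.trans hmod
  obtain ⟨hE0, r₀, hr₀R, hr₀d, hrest⟩ := comb k l E hk hl1 hl2 s.R dN (fun r _ => hdk r) hineqN hmod2
  have hPR : ∀ v, v ∉ s.P ↔ v ∈ s.R := by
    intro v
    rw [s.mem_P, s.mem_R]
    exact not_le
  have heN0 : eN = 0 := by rw [hE, hE0]
  have hRR : ∀ r, r ∈ s.R → ∀ r', r' ∈ s.R → ¬ s.G.Adj r r' := by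
    intro r hr r' hr' hadj
    have h1 := (sum_eq_zero_iff.1 heN0) r hr
    rw [card_eq_zero] at h1
    have h2 : r' ∈ s.R.filter (fun a => s.G.Adj r a) := mem_filter.2 ⟨hr', hadj⟩
    rw [h1] at h2
    simp at h2
  have hdk' : ∀ r ∈ s.R, r ≠ r₀ → dN r = k := by
    intro r hr hne
    rcases hrest r hr hne with h | h
    · exfalso
      obtain ⟨w, hw⟩ := hiso r
      by_cases hwP : w ∈ s.P
      · rw [hdN] at h
        simp only at h
        rw [card_eq_zero] at h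
        have h2 : w ∈ s.P.filter (fun a => s.G.Adj r a) := mem_filter.2 ⟨hwP, hw⟩
        rw [h] at h2
        simp at h2
      · exact hRR r hr w ((hPR w).1 hwP) hw
    · exact h
  have hcardV : Fintype.card s.V = n := by
    have e1 : ∑ r ∈ s.R, dN r = l + k * (s.R.card - 1) := by
      rw [← add_sum_erase s.R dN hr₀R, hr₀d]
      congr 1
      rw [sum_congr rfl (fun r hr => hdk' r (mem_erase.1 hr).2 (mem_erase.1 hr).1), sum_const,
        card_erase_of_mem hr₀R, smul_eq_mul, mul_comm]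
    have e2 : s.P.card + s.R.card = Fintype.card s.V :=
      card_filter_add_card_filter_not (s := (univ : Finset s.V)) _
    have e3 : 0 < s.R.card := card_pos.2 ⟨r₀, hr₀R⟩
    rw [e1, heN0] at hm2
    rw [ht] at hmn
    have e4 : 2 * k * (n - k - 1) = 2 * (k * (n - k - 1)) := by ring
    have e5 : k * (n - k - 1) = k * (s.R.card - 1) := by omega
    have e6 : n - k - 1 = s.R.card - 1 := Nat.eq_of_mul_eq_mul_left (by omega) e5
    omega
  refine iso_of_struct s.G k l n s.P r₀ hPc ?_ ((hPR r₀).2 hr₀R) hr₀d ?_ ?_ hcardV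
  · intro a ha b hb hab
    have h1 := hP a ha
    rw [s.dg_eq_card] at h1
    have h2 : s.P.filter (fun b => s.G.Adj a b) = s.P.erase a := by
      apply eq_of_subset_of_card_le
      · intro c hc
        rw [mem_filter] at hc
        rw [mem_erase]
        refine ⟨?_, hc.1⟩
        rintro rfl
        exact s.irr _ hc.2
      · have h3 : (s.P.erase a).card + 1 = s.P.card := card_erase_add_one ha
        rw [hPc] at h3
        have h4 : ((s.P.erase a).card : ℝ) + 1 = k := by exact_mod_cast h3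
        have h5 : ((s.P.erase a).card : ℝ) ≤ (s.P.filter (fun b => s.G.Adj a b)).card := by
          linarith
        exact_mod_cast h5
    have h3 : b ∈ s.P.erase a := mem_erase.2 ⟨hab.symm, hb⟩
    rw [← h2] at h3
    exact (mem_filter.1 h3).2
  · intro r hrP hne a ha
    have h1 := hdk' r ((hPR r).1 hrP) hne
    have h2 : s.P.filter (fun a => s.G.Adj r a) = s.P := by
      apply eq_of_subset_of_card_le (filter_subset _ _)
      rw [hPc]
      exact h1.ge
    rw [← h2] at ha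
    exact (mem_filter.1 ha).2
  · intro r hr r' hr'
    exact hRR r ((hPR r).1 hr) r' ((hPR r').1 hr')

theorem specRad_le_of_iso {V W : Type*} [Fintype V] [Fintype W] [Nonempty V] [Nonempty W]
    {G : SimpleGraph V} {H : SimpleGraph W} (e : G ≃g H) : specRad G ≤ specRad H := by
  obtain ⟨⟨x, hx0, hx1, ⟨u, hxu⟩, heig⟩, -⟩ := specRad_spec G
  have hR := (specRad_spec H).2 (fun w => x (e.symm w))
  have h1 : ∑ w, x (e.symm w) ^ 2 = ∑ v, x v ^ 2 :=
    Equiv.sum_comp e.symm.toEquiv (fun v => x v ^ 2)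
  have h2 : ∑ v, ∑ w, adj H v w * (x (e.symm v) * x (e.symm w)) =
      specRad G * ∑ v, x v ^ 2 := by
    have e1 : ∀ v w, adj H v w = adj G (e.symm v) (e.symm w) := by
      intro v w
      unfold adj
      have : H.Adj v w ↔ G.Adj (e.symm v) (e.symm w) := (e.symm.map_adj_iff).symm
      simp only [this]
    simp only [e1]
    rw [mul_sum]
    rw [← Equiv.sum_comp e.symm.toEquiv (fun v => specRad G * x v ^ 2)]
    refine sum_congr rfl fun v _ => ?_
    have e2 := heig (e.symm v)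
    have e3 : ∑ w, adj G (e.symm v) (e.symm w) * x (e.symm w) =
        ∑ w, adj G (e.symm v) w * x w :=
      Equiv.sum_comp e.symm.toEquiv (fun w => adj G (e.symm v) w * x w)
    have e4 : ∑ w, adj G (e.symm v) (e.symm w) * (x (e.symm v) * x (e.symm w)) =
        x (e.symm v) * ∑ w, adj G (e.symm v) (e.symm w) * x (e.symm w) := by
      rw [mul_sum]
      exact sum_congr rfl fun w _ => by ring
    rw [e4, e3, e2]
    show x (e.symm v) * (specRad G * x (e.symm v)) = specRad G * x (e.symm v) ^ 2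
    ring
  rw [h2, h1] at hR
  have hpos : 0 < ∑ v, x v ^ 2 := by
    refine sum_pos' (fun i _ => sq_nonneg _) ⟨u, mem_univ u, ?_⟩
    rw [hxu]; norm_num
  exact le_of_mul_le_mul_right hR hpos

theorem main (k : ℕ) (hk : 2 ≤ k) :
    ∃ m₀ : ℕ, ∀ m : ℕ, m₀ ≤ m → ∀ l : ℕ, 1 ≤ l → l ≤ k - 1 →
      (m + k * (k + 1) / 2) ≡ l [MOD k] →
      ∀ n : ℕ, (n : ℚ) = ((m : ℚ) - l) / k + ((k : ℚ) + 3) / 2 →
      ∀ (V : Type u) [Fintype V] (G : SimpleGraph V),
        (fan (2 * k + 1)).Free G → G.edgeSet.ncard = m → (∀ v, ∃ w, G.Adj v w) →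
        specRad G ≤ specRad (extGraph n k l) ∧
          (specRad G = specRad (extGraph n k l) → Nonempty (G ≃g extGraph n k l)) := by
  obtain ⟨Λ, hΛ⟩ := eventually_atTop.1 (main_struct.{u} k hk)
  set L : ℝ := max Λ k with hL
  refine ⟨⌈L ^ 2⌉₊ + 2 * k ^ 2 + k, ?_⟩
  intro m hm l hl1 hl2 hmod n hn V _ G hfree hedges hiso
  have hk' : (2 : ℝ) ≤ k := by exact_mod_cast hk
  have hlR : (l : ℝ) + 1 ≤ k := by
    have : l + 1 ≤ k := by omega
    exact_mod_cast this
  have hl1R : (1 : ℝ) ≤ l := by exact_mod_cast hl1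
  have hLk : (k : ℝ) ≤ L := le_max_right _ _
  have hLΛ : Λ ≤ L := le_max_left _ _
  -- arithmetic of n
  have hnZ : 2 * k * n = 2 * (m - l) + k * (k + 3) ∧ l ≤ m := by
    have hlm : l ≤ m := by
      have : 0 ≤ k ^ 2 := Nat.zero_le _
      omega
    refine ⟨?_, hlm⟩
    have hkQ : (k : ℚ) ≠ 0 := by
      have : k ≠ 0 := by omega
      exact_mod_cast this
    have e1 : (2 * k * n : ℚ) = 2 * ((m : ℚ) - l) + k * (k + 3) := by
      rw [hn]
      field_simp
    have e2 : ((2 * k * n : ℕ) : ℚ) = ((2 * (m - l) + k * (k + 3) : ℕ) : ℚ) := by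
      push_cast [Nat.cast_sub hlm]
      exact e1
    exact_mod_cast e2
  obtain ⟨hnN, hlm⟩ := hnZ
  have hmk : 2 * k ^ 2 + k ≤ m := by omega
  have hkn : k + 1 ≤ n := by
    by_contra hc
    push Not at hc
    have e1 : n ≤ k := by omega
    have e2 : 2 * k * n ≤ 2 * k * k := Nat.mul_le_mul_left _ e1
    have e3 : k * (k + 3) = k * k + 3 * k := by ring
    have e4 : k ^ 2 = k * k := by ring
    have e5 : 2 * k * k = 2 * (k * k) := by ring
    omega
  have hmn : 2 * m = 2 * l + 2 * k * (n - k - 1) + k * (k - 1) := by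
    obtain ⟨q, hq⟩ : ∃ q, n = k + 1 + q := ⟨n - (k + 1), by omega⟩
    have e0 : n - k - 1 = q := by omega
    rw [e0]
    obtain ⟨j, hj⟩ : ∃ j, k = j + 1 := ⟨k - 1, by omega⟩
    obtain ⟨p, hp⟩ : ∃ p, m = l + p := ⟨m - l, by omega⟩
    have e1 : m - l = p := by omega
    rw [e1] at hnN
    rw [hp]
    have e2 : k - 1 = j := by omega
    rw [e2]
    rw [hq] at hnN
    subst hj
    exact auxm2 hnN
  set q : ℝ := ((n - k - 1 : ℕ) : ℝ) with hq
  have hmnR : (2 : ℝ) * m = 2 * l + 2 * k * q + k * (k - 1) := by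
    have : ((2 * m : ℕ) : ℝ) = ((2 * l + 2 * k * (n - k - 1) + k * (k - 1) : ℕ) : ℝ) := by
      rw [hmn]
    push_cast [Nat.cast_sub (show 1 ≤ k by omega)] at this
    rw [hq]
    linarith
  set β : ℝ := (q * k ^ 2 + l ^ 2) / k with hβ
  have hβeq : β = m - k * (k - 1) / 2 - l * (k - l) / k := by
    have e1 : (m : ℝ) = l + k * q + k * (k - 1) / 2 := by linarith
    rw [hβ, e1]
    field_simp
    ring
  have hq0 : 0 ≤ q := by rw [hq]; positivity
  have hβ0 : 0 ≤ β := by rw [hβ]; positivity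
  have hmR : L ^ 2 + 2 * k ^ 2 + k ≤ (m : ℝ) := by
    have e1 : ((⌈L ^ 2⌉₊ + 2 * k ^ 2 + k : ℕ) : ℝ) ≤ m := by exact_mod_cast hm
    push_cast at e1
    have e2 := Nat.le_ceil (L ^ 2)
    linarith
  have hlk : (l : ℝ) * (k - l) / k ≤ k / 4 := auxm3 hk'
  have hβL : L ^ 2 ≤ β := by
    rw [hβeq]
    exact auxm4 hk' hlk hmR
  -- the number μ
  set μ : ℝ := ((k - 1) + Real.sqrt ((k - 1) ^ 2 + 4 * β)) / 2 with hμ
  have hsq : Real.sqrt ((k - 1) ^ 2 + 4 * β) ^ 2 = (k - 1) ^ 2 + 4 * β :=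
    Real.sq_sqrt (by positivity)
  have hμ2 : μ ^ 2 - (k - 1) * μ = β := by
    rw [hμ]
    exact auxm5 hsq
  have hμ0 : 0 < μ := by
    rw [hμ]
    have := Real.sqrt_nonneg (((k : ℝ) - 1) ^ 2 + 4 * β)
    have : (1 : ℝ) ≤ k - 1 := by linarith
    linarith
  have hμL : L ≤ μ := auxm6 hk' hμ0 hμ2 hLk hβL
  have hSμ : μ ≤ specRad (extGraph n k l) := by
    apply specRad_ext_ge n k l hk hl1 hl2 μ hμ0
    rw [hμ2, hβ, hq]
  -- nonempty vertex set
  have hmpos : 0 < m := by omega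
  have hVne : Nonempty V := by
    by_contra hc
    rw [not_nonempty_iff] at hc
    have : G.edgeSet = ∅ := by
      ext e
      induction e using Sym2.ind with
      | _ a b => exact (hc.false a).elim
    rw [this] at hedges
    simp at hedges
    omega
  -- main claim
  have hclaim : specRad (extGraph n k l) ≤ specRad G → Nonempty (G ≃g extGraph n k l) := by
    intro hle
    obtain ⟨⟨x, hx0, hx1, ⟨u, hxu⟩, heig⟩, -⟩ := specRad_spec G
    have hlam : μ ≤ specRad G := hSμ.trans hle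
    have hBG : (m : ℝ) - k * (k - 1) / 2 - l * (k - l) / k ≤
        specRad G ^ 2 - (k - 1) * specRad G := by
      rw [← hβeq, ← hμ2]
      exact auxm7 hk' (hLk.trans hμL) hlam
    have htwo : ∑ v, ∑ w, adj G v w = 2 * (m : ℝ) := by
      have e1 := G.sum_degrees_eq_twice_card_edges
      have e2 : G.edgeFinset.card = m := by
        rw [← hedges, ← SimpleGraph.coe_edgeFinset, Set.ncard_coe_finset]
      rw [e2] at e1
      have e3 : ∀ v, ∑ w, adj G v w = (G.degree v : ℝ) := by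
        intro v
        unfold adj
        rw [sum_boole]
        congr 2
        ext w
        simp
      simp only [e3]
      rw [← Nat.cast_sum, e1]
      push_cast
      rfl
    let s : Ctx.{u} k (specRad G) :=
      { V := V
        fV := inferInstance
        G := G
        x := x
        u := u
        m := m
        x0 := hx0
        x1 := hx1
        xu := hxu
        eig := heig
        two_m := htwo
        big := by
          have : (k : ℝ) * (k - 1) / 2 + k / 4 ≤ k ^ 2 := auxm8 hk'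
          linarith
        nopath := fun v K hK => nopath_of_free G (2 * k + 1) hfree v K hK }
    exact hΛ (specRad G) (hLΛ.trans (hμL.trans hlam)) s l hl1 hl2 m n rfl hmod hBG hkn hmn hiso
  have : Nonempty (Fin l ⊕ ((Fin (k - l) ⊕ Fin (n - k - 1)) ⊕ Fin 1)) := ⟨Sum.inr (Sum.inr 0)⟩
  constructor
  · by_contra hc
    push Not at hc
    obtain ⟨e⟩ := hclaim hc.le
    have := specRad_le_of_iso e
    linarith
  · intro heq
    exact hclaim heq.ge

theorem exists_n (k m l : ℕ) (hk : 2 ≤ k) (hlm : l ≤ m) (hmod : (m + k * (k + 1) / 2) ≡ l [MOD k]) :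
    ∃ n : ℕ, (n : ℚ) = ((m : ℚ) - l) / k + ((k : ℚ) + 3) / 2 := by
  obtain ⟨t, ht⟩ : ∃ t, k * (k + 1) = 2 * t := by
    obtain ⟨t, ht⟩ := Nat.even_mul_succ_self k
    exact ⟨t, by omega⟩
  have h1 : k * (k + 1) / 2 = t := by rw [ht]; omega
  rw [h1] at hmod
  have h2 : l ≤ m + t := by omega
  obtain ⟨c, hc⟩ := (Nat.modEq_iff_dvd' h2).1 hmod.symm
  have h3 : m + t = l + k * c := by omega
  refine ⟨c + 1, ?_⟩
  have h4 : (2 * (m : ℚ) + k * (k + 1)) = 2 * l + 2 * k * c := by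
    have : ((2 * (m + t) : ℕ) : ℚ) = ((2 * (l + k * c) : ℕ) : ℚ) := by rw [h3]
    have h5 : ((k * (k + 1) : ℕ) : ℚ) = ((2 * t : ℕ) : ℚ) := by rw [ht]
    push_cast at this h5
    linarith
  have hk0 : (k : ℚ) ≠ 0 := by
    have : k ≠ 0 := by omega
    exact_mod_cast this
  push_cast
  field_simp
  linarith

theorem main' (k : ℕ) (hk : 2 ≤ k) :
    ∃ m₀ : ℕ, ∀ m : ℕ, m₀ ≤ m → ∀ l : ℕ, 1 ≤ l → l ≤ k - 1 →
      (m + k * (k + 1) / 2) ≡ l [MOD k] →
      ∃ n : ℕ, (n : ℚ) = ((m : ℚ) - l) / k + ((k : ℚ) + 3) / 2 ∧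
        ∀ (V : Type u) [Fintype V] (G : SimpleGraph V),
          (fan (2 * k + 1)).Free G → G.edgeSet.ncard = m → (∀ v, ∃ w, G.Adj v w) →
          specRad G ≤ specRad (extGraph n k l) ∧
            (specRad G = specRad (extGraph n k l) → Nonempty (G ≃g extGraph n k l)) := by
  obtain ⟨m₀, h⟩ := main.{u} k hk
  refine ⟨m₀ + k, ?_⟩
  intro m hm l hl1 hl2 hmod
  obtain ⟨n, hn⟩ := exists_n k m l hk (by omega) hmod
  exact ⟨n, hn, fun V _ G h1 h2 h3 => h m (by omega) l hl1 hl2 hmod n hn V G h1 h2 h3⟩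

end Pool.Agent.Helper31.Fan
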